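import Pool.Agent.MP_2a1f0e_nt.Variance

set_option autoImplicit false

open Finset

namespace Pool.Agent.MP_2a1f0e_nt

/-- truncation of a sequence to `[N, 2N]` as an arithmetic function -/
def tr {R : Type*} [Zero R] (N : ℕ) (b : ℕ → R) : ArithmeticFunction R :=
  ⟨fun n => if n ≠ 0 ∧ n ∈ Icc N (2 * N) then b n else 0, by simp⟩

lemma tr_apply {R : Type*} [Zero R] (N : ℕ) (b : ℕ → R) (n : ℕ) :
    tr N b n = if n ≠ 0 ∧ n ∈ Icc N (2 * N) then b n else 0 := rfl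

lemma conv_sum {R : Type*} [CommSemiring R] (f g : ArithmeticFunction R) (s t u : Finset ℕ)
    (hf : ∀ n, n ∉ s → f n = 0) (hg : ∀ n, n ∉ t → g n = 0) (hs : ∀ x ∈ s, x ≠ 0)
    (ht : ∀ x ∈ t, x ≠ 0) (hu : ∀ x ∈ s, ∀ y ∈ t, x * y ∈ u) (χ : ℕ → R)
    (hχ : ∀ x y, x ≠ 0 → y ≠ 0 → χ (x * y) = χ x * χ y) :
    ∑ n ∈ u, (f * g) n * χ n = (∑ x ∈ s, f x * χ x) * ∑ y ∈ t, g y * χ y := by
  rw [sum_mul_sum, ← sum_product']
  rw [← sum_fiberwise_of_maps_to (s := s ×ˢ t) (t := u) (g := fun p => p.1 * p.2)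
    (fun p hp => hu _ (mem_product.1 hp).1 _ (mem_product.1 hp).2)]
  refine sum_congr rfl fun n _ => ?_
  rw [ArithmeticFunction.mul_apply, sum_mul]
  symm
  apply sum_subset_zero_on_sdiff
  · intro p hp
    obtain ⟨h1, h2⟩ := mem_filter.1 hp
    rw [Nat.mem_divisorsAntidiagonal]
    refine ⟨h2, ?_⟩
    rw [← h2]
    exact mul_ne_zero (hs _ (mem_product.1 h1).1) (ht _ (mem_product.1 h1).2)
  · intro p hp
    obtain ⟨h1, h2⟩ := mem_sdiff.1 hp
    have h3 := (Nat.mem_divisorsAntidiagonal.1 h1).1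
    by_cases a : p.1 ∈ s
    · by_cases b : p.2 ∈ t
      · exact absurd (mem_filter.2 ⟨mem_product.2 ⟨a, b⟩, h3⟩) h2
      · rw [hg _ b]; simp
    · rw [hf _ a]; simp
  · intro p hp
    obtain ⟨h1, h2⟩ := mem_filter.1 hp
    rw [← h2, hχ _ _ (hs _ (mem_product.1 h1).1) (ht _ (mem_product.1 h1).2)]
    ring

lemma tr_pow_supp {R : Type*} [CommSemiring R] (N : ℕ) (b : ℕ → R) (k : ℕ) :
    ∀ n, n ∉ Icc (N ^ k) ((2 * N) ^ k) → (tr N b ^ k) n = 0 := by
  induction k with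
  | zero =>
    intro n hn
    rw [pow_zero]
    apply ArithmeticFunction.one_apply_ne
    rintro rfl
    simp at hn
  | succ k ih =>
    intro n hn
    rw [pow_succ, ArithmeticFunction.mul_apply]
    refine sum_eq_zero fun p hp => ?_
    have h3 := (Nat.mem_divisorsAntidiagonal.1 hp).1
    by_cases a : p.1 ∈ Icc (N ^ k) ((2 * N) ^ k)
    · by_cases c : p.2 ∈ Icc N (2 * N)
      · exfalso
        apply hn
        rw [mem_Icc] at a c ⊢
        rw [← h3, pow_succ, pow_succ]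
        exact ⟨Nat.mul_le_mul a.1 c.1, Nat.mul_le_mul a.2 c.2⟩
      · rw [tr_apply, if_neg (fun h => c h.2), mul_zero]
    · rw [ih _ a, zero_mul]

lemma tr_pow_sum {R : Type*} [CommSemiring R] {N : ℕ} (hN : 1 ≤ N) (b : ℕ → R) (χ : ℕ → R)
    (hχ : ∀ x y, x ≠ 0 → y ≠ 0 → χ (x * y) = χ x * χ y) (h1 : χ 1 = 1) (k : ℕ) :
    ∑ n ∈ Icc (N ^ k) ((2 * N) ^ k), (tr N b ^ k) n * χ n =
      (∑ a ∈ Icc N (2 * N), b a * χ a) ^ k := by
  induction k with
  | zero => simp [h1]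
  | succ k ih =>
    rw [pow_succ (tr N b), conv_sum (tr N b ^ k) (tr N b) (Icc (N ^ k) ((2 * N) ^ k))
      (Icc N (2 * N)) _ (tr_pow_supp N b k)
      (fun n hn => by rw [tr_apply, if_neg (fun h => hn h.2)])
      (fun x hx => by
        have := (mem_Icc.1 hx).1
        have : 0 < N ^ k := by positivity
        omega)
      (fun x hx => by
        have := (mem_Icc.1 hx).1
        omega)
      (fun x hx y hy => by
        rw [mem_Icc] at hx hy ⊢
        rw [pow_succ, pow_succ]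
        exact ⟨Nat.mul_le_mul hx.1 hy.1, Nat.mul_le_mul hx.2 hy.2⟩) χ hχ, ih, pow_succ]
    congr 1
    refine sum_congr rfl fun a ha => ?_
    have := (mem_Icc.1 ha).1
    rw [tr_apply, if_pos ⟨by omega, ha⟩]

lemma tr_pow_norm (N : ℕ) (b : ℕ → ℂ) (k : ℕ) :
    ∀ n, ‖(tr N b ^ k) n‖ ≤ (tr N (fun n => ‖b n‖) ^ k) n := by
  induction k with
  | zero =>
    intro n
    simp only [pow_zero, ArithmeticFunction.one_apply]
    split_ifs <;> simp
  | succ k ih =>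
    intro n
    rw [pow_succ, pow_succ, ArithmeticFunction.mul_apply, ArithmeticFunction.mul_apply]
    refine (norm_sum_le _ _).trans (sum_le_sum fun p _ => ?_)
    rw [norm_mul]
    apply mul_le_mul (ih _) _ (norm_nonneg _) ((norm_nonneg _).trans (ih _))
    rw [tr_apply, tr_apply]
    split_ifs <;> simp

lemma tr_pow_nonneg (N : ℕ) (b : ℕ → ℂ) (k n : ℕ) : 0 ≤ (tr N (fun n => ‖b n‖) ^ k) n :=
  (norm_nonneg _).trans (tr_pow_norm N b k n)

lemma tr_pow_le (N : ℕ) (b : ℕ → ℂ) (hb : ∀ n, ‖b n‖ ≤ 1) {X : ℕ} {τ : ℝ} (hτ1 : 1 ≤ τ)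
    (hτ : ∀ n ≤ X, (n.divisors.card : ℝ) ≤ τ) (k : ℕ) :
    ∀ n ≤ X, (tr N (fun n => ‖b n‖) ^ k) n ≤ τ ^ k := by
  induction k with
  | zero =>
    intro n _
    simp only [pow_zero, ArithmeticFunction.one_apply]
    split_ifs <;> simp
  | succ k ih =>
    intro n hn
    rw [pow_succ, ArithmeticFunction.mul_apply,
      Nat.sum_divisorsAntidiagonal (fun x y => (tr N (fun n => ‖b n‖) ^ k) x *
        tr N (fun n => ‖b n‖) y)]
    refine (sum_le_card_nsmul _ _ (τ ^ k) fun x hx => ?_).trans ?_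
    · have h1 := ih x ((Nat.divisor_le hx).trans hn)
      have h2 : tr N (fun n => ‖b n‖) (n / x) ≤ 1 := by
        rw [tr_apply]
        split_ifs
        · exact hb _
        · norm_num
      have h3 := tr_pow_nonneg N b k x
      nlinarith
    · rw [nsmul_eq_mul, pow_succ, mul_comm]
      exact mul_le_mul_of_nonneg_left (hτ n hn) (by positivity)

lemma tr_pow_add_le (N : ℕ) (b : ℕ → ℂ) (hb : ∀ n, ‖b n‖ ≤ 1) {X : ℕ} {τ : ℝ} (hτ1 : 1 ≤ τ)
    (hτ : ∀ n ≤ X, (n.divisors.card : ℝ) ≤ τ) (j m : ℕ) :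
    ∀ n ≤ X, (tr N (fun n => ‖b n‖) ^ (j + m)) n ≤
      τ ^ m * ∑ a ∈ Icc (N ^ j) ((2 * N) ^ j), (tr N (fun n => ‖b n‖) ^ j) a * dv a n := by
  intro n hn
  rw [pow_add, ArithmeticFunction.mul_apply,
    Nat.sum_divisorsAntidiagonal (fun x y => (tr N (fun n => ‖b n‖) ^ j) x *
      (tr N (fun n => ‖b n‖) ^ m) y)]
  calc ∑ x ∈ n.divisors, (tr N (fun n => ‖b n‖) ^ j) x * (tr N (fun n => ‖b n‖) ^ m) (n / x)
      ≤ ∑ x ∈ n.divisors, τ ^ m * ((tr N (fun n => ‖b n‖) ^ j) x * dv x n) := by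
        refine sum_le_sum fun x hx => ?_
        have h1 := tr_pow_le N b hb hτ1 hτ m (n / x) ((Nat.div_le_self _ _).trans hn)
        have h2 : dv x n = 1 := by
          unfold dv
          rw [if_pos (Int.natCast_dvd_natCast.2 (Nat.dvd_of_mem_divisors hx))]
        have h3 := tr_pow_nonneg N b j x
        rw [h2]
        nlinarith
    _ ≤ _ := by
        rw [← mul_sum]
        apply mul_le_mul_of_nonneg_left _ (by positivity)
        rw [← sum_filter_of_ne (p := fun a => a ∈ Icc (N ^ j) ((2 * N) ^ j))]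
        · apply sum_le_sum_of_subset_of_nonneg
          · intro a ha
            exact (mem_filter.1 ha).2
          · intro a _ _
            exact mul_nonneg (tr_pow_nonneg N b j a) (dv_nonneg _ _)
        · intro a _ hne
          by_contra h
          apply hne
          rw [tr_pow_supp N _ j a h, zero_mul]

lemma nit_mul (t x y : ℕ) (hx : x ≠ 0) (hy : y ≠ 0) : nit t (x * y) = nit t x * nit t y := by
  unfold nit
  rw [← Complex.exp_add, Nat.cast_mul, Real.log_mul (by exact_mod_cast hx) (by exact_mod_cast hy)]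
  congr 1
  push_cast
  ring

lemma nit_one (t : ℕ) : nit t 1 = 1 := by simp [nit]

lemma nit_add (t t' n : ℕ) : nit (t + t') n = nit t n * nit t' n := by
  unfold nit
  rw [← Complex.exp_add]
  congr 1
  push_cast
  ring

lemma norm_nit (t n : ℕ) : ‖nit t n‖ = 1 := by
  unfold nit
  have : Complex.I * (t : ℂ) * ((Real.log (n : ℝ) : ℝ) : ℂ) =
      Complex.I * ((t * Real.log (n : ℝ) : ℝ) : ℂ) := by
    push_cast
    ring
  rw [this]
  exact Complex.norm_exp_I_mul_ofReal _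

/-- the dispersion step -/
lemma dispersion (S A : Finset ℕ) (u α : ℕ → ℝ) (hu : ∀ n ∈ S, 0 ≤ u n)
    (hα0 : ∀ a ∈ A, 0 ≤ α a) {Λ : ℝ} (hΛ : 0 ≤ Λ)
    (huα : ∀ n ∈ S, u n ≤ Λ * ∑ a ∈ A, α a * dv a n) {H Y : ℕ}
    (hS1 : ∀ n ∈ S, 1 ≤ n) (hSY : ∀ n ∈ S, n + H ≤ Y) :
    ∑ x ∈ Icc 1 Y, (∑ n ∈ S, u n * ind H n x) ^ 2 ≤
      2 * Λ * (∑ a ∈ A, α a / a) * (H : ℝ) ^ 2 * ∑ n ∈ S, u n +
        Λ ^ 2 * ∑ x ∈ Icc 1 Y,
          (∑ a ∈ A, α a * ∑ i ∈ range H, (dv a ((x : ℤ) - i) - 1 / a)) ^ 2 := by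
  set σ := ∑ a ∈ A, α a / a with hσ
  have h1 : ∀ x : ℕ, ∑ n ∈ S, u n * ind H n x ≤
      Λ * (σ * H + ∑ a ∈ A, α a * ∑ i ∈ range H, (dv a ((x : ℤ) - i) - 1 / a)) := by
    intro x
    have e1 : σ * H + ∑ a ∈ A, α a * ∑ i ∈ range H, (dv a ((x : ℤ) - i) - 1 / a) =
        ∑ i ∈ range H, ∑ a ∈ A, α a * dv a ((x : ℤ) - i) := by
      rw [sum_comm, hσ, sum_mul, ← sum_add_distrib]
      refine sum_congr rfl fun a _ => ?_
      rw [sum_sub_distrib, ← mul_sum]
      simp only [sum_const, card_range, nsmul_eq_mul]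
      ring
    rw [e1]
    set g : ℤ → ℝ := fun m => ∑ a ∈ A, α a * dv a m with hg
    have hg0 : ∀ m, 0 ≤ g m := fun m => sum_nonneg fun a ha => mul_nonneg (hα0 a ha) (dv_nonneg _ _)
    set F := S.filter (fun n => n ≤ x ∧ x < n + H) with hF
    calc ∑ n ∈ S, u n * ind H n x = ∑ n ∈ F, u n := by
          rw [hF, sum_filter]
          refine sum_congr rfl fun n _ => ?_
          unfold ind
          split_ifs <;> simp
      _ ≤ ∑ n ∈ F, Λ * g ((x : ℤ) - ((x - n : ℕ) : ℤ)) := by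
          refine sum_le_sum fun n hn => ?_
          obtain ⟨a, b, -⟩ := mem_filter.1 hn
          have : (x : ℤ) - ((x - n : ℕ) : ℤ) = n := by omega
          rw [this]
          exact huα n a
      _ = ∑ i ∈ F.image (fun n => x - n), Λ * g ((x : ℤ) - i) := by
          rw [sum_image]
          intro n hn m hm h
          obtain ⟨-, b, -⟩ := mem_filter.1 (mem_coe.1 hn)
          obtain ⟨-, b', -⟩ := mem_filter.1 (mem_coe.1 hm)
          simp only at h
          omega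
      _ ≤ ∑ i ∈ range H, Λ * g ((x : ℤ) - i) := by
          apply sum_le_sum_of_subset_of_nonneg
          · intro i hi
            obtain ⟨n, hn, rfl⟩ := mem_image.1 hi
            obtain ⟨-, b, c⟩ := mem_filter.1 hn
            rw [mem_range]
            omega
          · intro i _ _
            exact mul_nonneg hΛ (hg0 _)
      _ = _ := by rw [mul_sum]
  have h2 : ∑ x ∈ Icc 1 Y, ∑ n ∈ S, u n * ind H n x = H * ∑ n ∈ S, u n := by
    rw [sum_comm, mul_sum]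
    refine sum_congr rfl fun n hn => ?_
    rw [← mul_sum, sum_ind (hS1 n hn) (hSY n hn), mul_comm]
  have e : 2 * Λ * σ * (H : ℝ) ^ 2 * ∑ n ∈ S, u n =
      ∑ x ∈ Icc 1 Y, 2 * Λ * σ * H * ∑ n ∈ S, u n * ind H n x := by
    rw [← mul_sum, h2]
    ring
  rw [e, mul_sum (f := fun x : ℕ =>
    (∑ a ∈ A, α a * ∑ i ∈ range H, (dv a ((x : ℤ) - i) - 1 / a)) ^ 2), ← sum_add_distrib]
  refine sum_le_sum fun x _ => ?_
  have h3 := h1 x
  have h4 : 0 ≤ ∑ n ∈ S, u n * ind H n x :=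
    sum_nonneg fun n hn => mul_nonneg (hu n hn) (ind_nonneg _ _ _)
  set U := ∑ n ∈ S, u n * ind H n x
  set D := ∑ a ∈ A, α a * ∑ i ∈ range H, (dv a ((x : ℤ) - i) - 1 / a)
  nlinarith [sq_nonneg (U - Λ * D), mul_le_mul_of_nonneg_left h3 h4]

end Pool.Agent.MP_2a1f0e_nt
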