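import Mathlib

/-!
Large values of Dirichlet-type polynomials on a finite abelian group: the cubic trace inequality.
-/

open Finset ComplexConjugate

namespace Pool.Agent.MP_2a1f0e_nt.FF

/-- A complete system of characters of a finite abelian group. -/
structure CharSys {G X : Type} [CommGroup G] [Fintype G] [Fintype X] [DecidableEq G]
    [DecidableEq X] (e : X → G → ℂ) : Prop where
  one : ∀ χ, e χ 1 = 1
  mul : ∀ χ g h, e χ (g * h) = e χ g * e χ h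
  inv : ∀ χ g, e χ g⁻¹ = conj (e χ g)
  orth1 : ∀ g, ∑ χ, e χ g = if g = 1 then (Fintype.card G : ℂ) else 0
  orth2 : ∀ χ χ', ∑ g, e χ g * conj (e χ' g) = if χ = χ' then (Fintype.card G : ℂ) else 0

lemma cs {ι : Type} (s : Finset ι) (f g : ι → ℂ) :
    ‖∑ i ∈ s, f i * g i‖ ^ 2 ≤ (∑ i ∈ s, ‖f i‖ ^ 2) * ∑ i ∈ s, ‖g i‖ ^ 2 := by
  have h1 : ‖∑ i ∈ s, f i * g i‖ ≤ ∑ i ∈ s, ‖f i‖ * ‖g i‖ := by
    refine (norm_sum_le _ _).trans (le_of_eq ?_)
    simp [norm_mul]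
  calc ‖∑ i ∈ s, f i * g i‖ ^ 2 ≤ (∑ i ∈ s, ‖f i‖ * ‖g i‖) ^ 2 := by gcongr
    _ ≤ _ := Finset.sum_mul_sq_le_sq_mul_sq _ _ _

lemma mul_conj' (z : ℂ) : z * conj z = ((‖z‖ ^ 2 : ℝ) : ℂ) := by
  rw [Complex.mul_conj, Complex.normSq_eq_norm_sq]

variable {G X : Type} [CommGroup G] [Fintype G] [Fintype X] [DecidableEq G] [DecidableEq X]
  {e : X → G → ℂ}

lemma parseval_dual (he : CharSys e) (W : Finset X) (u v : X → ℂ) :
    ∑ g, (∑ χ ∈ W, u χ * e χ g) * conj (∑ χ ∈ W, v χ * e χ g)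
      = (Fintype.card G : ℂ) * ∑ χ ∈ W, u χ * conj (v χ) := by
  have : ∀ g, (∑ χ ∈ W, u χ * e χ g) * conj (∑ χ ∈ W, v χ * e χ g)
      = ∑ χ ∈ W, ∑ χ' ∈ W, u χ * conj (v χ') * (e χ g * conj (e χ' g)) := by
    intro g
    rw [map_sum, Finset.sum_mul_sum]
    refine Finset.sum_congr rfl fun χ _ => Finset.sum_congr rfl fun χ' _ => ?_
    rw [map_mul]; ring
  simp_rw [this]
  rw [Finset.sum_comm, Finset.mul_sum]
  refine Finset.sum_congr rfl fun χ hχ => ?_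
  rw [Finset.sum_comm]
  simp_rw [← Finset.mul_sum, he.orth2]
  simp [Finset.sum_ite_eq, hχ, mul_comm]

lemma parseval (he : CharSys e) (a : G → ℂ) :
    ∑ χ, ‖∑ g, a g * e χ g‖ ^ 2 = (Fintype.card G : ℝ) * ∑ g, ‖a g‖ ^ 2 := by
  have key : ∑ χ, (∑ g, a g * e χ g) * conj (∑ g, a g * e χ g)
      = (Fintype.card G : ℂ) * ∑ g, a g * conj (a g) := by
    have : ∀ χ, (∑ g, a g * e χ g) * conj (∑ g, a g * e χ g)
        = ∑ g, ∑ h, a g * conj (a h) * e χ (g * h⁻¹) := by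
      intro χ
      rw [map_sum, Finset.sum_mul_sum]
      refine Finset.sum_congr rfl fun g _ => Finset.sum_congr rfl fun h _ => ?_
      rw [map_mul, he.mul, he.inv]; ring
    simp_rw [this]
    rw [Finset.sum_comm, Finset.mul_sum]
    refine Finset.sum_congr rfl fun g _ => ?_
    rw [Finset.sum_comm]
    simp_rw [← Finset.mul_sum, he.orth1, mul_inv_eq_one]
    simp [Finset.sum_ite_eq, mul_comm]
  simp_rw [mul_conj'] at key
  exact_mod_cast key

/-- The indicator of `S`. -/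
def ind (S : Finset G) (g : G) : ℝ := if g ∈ S then 1 else 0

/-- The triple correlation of the balanced indicator. -/
def Om (S : Finset G) (θ : ℝ) (v₁ v₂ : G) : ℝ :=
  ∑ g, (ind S (g * v₁) - θ) * (ind S g - θ) * ind S (g * v₂)

lemma sum_ind (S : Finset G) (F : G → ℂ) : ∑ g ∈ S, F g = ∑ g, (ind S g : ℂ) * F g := by
  have : ∀ g, (ind S g : ℂ) * F g = if g ∈ S then F g else 0 := by
    intro g; unfold ind; split_ifs <;> simp
  simp_rw [this]
  rw [Finset.sum_ite_mem]; simp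

/-- Expansion of the Hilbert-Schmidt sum. -/
lemma hs_expand (S : Finset G) (θ : ℝ) (b a : G → ℂ) (hb : ∀ g, ‖b g‖ ≤ 1) :
    ∑ f ∈ S, ∑ u, ‖∑ h ∈ S, b h * (((ind S (u / h) - θ : ℝ) : ℂ) * a (f * h / u))‖ ^ 2
      ≤ ∑ h ∈ S, ∑ h' ∈ S, ∑ v₂, |Om S θ (h' / h) v₂| * (‖a (v₂ / (h' / h))‖ * ‖a v₂‖) := by
  have key : ((∑ f ∈ S, ∑ u,
        ‖∑ h ∈ S, b h * (((ind S (u / h) - θ : ℝ) : ℂ) * a (f * h / u))‖ ^ 2 : ℝ) : ℂ)
      = ∑ h ∈ S, ∑ h' ∈ S, b h * conj (b h') *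
          ∑ v₂, (Om S θ (h' / h) v₂ : ℂ) * (a (v₂ / (h' / h)) * conj (a v₂)) := by
    push_cast
    have h1 : ∀ f u, ((‖∑ h ∈ S, b h * (((ind S (u / h) : ℂ) - θ) * a (f * h / u))‖ : ℝ) : ℂ) ^ 2
        = ∑ h ∈ S, ∑ h' ∈ S, b h * conj (b h') *
          (((ind S (u / h) : ℂ) - θ) * ((ind S (u / h') : ℂ) - θ) *
            (a (f * h / u) * conj (a (f * h' / u)))) := by
      intro f u
      have := mul_conj' (∑ h ∈ S, b h * (((ind S (u / h) : ℂ) - θ) * a (f * h / u)))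
      push_cast at this
      rw [← this, map_sum, Finset.sum_mul_sum]
      refine Finset.sum_congr rfl fun h _ => Finset.sum_congr rfl fun h' _ => ?_
      simp only [map_mul, map_sub, Complex.conj_ofReal]; ring
    simp_rw [h1]
    have h2 : ∀ h h' : G, ∑ f ∈ S, ∑ u,
          (((ind S (u / h) : ℂ) - θ) * ((ind S (u / h') : ℂ) - θ) *
            (a (f * h / u) * conj (a (f * h' / u))))
        = ∑ v₂, (Om S θ (h' / h) v₂ : ℂ) * (a (v₂ / (h' / h)) * conj (a v₂)) := by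
      intro h h'
      rw [sum_ind]
      simp_rw [Finset.mul_sum]
      rw [Finset.sum_comm]
      unfold Om
      push_cast
      simp_rw [Finset.sum_mul]
      rw [Finset.sum_comm (f := fun v₂ g => (((ind S (g * (h' / h)) : ℂ) - θ) * ((ind S g : ℂ) - θ) *
        (ind S (g * v₂) : ℂ)) * (a (v₂ / (h' / h)) * conj (a v₂)))]
      rw [← Equiv.sum_comp (Equiv.mulRight h')]
      refine Finset.sum_congr rfl fun g _ => ?_
      rw [← Equiv.sum_comp (Equiv.mulLeft g)]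
      refine Finset.sum_congr rfl fun v _ => ?_
      simp only [Equiv.coe_mulRight, Equiv.coe_mulLeft]
      have e1 : g * h' / h = g * (h' / h) := by rw [mul_div_assoc]
      have e2 : g * h' / h' = g := by simp
      have e3 : g * v * h / (g * h') = v / (h' / h) := by
        simp only [div_eq_mul_inv, mul_inv_rev, inv_inv]
        have : g * v * h * (h'⁻¹ * g⁻¹) = (g * g⁻¹) * (v * (h * h'⁻¹)) := by ac_rfl
        rw [this]; simp
      have e4 : g * v * h' / (g * h') = v := by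
        rw [div_eq_iff_eq_mul]; ac_rfl
      rw [e1, e2, e3, e4]; ring
    simp_rw [← h2, Finset.mul_sum]
    calc _ = ∑ f ∈ S, ∑ h ∈ S, ∑ h' ∈ S, ∑ u, b h * conj (b h') *
          (((ind S (u / h) : ℂ) - θ) * ((ind S (u / h') : ℂ) - θ) *
            (a (f * h / u) * conj (a (f * h' / u)))) := by
          refine Finset.sum_congr rfl fun f _ => ?_
          rw [Finset.sum_comm]
          refine Finset.sum_congr rfl fun h _ => ?_
          rw [Finset.sum_comm]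
      _ = _ := by
          rw [Finset.sum_comm]
          refine Finset.sum_congr rfl fun h _ => ?_
          rw [Finset.sum_comm]
  have h0 : (0 : ℝ) ≤ ∑ f ∈ S, ∑ u,
      ‖∑ h ∈ S, b h * (((ind S (u / h) - θ : ℝ) : ℂ) * a (f * h / u))‖ ^ 2 := by positivity
  rw [← Real.norm_of_nonneg h0, ← Complex.norm_real, key]
  refine (norm_sum_le _ _).trans (Finset.sum_le_sum fun h _ => ?_)
  refine (norm_sum_le _ _).trans (Finset.sum_le_sum fun h' _ => ?_)
  rw [norm_mul, norm_mul, Complex.norm_conj]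
  have h3 : ‖∑ v₂, (Om S θ (h' / h) v₂ : ℂ) * (a (v₂ / (h' / h)) * conj (a v₂))‖
      ≤ ∑ v₂, |Om S θ (h' / h) v₂| * (‖a (v₂ / (h' / h))‖ * ‖a v₂‖) := by
    refine (norm_sum_le _ _).trans (le_of_eq ?_)
    simp [norm_mul]
  have h4 : ‖b h‖ * ‖b h'‖ ≤ 1 := mul_le_one₀ (hb h) (norm_nonneg _) (hb h')
  calc _ ≤ 1 * ∑ v₂, |Om S θ (h' / h) v₂| * (‖a (v₂ / (h' / h))‖ * ‖a v₂‖) := by gcongr
    _ = _ := one_mul _

/-- The Hilbert-Schmidt sum over `W` is bounded through the majorant `|D|^2 / V^2`. -/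
lemma hs_bound (he : CharSys e) (S : Finset G) (θ : ℝ) (b a : G → ℂ) (hb : ∀ g, ‖b g‖ ≤ 1)
    (W : Finset X) (V : ℝ) (hV0 : 0 ≤ V) (hV : ∀ χ ∈ W, V ≤ ‖∑ f ∈ S, b f * e χ f‖) :
    V ^ 2 * ∑ f ∈ S, ∑ χ ∈ W, ‖∑ g, ((ind S g - θ : ℝ) : ℂ) * e χ g * a (f / g)‖ ^ 2
      ≤ (Fintype.card G : ℝ) * ∑ h ∈ S, ∑ h' ∈ S, ∑ v₂,
        |Om S θ (h' / h) v₂| * (‖a (v₂ / (h' / h))‖ * ‖a v₂‖) := by
  refine le_trans ?_ (mul_le_mul_of_nonneg_left (hs_expand S θ b a hb) (Nat.cast_nonneg _))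
  rw [Finset.mul_sum, Finset.mul_sum]
  refine Finset.sum_le_sum fun f _ => ?_
  rw [← parseval he]
  have h1 : ∀ χ, ∑ u, (∑ h ∈ S, b h * (((ind S (u / h) - θ : ℝ) : ℂ) * a (f * h / u))) * e χ u
      = (∑ h ∈ S, b h * e χ h) * ∑ g, ((ind S g - θ : ℝ) : ℂ) * e χ g * a (f / g) := by
    intro χ
    simp_rw [Finset.sum_mul]
    rw [Finset.sum_comm]
    refine Finset.sum_congr rfl fun h _ => ?_
    rw [Finset.mul_sum, ← Equiv.sum_comp (Equiv.mulRight h)]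
    refine Finset.sum_congr rfl fun g _ => ?_
    simp only [Equiv.coe_mulRight]
    have e1 : g * h / h = g := by simp
    have e2 : f * h / (g * h) = f / g := by simp
    rw [e1, e2, he.mul]; ring
  simp_rw [h1]
  calc V ^ 2 * ∑ χ ∈ W, ‖∑ g, ((ind S g - θ : ℝ) : ℂ) * e χ g * a (f / g)‖ ^ 2
      ≤ ∑ χ ∈ W, ‖(∑ h ∈ S, b h * e χ h) *
          ∑ g, ((ind S g - θ : ℝ) : ℂ) * e χ g * a (f / g)‖ ^ 2 := by
        rw [Finset.mul_sum]
        refine Finset.sum_le_sum fun χ hχ => ?_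
        rw [norm_mul, mul_pow]
        have := hV χ hχ
        gcongr
    _ ≤ _ := Finset.sum_le_sum_of_subset_of_nonneg (Finset.subset_univ _)
        (fun _ _ _ => by positivity)

lemma arith (R N T V B x a₁ δ HS Y θ : ℝ) (hRpos : 0 < R) (hN0 : 0 ≤ N) (hx0 : 0 < x)
    (hHS0 : 0 ≤ HS) (ha₁0 : 0 ≤ a₁) (hx : x = a₁ - N * R) (hxs : N * R < x)
    (hθ0 : 0 ≤ θ) (hV0 : 0 < V) (hV8 : 8 * N ≤ V ^ 2)
    (step1 : (R * V) ^ 2 ≤ N * a₁) (step2 : x ^ 2 ≤ δ * R)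
    (step3 : (δ + N * x - (1 - θ) * R * a₁) ^ 2 ≤ a₁ * Y)
    (step4 : Y ≤ R * HS) (step5 : V ^ 2 * HS ≤ T * B) :
    R ^ 3 * V ^ 8 ≤ 64 * T * N ^ 3 * B := by
  have ha2 : a₁ ≤ 2 * x := by linarith
  have h9 : (R * V) ^ 2 ≤ 2 * N * x := by nlinarith
  have hNpos : 0 < N := by
    rcases hN0.eq_or_lt with h | h
    · rw [← h] at h9
      have : 0 < (R * V) ^ 2 := by positivity
      linarith
    · exact h
  have hx4 : 4 * R ^ 2 ≤ x := by
    have h1 : 2 * N * (4 * R ^ 2) ≤ 2 * N * x := by nlinarith [sq_nonneg R]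
    exact le_of_mul_le_mul_left h1 (by positivity)
  set y := δ + N * x - (1 - θ) * R * a₁ with hy
  have hy1 : x ^ 2 ≤ 2 * R * y := by
    have h1 : (1 - θ) * R * a₁ ≤ R * (2 * x) := by
      have : 0 ≤ θ * (R * a₁) := by positivity
      nlinarith
    have h2 : 0 ≤ R * (N * x) := by positivity
    have h3 : 4 * R ^ 2 * x ≤ x * x := by gcongr
    have h4 : R * ((1 - θ) * R * a₁) ≤ R * (R * (2 * x)) := by gcongr
    rw [hy]; nlinarith
  have h6 : y ^ 2 ≤ 2 * x * (R * HS) := by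
    calc y ^ 2 ≤ a₁ * Y := step3
      _ ≤ a₁ * (R * HS) := by gcongr
      _ ≤ 2 * x * (R * HS) := by gcongr
  have h7 : x ^ 3 ≤ 8 * R ^ 3 * HS := by
    have h8 : x * x ^ 3 ≤ x * (8 * R ^ 3 * HS) := by
      calc x * x ^ 3 = (x ^ 2) ^ 2 := by ring
        _ ≤ (2 * R * y) ^ 2 := by gcongr
        _ = y ^ 2 * (4 * R ^ 2) := by ring
        _ ≤ 2 * x * (R * HS) * (4 * R ^ 2) := by gcongr
        _ = _ := by ring
    exact le_of_mul_le_mul_left h8 hx0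
  have h10 : R ^ 3 * (R ^ 3 * V ^ 8) ≤ R ^ 3 * (64 * T * N ^ 3 * B) := by
    calc R ^ 3 * (R ^ 3 * V ^ 8) = ((R * V) ^ 2) ^ 3 * V ^ 2 := by ring
      _ ≤ (2 * N * x) ^ 3 * V ^ 2 := by gcongr
      _ = 8 * N ^ 3 * x ^ 3 * V ^ 2 := by ring
      _ ≤ 8 * N ^ 3 * (8 * R ^ 3 * HS) * V ^ 2 := by gcongr
      _ = 64 * N ^ 3 * R ^ 3 * (V ^ 2 * HS) := by ring
      _ ≤ 64 * N ^ 3 * R ^ 3 * (T * B) := by gcongr
      _ = _ := by ring
  exact le_of_mul_le_mul_left h10 (by positivity)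

/-- The sum of the characters of `W`, with the value at `1` removed. -/
noncomputable def What (e : X → G → ℂ) (W : Finset X) (v : G) : ℂ :=
  if v = 1 then 0 else ∑ χ ∈ W, e χ v

/-- The cubic trace inequality. -/
theorem cubic (he : CharSys e) (S : Finset G) (θ : ℝ) (hθ0 : 0 ≤ θ)
    (hθ : θ * (Fintype.card G : ℝ) = S.card) (b : G → ℂ) (hb : ∀ g, ‖b g‖ ≤ 1)
    (W : Finset X) (V : ℝ) (hV0 : 0 < V) (hV8 : 8 * (S.card : ℝ) ≤ V ^ 2)
    (hV : ∀ χ ∈ W, V ≤ ‖∑ f ∈ S, b f * e χ f‖) (B : ℝ)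
    (hB : ∑ h ∈ S, ∑ h' ∈ S, ∑ v₂, |Om S θ (h' / h) v₂| *
      (‖What e W (v₂ / (h' / h))‖ * ‖What e W v₂‖) ≤ B) :
    (W.card : ℝ) * V ^ 2 ≤ 2 * (S.card : ℝ) ^ 2 ∨
      (W.card : ℝ) ^ 3 * V ^ 8 ≤ 64 * (Fintype.card G : ℝ) * (S.card : ℝ) ^ 3 * B := by
  set R : ℝ := (W.card : ℝ) with hR
  set N : ℝ := (S.card : ℝ) with hN
  set T : ℝ := (Fintype.card G : ℝ) with hT
  have hR0 : 0 ≤ R := Nat.cast_nonneg _
  have hN0 : 0 ≤ N := Nat.cast_nonneg _
  have hT0 : 0 ≤ T := Nat.cast_nonneg _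
  rcases hR0.eq_or_lt with hRz | hRpos
  · left; rw [← hRz]; simp only [zero_mul]; positivity
  set D : X → ℂ := fun χ => ∑ f ∈ S, b f * e χ f with hD
  have hDpos : ∀ χ ∈ W, 0 < ‖D χ‖ := fun χ hχ => hV0.trans_le (hV χ hχ)
  set c : X → ℂ := fun χ => conj (D χ) / (‖D χ‖ : ℂ) with hc
  have hc1 : ∀ χ ∈ W, ‖c χ‖ = 1 := by
    intro χ hχ
    have := hDpos χ hχ
    simp only [hc, norm_div, Complex.norm_conj, Complex.norm_real, norm_norm]
    exact div_self this.ne'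
  have hc2 : ∀ χ ∈ W, c χ * D χ = (‖D χ‖ : ℂ) := by
    intro χ hχ
    have h0 : (‖D χ‖ : ℂ) ≠ 0 := by exact_mod_cast (hDpos χ hχ).ne'
    have := mul_conj' (D χ)
    push_cast at this
    simp only [hc]
    field_simp
    rw [← this]; ring
  have hcsum : ∑ χ ∈ W, ‖c χ‖ ^ 2 = R := by
    rw [Finset.sum_congr rfl (fun χ hχ => by rw [hc1 χ hχ])]; simp [hR]
  set ch : G → ℂ := fun g => ∑ χ ∈ W, c χ * e χ g with hch
  set a₁ : ℝ := ∑ f ∈ S, ‖ch f‖ ^ 2 with ha₁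
  have ha₁0 : 0 ≤ a₁ := Finset.sum_nonneg fun _ _ => sq_nonneg _
  have step1 : (R * V) ^ 2 ≤ N * a₁ := by
    have h1 : R * V ≤ ∑ χ ∈ W, ‖D χ‖ := by
      have := Finset.card_nsmul_le_sum W (fun χ => ‖D χ‖) V hV
      simpa [hR] using this
    have h2 : ((∑ χ ∈ W, ‖D χ‖ : ℝ) : ℂ) = ∑ f ∈ S, b f * ch f := by
      push_cast
      rw [← Finset.sum_congr rfl hc2]
      simp only [hD, hch, Finset.mul_sum]
      rw [Finset.sum_comm]
      refine Finset.sum_congr rfl fun f _ => Finset.sum_congr rfl fun χ _ => by ring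
    have h3 : ∑ χ ∈ W, ‖D χ‖ = ‖∑ f ∈ S, b f * ch f‖ := by
      rw [← h2, Complex.norm_real, Real.norm_of_nonneg (by positivity)]
    have h4 : ∑ f ∈ S, ‖b f‖ ^ 2 ≤ N := by
      have := Finset.sum_le_card_nsmul S (fun f => ‖b f‖ ^ 2) 1
        (fun f _ => pow_le_one₀ (norm_nonneg _) (hb f))
      simpa [hN] using this
    calc (R * V) ^ 2 ≤ ‖∑ f ∈ S, b f * ch f‖ ^ 2 := by
          rw [← h3]; gcongr
      _ ≤ (∑ f ∈ S, ‖b f‖ ^ 2) * a₁ := cs _ _ _
      _ ≤ N * a₁ := by gcongr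
  set x : ℝ := a₁ - N * R with hx
  by_cases hxs : x ≤ N * R
  · left
    have h1 : R * (R * V ^ 2) ≤ R * (2 * N ^ 2) := by nlinarith
    exact le_of_mul_le_mul_left h1 hRpos
  right
  push Not at hxs
  have hx0 : 0 < x := lt_of_le_of_lt (by positivity) hxs
  -- splitting a sum over `S` into the balanced part and the mean
  have split : ∀ F : G → ℂ, ∑ f ∈ S, F f
      = ∑ g, ((ind S g - θ : ℝ) : ℂ) * F g + (θ : ℂ) * ∑ g, F g := by
    intro F
    rw [sum_ind, Finset.mul_sum, ← Finset.sum_add_distrib]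
    refine Finset.sum_congr rfl fun g _ => by push_cast; ring
  have hθc : (θ : ℂ) * (Fintype.card G : ℂ) = (N : ℂ) := by
    have : ((θ * T : ℝ) : ℂ) = (N : ℂ) := by rw [hθ]
    simpa [hT] using this
  set d : X → ℂ := fun χ => ∑ g, ((ind S g - θ : ℝ) : ℂ) * ch g * conj (e χ g) with hd
  have pair : ∀ u : X → ℂ, ∑ g, ((ind S g - θ : ℝ) : ℂ) * (ch g * conj (∑ χ ∈ W, u χ * e χ g))
      = ∑ χ ∈ W, d χ * conj (u χ) := by
    intro u
    simp only [hd, map_sum, Finset.mul_sum, Finset.sum_mul]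
    rw [Finset.sum_comm]
    refine Finset.sum_congr rfl fun χ _ => Finset.sum_congr rfl fun g _ => ?_
    rw [map_mul]; ring
  have hxc : (x : ℂ) = ∑ χ ∈ W, d χ * conj (c χ) := by
    have h1 : (a₁ : ℂ) = ∑ f ∈ S, ch f * conj (ch f) := by
      simp only [ha₁, mul_conj']; push_cast; rfl
    have h2 : ∑ χ ∈ W, c χ * conj (c χ) = (R : ℂ) := by
      simp only [mul_conj']; rw [← hcsum]; push_cast; rfl
    rw [split, pair c, parseval_dual he, h2, ← mul_assoc, hθc] at h1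
    simp only [hx]; push_cast; rw [h1]; ring
  set δ : ℝ := ∑ χ ∈ W, ‖d χ‖ ^ 2 with hδ
  have hδ0 : 0 ≤ δ := Finset.sum_nonneg fun _ _ => sq_nonneg _
  have step2 : x ^ 2 ≤ δ * R := by
    have := cs W d (fun χ => conj (c χ))
    rw [← hxc, Complex.norm_real, Real.norm_of_nonneg hx0.le] at this
    simpa only [Complex.norm_conj, hcsum] using this
  set dh : G → ℂ := fun g => ∑ χ ∈ W, d χ * e χ g with hdh
  set dz : G → ℂ := fun f => ∑ χ ∈ W, c χ *
    ∑ g, ((ind S g - θ : ℝ) : ℂ) * e χ g * What e W (f / g) with hdz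
  have hdd : ∀ f ∈ S, dh f = (((1 - θ) * R : ℝ) : ℂ) * ch f + dz f := by
    intro f hf
    have h1 : dh f = ∑ χ ∈ W, c χ *
        ∑ g, ((ind S g - θ : ℝ) : ℂ) * e χ g * (∑ χ' ∈ W, e χ' (f / g)) := by
      simp only [hdh, hd, hch, Finset.mul_sum, Finset.sum_mul]
      calc _ = ∑ g, ∑ χ' ∈ W, ∑ χ ∈ W,
            ((ind S g - θ : ℝ) : ℂ) * (c χ * e χ g) * conj (e χ' g) * e χ' f :=
            Finset.sum_comm
        _ = ∑ g, ∑ χ ∈ W, ∑ χ' ∈ W,
            ((ind S g - θ : ℝ) : ℂ) * (c χ * e χ g) * conj (e χ' g) * e χ' f :=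
            Finset.sum_congr rfl fun g _ => Finset.sum_comm
        _ = ∑ χ ∈ W, ∑ g, ∑ χ' ∈ W,
            ((ind S g - θ : ℝ) : ℂ) * (c χ * e χ g) * conj (e χ' g) * e χ' f :=
            Finset.sum_comm
        _ = _ := by
            refine Finset.sum_congr rfl fun χ _ => Finset.sum_congr rfl fun g _ =>
              Finset.sum_congr rfl fun χ' _ => ?_
            rw [div_eq_mul_inv, he.mul, he.inv]; ring
    have h2 : ∀ g, ∑ χ' ∈ W, e χ' (f / g) = (if f = g then (R : ℂ) else 0) + What e W (f / g) := by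
      intro g
      unfold What
      by_cases hg : f = g
      · simp [hg, he.one, hR]
      · simp [hg, div_eq_one]
    have h3 : ind S f = 1 := by simp [ind, hf]
    rw [h1, hdz, hch]
    simp only [h2, mul_add, Finset.sum_add_distrib, mul_ite, mul_zero, Finset.sum_ite_eq,
      Finset.mem_univ, if_true, h3]
    congr 1
    rw [Finset.mul_sum]
    refine Finset.sum_congr rfl fun χ _ => by push_cast; ring
  have step3 : (δ + N * x - (1 - θ) * R * a₁) ^ 2 ≤ a₁ * ∑ f ∈ S, ‖dz f‖ ^ 2 := by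
    have h1 : ∑ f ∈ S, ch f * conj (dh f) = ((δ + N * x : ℝ) : ℂ) := by
      have h2 : ∑ χ ∈ W, c χ * conj (d χ) = (x : ℂ) := by
        have := congrArg conj hxc
        rw [Complex.conj_ofReal, map_sum] at this
        rw [this]
        refine Finset.sum_congr rfl fun χ _ => by simp [mul_comm]
      have h3 : ∑ χ ∈ W, d χ * conj (d χ) = (δ : ℂ) := by
        simp only [hδ, mul_conj']; push_cast; rfl
      rw [split, pair d, parseval_dual he, h2, h3, ← mul_assoc, hθc]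
      push_cast; ring
    have h4 : ∑ f ∈ S, ch f * conj (dh f)
        = (((1 - θ) * R * a₁ : ℝ) : ℂ) + ∑ f ∈ S, ch f * conj (dz f) := by
      have h5 : (a₁ : ℂ) = ∑ f ∈ S, ch f * conj (ch f) := by
        simp only [ha₁, mul_conj']; push_cast; rfl
      rw [Complex.ofReal_mul, h5, Finset.mul_sum, ← Finset.sum_add_distrib]
      refine Finset.sum_congr rfl fun f hf => ?_
      rw [hdd f hf, map_add, map_mul, Complex.conj_ofReal]; ring
    have h6 : ∑ f ∈ S, ch f * conj (dz f) = ((δ + N * x - (1 - θ) * R * a₁ : ℝ) : ℂ) := by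
      rw [Complex.ofReal_sub, ← h1, h4]; ring
    have := cs S ch (fun f => conj (dz f))
    rw [h6, Complex.norm_real, Real.norm_eq_abs, sq_abs] at this
    simpa only [Complex.norm_conj] using this
  set HS : ℝ := ∑ f ∈ S, ∑ χ ∈ W,
    ‖∑ g, ((ind S g - θ : ℝ) : ℂ) * e χ g * What e W (f / g)‖ ^ 2 with hHS
  have hHS0 : 0 ≤ HS :=
    Finset.sum_nonneg fun _ _ => Finset.sum_nonneg fun _ _ => sq_nonneg _
  have step4 : ∑ f ∈ S, ‖dz f‖ ^ 2 ≤ R * HS := by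
    rw [hHS, Finset.mul_sum]
    refine Finset.sum_le_sum fun f _ => ?_
    rw [← hcsum]
    exact cs _ _ _
  have step5 : V ^ 2 * HS ≤ T * B :=
    (hs_bound he S θ b (What e W) hb W V hV0.le hV).trans (mul_le_mul_of_nonneg_left hB hT0)
  exact arith R N T V B x a₁ δ HS _ θ hRpos hN0 hx0 hHS0 ha₁0 hx hxs hθ0 hV0 hV8 step1 step2
    step3 step4 step5

end Pool.Agent.MP_2a1f0e_nt.FF
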