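import Mathlib
import Pool.Agent.MP_2a1f0e_nt.FFGroup

/-!
The triple correlations for the hyperplane section of the principal units of a finite
Gorenstein local algebra.
-/

open Finset ComplexConjugate

namespace Pool.Agent.MP_2a1f0e_nt.FF

/-- A finite local algebra with residue map `ε`, socle generator `σ`, dualising functional `z`
and group of principal units `ι : G →* A`. -/
structure Gor {F A G : Type} [Field F] [CommRing A] [Algebra F A] [CommGroup G]
    (ε : A →ₐ[F] F) (z : A →ₗ[F] F) (σ : A) (ι : G →* A) : Prop where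
  inj : Function.Injective ι
  eps : ∀ g, ε (ι g) = 1
  surj : ∀ a, ε a = 1 → ∃ g, ι g = a
  mulσ : ∀ a, a * σ = ε a • σ
  epsσ : ε σ = 0
  zσ : z σ = 1
  nondeg : ∀ y, (∀ m, ε m = 0 → z (m * y) = 0) → ∃ s : F, y = s • σ

variable {F A G : Type} [Field F] [Fintype F] [DecidableEq F] [CommRing A] [Algebra F A]
  [DecidableEq A] [CommGroup G] [Fintype G] [DecidableEq G]
  {ε : A →ₐ[F] F} {z : A →ₗ[F] F} {σ : A} {ι : G →* A}

/-- The additive character used throughout. -/
noncomputable def psi (F : Type) [Field F] [Fintype F] : AddChar F ℂ :=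
  AddChar.FiniteField.primitiveChar_to_Complex F

lemma psi_sum (t : F) : ∑ τ : F, psi F (τ * t) = if t = 0 then (Fintype.card F : ℂ) else 0 := by
  have := AddChar.sum_mulShift t (AddChar.FiniteField.primitiveChar_to_Complex_isPrimitive F)
  unfold psi
  rw [this]; split_ifs <;> simp

lemma psi_ne (t : F) (ht : t ≠ 0) : ∃ τ : F, psi F (τ * t) ≠ 1 := by
  by_contra h
  push Not at h
  have := psi_sum t
  simp only [h, ht, if_false] at this
  simp at this

/-- The complete exponential sum over the principal units. -/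
noncomputable def E (z : A →ₗ[F] F) (ι : G →* A) (y : A) : ℂ := ∑ g : G, psi F (z (ι g * y))

lemma E_soc (h : Gor ε z σ ι) (s : F) : E z ι (s • σ) = (Fintype.card G : ℂ) * psi F s := by
  unfold E
  have : ∀ g : G, z (ι g * (s • σ)) = s := by
    intro g
    rw [mul_smul_comm, h.mulσ, h.eps, one_smul, map_smul, h.zσ, smul_eq_mul, mul_one]
  simp_rw [this]
  simp

lemma E_zero (h : Gor ε z σ ι) (y : A) (hy : ∀ s : F, y ≠ s • σ) : E z ι y = 0 := by
  have h1 : ∃ m, ε m = 0 ∧ z (m * y) ≠ 0 := by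
    by_contra hc
    push Not at hc
    obtain ⟨s, hs⟩ := h.nondeg y hc
    exact hy s hs
  obtain ⟨m, hm, hmy⟩ := h1
  obtain ⟨τ, hτ⟩ := psi_ne _ hmy
  have hsh : ∀ (t : F) (g : G), ∃ g', ι g' = ι g + t • m := by
    intro t g
    apply h.surj
    simp [h.eps, hm]
  choose sh hsh using hsh
  have hbij : Function.Bijective (sh τ) := by
    rw [← Finite.injective_iff_bijective]
    intro g g' hg
    apply h.inj
    have := congrArg ι hg
    rw [hsh, hsh] at this
    exact add_right_cancel this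
  have h2 : E z ι y = psi F (τ * z (m * y)) * E z ι y := by
    unfold E
    rw [Finset.mul_sum, ← (Equiv.ofBijective _ hbij).sum_comp]
    refine Finset.sum_congr rfl fun g _ => ?_
    simp only [Equiv.ofBijective_apply, hsh]
    rw [add_mul, map_add, smul_mul_assoc, map_smul, smul_eq_mul, AddChar.map_add_eq_mul, mul_comm]
  have h3 : (1 - psi F (τ * z (m * y))) * E z ι y = 0 := by
    rw [sub_mul, one_mul, ← h2, sub_self]
  rcases mul_eq_zero.mp h3 with h4 | h4
  · exact absurd (sub_eq_zero.mp h4).symm hτ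
  · exact h4

/-- The hyperplane section. -/
def SS (z : A →ₗ[F] F) (ι : G →* A) : Finset G := univ.filter fun g => z (ι g) = 0

lemma q_ne : (Fintype.card F : ℂ) ≠ 0 := by exact_mod_cast Fintype.card_ne_zero

lemma ind_eq (g : G) :
    (ind (SS z ι) g : ℂ) = (Fintype.card F : ℂ)⁻¹ * ∑ τ : F, psi F (τ * z (ι g)) := by
  rw [psi_sum]
  unfold ind SS
  have := q_ne (F := F)
  by_cases hg : z (ι g) = 0 <;> simp [hg, this]

lemma w_eq (g : G) :
    (ind (SS z ι) g : ℂ) - (Fintype.card F : ℂ)⁻¹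
      = (Fintype.card F : ℂ)⁻¹ * ∑ τ ∈ univ.erase (0 : F), psi F (τ * z (ι g)) := by
  rw [ind_eq, ← Finset.add_sum_erase univ _ (Finset.mem_univ (0 : F))]
  simp; ring

lemma card_SS (h : Gor ε z σ ι) :
    (Fintype.card F : ℝ)⁻¹ * (Fintype.card G : ℝ) = (SS z ι).card := by
  have h1 : ((SS z ι).card : ℂ) = ∑ g, (ind (SS z ι) g : ℂ) := by
    have := sum_ind (SS z ι) (fun _ => 1)
    simpa using this
  have h2 : ∑ g : G, ∑ τ : F, psi F (τ * z (ι g)) = Fintype.card G := by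
    rw [Finset.sum_comm]
    have h3 : ∀ τ : F, ∑ g : G, psi F (τ * z (ι g)) = E z ι (τ • 1) := by
      intro τ; unfold E; simp
    simp_rw [h3]
    rw [Finset.sum_eq_single (0 : F)]
    · have := E_soc h 0
      simpa using this
    · intro τ _ hτ
      apply E_zero h
      intro s hs
      have := congrArg ε hs
      simp [h.epsσ] at this
      exact hτ this
    · simp
  simp_rw [ind_eq, ← Finset.mul_sum, h2] at h1
  have : (((Fintype.card F : ℝ)⁻¹ * (Fintype.card G : ℝ) : ℝ) : ℂ) = (((SS z ι).card : ℝ) : ℂ) := by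
    push_cast; exact h1.symm
  exact_mod_cast this

/-- The pair correlation. -/
noncomputable def rho (S : Finset G) (v : G) : ℝ := ∑ g, ind S g * ind S (g * v)

lemma ind_nonneg (S : Finset G) (g : G) : 0 ≤ ind S g := by unfold ind; split_ifs <;> norm_num

lemma rho_nonneg (S : Finset G) (v : G) : 0 ≤ rho S v :=
  Finset.sum_nonneg fun _ _ => mul_nonneg (ind_nonneg _ _) (ind_nonneg _ _)

lemma sum_ind_real (S : Finset G) (f : G → ℝ) : ∑ g ∈ S, f g = ∑ g, ind S g * f g := by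
  have : ∀ g, ind S g * f g = if g ∈ S then f g else 0 := by
    intro g; unfold ind; split_ifs <;> simp
  simp_rw [this]
  rw [Finset.sum_ite_mem]; simp

lemma rho_one (S : Finset G) : rho S 1 = S.card := by
  unfold rho
  rw [← sum_ind_real]
  rw [Finset.sum_congr rfl (g := fun _ => (1 : ℝ)) (fun g hg => by simp [ind, hg])]
  simp

lemma sum_pairs (S : Finset G) (Φ : G → ℝ) :
    ∑ h ∈ S, ∑ h' ∈ S, Φ (h' / h) = ∑ v, rho S v * Φ v := by
  unfold rho
  simp_rw [Finset.sum_mul]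
  rw [Finset.sum_comm (f := fun v g => ind S g * ind S (g * v) * Φ v), sum_ind_real]
  refine Finset.sum_congr rfl fun h _ => ?_
  rw [sum_ind_real, Finset.mul_sum, ← Equiv.sum_comp (Equiv.mulLeft h)]
  refine Finset.sum_congr rfl fun v _ => ?_
  simp [mul_assoc]

lemma rho_soc (h : Gor ε z σ ι) (v : G) (hv : v ≠ 1) (s : F) (hs : ι v = 1 + s • σ) :
    rho (SS z ι) v = 0 := by
  have hs0 : s ≠ 0 := by
    rintro rfl
    apply hv; apply h.inj; simpa using hs
  unfold rho
  refine Finset.sum_eq_zero fun g _ => ?_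
  have : z (ι (g * v)) = z (ι g) + s := by
    rw [map_mul, hs, mul_add, mul_one, map_add, mul_smul_comm, h.mulσ, h.eps, one_smul, map_smul,
      h.zσ, smul_eq_mul, mul_one]
  unfold ind SS
  by_cases hg : z (ι g) = 0
  · simp only [Finset.mem_filter, Finset.mem_univ, true_and, this, hg, zero_add, hs0]
    simp
  · simp [hg]

lemma gen_zero (h : Gor ε z σ ι) (v : G) (hv : ∀ s : F, ι v ≠ 1 + s • σ) (τ₁ τ₃ : F)
    (hτ : τ₁ ≠ 0 ∨ τ₃ ≠ 0) : E z ι (τ₁ • ι v + τ₃ • 1) = 0 := by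
  apply E_zero h
  intro s hs
  have h1 := congrArg ε hs
  simp [h.eps, h.epsσ] at h1
  have h2 : τ₃ = -τ₁ := by linear_combination h1
  have h3 : τ₁ ≠ 0 := by
    rcases hτ with h3 | h3
    · exact h3
    · rintro rfl; simp at h2; exact h3 h2
  apply hv (τ₁⁻¹ * s)
  rw [mul_smul, ← hs, h2, smul_add, smul_smul, smul_smul, inv_mul_cancel₀ h3, mul_neg,
    inv_mul_cancel₀ h3]
  simp

lemma rho_gen (h : Gor ε z σ ι) (v : G) (hv : ∀ s : F, ι v ≠ 1 + s • σ) :
    rho (SS z ι) v = (Fintype.card F : ℝ)⁻¹ ^ 2 * (Fintype.card G : ℝ) := by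
  have h1 : (rho (SS z ι) v : ℂ) = (Fintype.card F : ℂ)⁻¹ ^ 2 *
      ∑ τ₃ : F, ∑ τ₁ : F, E z ι (τ₁ • ι v + τ₃ • 1) := by
    unfold rho E
    push_cast
    simp_rw [ind_eq]
    rw [Finset.sum_congr rfl (fun τ₃ _ => Finset.sum_comm), Finset.sum_comm, Finset.mul_sum]
    refine Finset.sum_congr rfl fun g _ => ?_
    rw [mul_mul_mul_comm, Finset.sum_mul_sum, ← sq]
    congr 1
    refine Finset.sum_congr rfl fun τ₃ _ => Finset.sum_congr rfl fun τ₁ _ => ?_
    rw [← AddChar.map_add_eq_mul]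
    congr 1
    simp [mul_add, add_comm]
  have h2 : ∑ τ₃ : F, ∑ τ₁ : F, E z ι (τ₁ • ι v + τ₃ • 1) = Fintype.card G := by
    rw [Finset.sum_eq_single (0 : F), Finset.sum_eq_single (0 : F)]
    · have := E_soc h 0
      simpa using this
    · intro τ _ hτ; exact gen_zero h v hv _ _ (Or.inl hτ)
    · simp
    · intro τ _ hτ
      exact Finset.sum_eq_zero fun τ₁ _ => gen_zero h v hv _ _ (Or.inr hτ)
    · simp
  rw [h2] at h1
  have : (rho (SS z ι) v : ℂ) = (((Fintype.card F : ℝ)⁻¹ ^ 2 * (Fintype.card G : ℝ) : ℝ) : ℂ) := by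
    push_cast; exact h1
  exact_mod_cast this

lemma rho_le (h : Gor ε z σ ι) (v : G) (hv : v ≠ 1) :
    rho (SS z ι) v ≤ (Fintype.card F : ℝ)⁻¹ ^ 2 * (Fintype.card G : ℝ) := by
  by_cases hg : ∀ s : F, ι v ≠ 1 + s • σ
  · exact (rho_gen h v hg).le
  · push Not at hg
    obtain ⟨s, hs⟩ := hg
    rw [rho_soc h v hv s hs]; positivity

/-- The weight `q` at `0` and `1` elsewhere. -/
noncomputable def kap (s : F) : ℝ := if s = 0 then (Fintype.card F : ℝ) else 1

lemma kap_nonneg (s : F) : 0 ≤ kap s := by unfold kap; split_ifs <;> positivity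

lemma sum_kap : ∑ s : F, kap s ≤ 2 * (Fintype.card F : ℝ) := by
  have : ∀ s : F, kap s ≤ (if s = 0 then (Fintype.card F : ℝ) else 0) + 1 := by
    intro s; unfold kap; split_ifs <;> simp
  refine (Finset.sum_le_sum fun s _ => this s).trans ?_
  rw [Finset.sum_add_distrib]; simp; linarith

lemma H_bound (h : Gor ε z σ ι) (y : A) :
    ‖∑ τ ∈ univ.erase (0 : F), E z ι (τ • y)‖
      ≤ (Fintype.card G : ℝ) * ∑ s : F, if y = s • σ then kap s else 0 := by
  by_cases hy : ∀ s : F, y ≠ s • σ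
  · rw [Finset.sum_eq_zero]
    · simp only [norm_zero]
      exact mul_nonneg (Nat.cast_nonneg _)
        (Finset.sum_nonneg fun s _ => by split_ifs; exacts [kap_nonneg _, le_rfl])
    · intro τ hτ
      have hτ0 : τ ≠ 0 := (Finset.mem_erase.mp hτ).1
      apply E_zero h
      intro s hs
      apply hy (τ⁻¹ * s)
      rw [mul_smul, ← hs, smul_smul, inv_mul_cancel₀ hτ0, one_smul]
  · push Not at hy
    obtain ⟨s, rfl⟩ := hy
    have h1 : ∑ τ ∈ univ.erase (0 : F), E z ι (τ • s • σ)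
        = (Fintype.card G : ℂ) * ((if s = 0 then (Fintype.card F : ℂ) else 0) - 1) := by
      simp_rw [smul_smul, E_soc h]
      rw [← Finset.mul_sum, ← psi_sum, ← Finset.add_sum_erase univ _ (Finset.mem_univ (0 : F))]
      simp
    have h2 : ‖(if s = 0 then (Fintype.card F : ℂ) else 0) - 1‖ ≤ kap s := by
      unfold kap
      split_ifs
      · have h3 : ((Fintype.card F : ℂ) - 1) = (((Fintype.card F : ℝ) - 1 : ℝ) : ℂ) := by
          push_cast; rfl
        have h4 : (1 : ℝ) ≤ Fintype.card F := by exact_mod_cast Fintype.card_pos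
        rw [h3, Complex.norm_real, Real.norm_of_nonneg (by linarith)]; linarith
      · simp
    rw [h1, norm_mul, Complex.norm_natCast]
    gcongr
    refine h2.trans ?_
    have := Finset.single_le_sum (f := fun s' : F => if s • σ = s' • σ then kap s' else 0)
      (fun s' _ => by split_ifs; exacts [kap_nonneg _, le_rfl]) (Finset.mem_univ s)
    simpa using this

lemma sum_erase_mul (c : F) (hc : c ≠ 0) (f : F → ℂ) :
    ∑ τ ∈ univ.erase (0 : F), f τ = ∑ l ∈ univ.erase (0 : F), f (l * c) := by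
  symm
  refine Finset.sum_nbij' (fun l => l * c) (fun τ => τ * c⁻¹) ?_ ?_ ?_ ?_ ?_
  · intro a ha; simp at ha ⊢; exact ⟨ha, hc⟩
  · intro a ha; simp at ha ⊢; exact ⟨ha, hc⟩
  · intro a _; simp [hc]
  · intro a _; simp [hc]
  · intro a _; rfl

lemma Om_gen (h : Gor ε z σ ι) (v₁ v₂ : G) (hv : ∀ s : F, ι v₁ ≠ 1 + s • σ) :
    |Om (SS z ι) (Fintype.card F : ℝ)⁻¹ v₁ v₂|
      ≤ (Fintype.card F : ℝ)⁻¹ ^ 3 * (Fintype.card G : ℝ) *
        ∑ l ∈ univ.erase (0 : F), ∑ μ ∈ univ.erase (0 : F), ∑ s : F,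
          if ι v₂ = l • ι v₁ + μ • 1 + s • σ then kap s else 0 := by
  have h1 : (Om (SS z ι) (Fintype.card F : ℝ)⁻¹ v₁ v₂ : ℂ) = (Fintype.card F : ℂ)⁻¹ ^ 3 *
      ∑ τ₂ : F, ∑ τ₁ ∈ univ.erase (0 : F), ∑ τ₃ ∈ univ.erase (0 : F),
        E z ι (τ₁ • ι v₁ + τ₃ • 1 + τ₂ • ι v₂) := by
    unfold Om E
    push_cast
    simp_rw [w_eq]
    simp_rw [ind_eq]
    have h2 : ∑ τ₂ : F, ∑ τ₁ ∈ univ.erase (0 : F), ∑ τ₃ ∈ univ.erase (0 : F), ∑ g : G,
          psi F (z (ι g * (τ₁ • ι v₁ + τ₃ • 1 + τ₂ • ι v₂)))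
        = ∑ g : G, ∑ τ₁ ∈ univ.erase (0 : F), ∑ τ₃ ∈ univ.erase (0 : F), ∑ τ₂ : F,
          psi F (z (ι g * (τ₁ • ι v₁ + τ₃ • 1 + τ₂ • ι v₂))) := by
      rw [Finset.sum_comm]
      rw [Finset.sum_congr rfl (fun τ₁ _ => Finset.sum_comm)]
      rw [Finset.sum_congr rfl (fun τ₁ _ => Finset.sum_congr rfl (fun τ₃ _ => Finset.sum_comm))]
      rw [Finset.sum_congr rfl (fun τ₁ _ => Finset.sum_comm)]
      rw [Finset.sum_comm]
    rw [h2, Finset.mul_sum]
    refine Finset.sum_congr rfl fun g _ => ?_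
    have h3 : ∀ a b c k : ℂ, k * a * (k * b) * (k * c) = k ^ 3 * (a * b * c) := by
      intros; ring
    rw [h3, Finset.sum_mul_sum]
    congr 1
    rw [Finset.sum_mul]
    refine Finset.sum_congr rfl fun τ₁ _ => ?_
    rw [Finset.sum_mul]
    refine Finset.sum_congr rfl fun τ₃ _ => ?_
    rw [Finset.mul_sum]
    refine Finset.sum_congr rfl fun τ₂ _ => ?_
    rw [← AddChar.map_add_eq_mul, ← AddChar.map_add_eq_mul]
    congr 1
    simp [mul_add]
  have h4 : ∑ τ₂ : F, ∑ τ₁ ∈ univ.erase (0 : F), ∑ τ₃ ∈ univ.erase (0 : F),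
        E z ι (τ₁ • ι v₁ + τ₃ • 1 + τ₂ • ι v₂)
      = ∑ l ∈ univ.erase (0 : F), ∑ μ ∈ univ.erase (0 : F), ∑ τ ∈ univ.erase (0 : F),
        E z ι (τ • (ι v₂ - l • ι v₁ - μ • 1)) := by
    rw [← Finset.add_sum_erase univ _ (Finset.mem_univ (0 : F))]
    have h5 : ∑ τ₁ ∈ univ.erase (0 : F), ∑ τ₃ ∈ univ.erase (0 : F),
        E z ι (τ₁ • ι v₁ + τ₃ • 1 + (0 : F) • ι v₂) = 0 := by
      refine Finset.sum_eq_zero fun τ₁ h₁ => Finset.sum_eq_zero fun τ₃ _ => ?_
      rw [zero_smul, add_zero]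
      exact gen_zero h v₁ hv _ _ (Or.inl (Finset.mem_erase.mp h₁).1)
    rw [h5, zero_add]
    symm
    rw [Finset.sum_congr rfl (fun l _ => Finset.sum_comm), Finset.sum_comm]
    symm
    refine Finset.sum_congr rfl fun τ hτ => ?_
    have hτ0 : -τ ≠ 0 := neg_ne_zero.mpr (Finset.mem_erase.mp hτ).1
    rw [sum_erase_mul (-τ) hτ0]
    refine Finset.sum_congr rfl fun l _ => ?_
    rw [sum_erase_mul (-τ) hτ0]
    refine Finset.sum_congr rfl fun μ _ => ?_
    congr 1
    module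
  rw [← Real.norm_eq_abs, ← Complex.norm_real, h1, h4, norm_mul, mul_assoc]
  simp only [norm_pow, norm_inv, Complex.norm_natCast]
  gcongr
  rw [Finset.mul_sum]
  refine (norm_sum_le _ _).trans (Finset.sum_le_sum fun l _ => ?_)
  rw [Finset.mul_sum]
  refine (norm_sum_le _ _).trans (Finset.sum_le_sum fun μ _ => ?_)
  refine (H_bound h _).trans (le_of_eq ?_)
  congr 1
  refine Finset.sum_congr rfl fun s _ => ?_
  congr 1
  apply propext
  constructor
  · intro h6; rw [← h6]; abel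
  · intro h6; rw [h6]; abel

lemma sum_sq_inj (P : Finset (G × G)) (π : G × G → G) (hπ : Set.InjOn π P) (α : G → ℝ) :
    ∑ p ∈ P, α (π p) ^ 2 ≤ ∑ v, α v ^ 2 := by
  rw [← Finset.sum_image (f := fun v => α v ^ 2) hπ]
  exact Finset.sum_le_sum_of_subset_of_nonneg (Finset.subset_univ _) fun _ _ _ => sq_nonneg _

lemma J_bound (h : Gor ε z σ ι) (l μ s : F) (hl : l ≠ 0) (hμ : μ ≠ 0) (α : G → ℝ) :
    ∑ v₁ : G, ∑ v₂ : G, (if ι v₂ = l • ι v₁ + μ • 1 + s • σ then α (v₂ / v₁) * α v₂ else 0)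
      ≤ if μ = 1 - l then ∑ v, α v ^ 2 else 0 := by
  split_ifs with hlμ
  · rw [← Finset.sum_product', ← Finset.sum_filter]
    set P := (univ ×ˢ univ : Finset (G × G)).filter
      (fun p => ι p.2 = l • ι p.1 + μ • 1 + s • σ) with hP
    have i1 : Set.InjOn (fun p : G × G => p.2) P := by
      intro p hp p' hp' hpp
      simp only [hP, Finset.coe_filter, Set.mem_setOf_eq] at hp hp' hpp
      have h1 : l • ι p.1 = l • ι p'.1 := by
        have := hp.2.symm.trans ((congrArg ι hpp).trans hp'.2)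
        exact add_right_cancel (add_right_cancel this)
      exact Prod.ext (h.inj (smul_right_injective A hl h1)) hpp
    have i2 : Set.InjOn (fun p : G × G => p.2 / p.1) P := by
      have key : ∀ p : G × G, ι p.2 = l • ι p.1 + μ • 1 + s • σ →
          ι (p.2 / p.1) = l • 1 + μ • ι p.1⁻¹ + s • σ := by
        intro p hp
        rw [div_eq_mul_inv, map_mul, hp, add_mul, add_mul, smul_mul_assoc, smul_mul_assoc,
          smul_mul_assoc, ← map_mul, mul_inv_cancel, map_one, one_mul, mul_comm σ, h.mulσ, h.eps,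
          one_smul]
      intro p hp p' hp' hpp
      simp only [hP, Finset.coe_filter, Set.mem_setOf_eq] at hp hp' hpp
      have h1 : μ • ι p.1⁻¹ = μ • ι p'.1⁻¹ := by
        have := (key p hp.2).symm.trans ((congrArg ι hpp).trans (key p' hp'.2))
        exact add_left_cancel (add_right_cancel this)
      have h2 : p.1 = p'.1 := inv_injective (h.inj (smul_right_injective A hμ h1))
      refine Prod.ext h2 ?_
      rw [h2] at hpp
      exact div_left_injective hpp
    have j1 := sum_sq_inj P _ i1 α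
    have j2 := sum_sq_inj P _ i2 α
    have j3 : ∑ p ∈ P, α (p.2 / p.1) * α p.2
        ≤ ∑ p ∈ P, (α (p.2 / p.1) ^ 2 + α p.2 ^ 2) / 2 :=
      Finset.sum_le_sum fun p _ => by nlinarith [sq_nonneg (α (p.2 / p.1) - α p.2)]
    rw [← Finset.sum_div, Finset.sum_add_distrib] at j3
    linarith
  · refine le_of_eq (Finset.sum_eq_zero fun v₁ _ => Finset.sum_eq_zero fun v₂ _ => ?_)
    rw [if_neg]
    intro hc
    have := congrArg ε hc
    simp [h.eps, h.epsσ] at this
    apply hlμ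
    linear_combination -this

lemma Om_one (S : Finset G) (θ : ℝ) (h0 : 0 ≤ θ) (h1 : θ ≤ 1) (v : G) :
    |Om S θ 1 v| ≤ rho S v + θ ^ 2 * S.card := by
  have h2 : ∑ g, ind S (g * v) = S.card := by
    have := Equiv.sum_comp (Equiv.mulRight v) (ind S)
    simp only [Equiv.coe_mulRight] at this
    rw [this]; unfold ind; simp
  unfold Om rho
  rw [← h2, Finset.mul_sum, ← Finset.sum_add_distrib]
  refine (Finset.abs_sum_le_sum_abs _ _).trans (Finset.sum_le_sum fun g _ => ?_)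
  have h3 := ind_nonneg S (g * v)
  rw [mul_one, ← sq, abs_of_nonneg (by positivity), ← add_mul]
  gcongr
  unfold ind
  split_ifs <;> nlinarith

theorem corr_bound (h : Gor ε z σ ι) (α : G → ℝ) (hα : ∀ v, 0 ≤ α v) :
    ∑ g ∈ SS z ι, ∑ g' ∈ SS z ι, ∑ v₂,
        |Om (SS z ι) (Fintype.card F : ℝ)⁻¹ (g' / g) v₂| * (α (v₂ / (g' / g)) * α v₂)
      ≤ ((SS z ι).card : ℝ) ^ 2 * α 1 ^ 2
        + 4 * ((SS z ι).card : ℝ) ^ 2 * (Fintype.card F : ℝ)⁻¹ * ∑ v, α v ^ 2 := by
  have hN := card_SS h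
  set θ : ℝ := (Fintype.card F : ℝ)⁻¹ with hθ
  set N : ℝ := ((SS z ι).card : ℝ) with hN'
  set T : ℝ := (Fintype.card G : ℝ) with hT
  set L : ℝ := ∑ v, α v ^ 2 with hL
  have hq1 : (1 : ℝ) ≤ Fintype.card F := by exact_mod_cast Fintype.card_pos
  have hθ0 : 0 ≤ θ := inv_nonneg.mpr (by linarith)
  have hθ1 : θ ≤ 1 := inv_le_one_of_one_le₀ hq1
  have hθq : θ * (Fintype.card F : ℝ) = 1 := inv_mul_cancel₀ (by linarith)
  have hN0 : 0 ≤ N := Nat.cast_nonneg _
  have hT0 : 0 ≤ T := Nat.cast_nonneg _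
  have hL0 : 0 ≤ L := Finset.sum_nonneg fun _ _ => sq_nonneg _
  set Φ : G → ℝ := fun v => ∑ v₂, |Om (SS z ι) θ v v₂| * (α (v₂ / v) * α v₂) with hΦ
  have hΦ0 : ∀ v, 0 ≤ Φ v := fun v =>
    Finset.sum_nonneg fun _ _ => mul_nonneg (abs_nonneg _) (mul_nonneg (hα _) (hα _))
  rw [sum_pairs (SS z ι) Φ, ← Finset.add_sum_erase univ _ (Finset.mem_univ (1 : G)), rho_one]
  have p1 : Φ 1 ≤ N * α 1 ^ 2 + 2 * (θ * N) * L := by
    have a1 : Φ 1 ≤ ∑ v, (rho (SS z ι) v + θ ^ 2 * N) * α v ^ 2 := by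
      refine Finset.sum_le_sum fun v _ => ?_
      rw [div_one, ← sq]
      exact mul_le_mul_of_nonneg_right (Om_one _ _ hθ0 hθ1 v) (sq_nonneg _)
    have a2 : ∀ v, rho (SS z ι) v ≤ (if v = 1 then N else 0) + θ * N := by
      intro v
      split_ifs with hv
      · rw [hv, rho_one]; nlinarith [mul_nonneg hθ0 hN0]
      · have := rho_le h v hv
        rw [zero_add, ← hN, ← mul_assoc, ← sq]; exact this
    have a3 : θ ^ 2 * N ≤ θ * N := by
      apply mul_le_mul_of_nonneg_right _ hN0; nlinarith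
    calc Φ 1 ≤ ∑ v, ((if v = 1 then N else 0) + 2 * (θ * N)) * α v ^ 2 := by
          refine a1.trans (Finset.sum_le_sum fun v _ => ?_)
          apply mul_le_mul_of_nonneg_right _ (sq_nonneg _)
          linarith [a2 v]
      _ = _ := by
          simp_rw [add_mul]
          rw [Finset.sum_add_distrib, ← Finset.mul_sum]
          simp [hL]
  set Ψ : G → ℝ := fun v₁ => ∑ v₂, (θ ^ 3 * T *
        ∑ l ∈ univ.erase (0 : F), ∑ μ ∈ univ.erase (0 : F), ∑ s : F,
          if ι v₂ = l • ι v₁ + μ • 1 + s • σ then kap s else 0) * (α (v₂ / v₁) * α v₂) with hΨ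
  have hΨ0 : ∀ v, 0 ≤ Ψ v := fun v =>
    Finset.sum_nonneg fun _ _ => mul_nonneg (mul_nonneg (mul_nonneg (pow_nonneg hθ0 _) hT0)
      (Finset.sum_nonneg fun _ _ => Finset.sum_nonneg fun _ _ => Finset.sum_nonneg fun _ _ => by
        split_ifs; exacts [kap_nonneg _, le_rfl])) (mul_nonneg (hα _) (hα _))
  have p2 : ∀ v ∈ univ.erase (1 : G), rho (SS z ι) v * Φ v ≤ θ * N * Ψ v := by
    intro v hv
    have hv1 : v ≠ 1 := (Finset.mem_erase.mp hv).1
    by_cases hg : ∀ s : F, ι v ≠ 1 + s • σ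
    · rw [rho_gen h v hg, ← hθ, ← hT, sq, mul_assoc θ θ T, hN]
      apply mul_le_mul_of_nonneg_left _ (mul_nonneg hθ0 hN0)
      exact Finset.sum_le_sum fun v₂ _ =>
        mul_le_mul_of_nonneg_right (Om_gen h v v₂ hg) (mul_nonneg (hα _) (hα _))
    · push Not at hg
      obtain ⟨s, hs⟩ := hg
      rw [rho_soc h v hv1 s hs, zero_mul]
      exact mul_nonneg (mul_nonneg hθ0 hN0) (hΨ0 v)
  have p3 : ∑ v, Ψ v ≤ 2 * N * L := by
    have b1 : ∑ v, Ψ v = θ ^ 3 * T * ∑ l ∈ univ.erase (0 : F), ∑ μ ∈ univ.erase (0 : F), ∑ s : F,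
        kap s * ∑ v₁ : G, ∑ v₂ : G,
          (if ι v₂ = l • ι v₁ + μ • 1 + s • σ then α (v₂ / v₁) * α v₂ else 0) := by
      simp only [hΨ, Finset.mul_sum, Finset.sum_mul]
      symm
      rw [Finset.sum_congr rfl (fun l _ => Finset.sum_congr rfl (fun μ _ => Finset.sum_comm)),
        Finset.sum_congr rfl (fun l _ => Finset.sum_comm), Finset.sum_comm]
      refine Finset.sum_congr rfl fun v₁ _ => ?_
      rw [Finset.sum_congr rfl (fun l _ => Finset.sum_congr rfl (fun μ _ => Finset.sum_comm)),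
        Finset.sum_congr rfl (fun l _ => Finset.sum_comm), Finset.sum_comm]
      refine Finset.sum_congr rfl fun v₂ _ => Finset.sum_congr rfl fun l _ =>
        Finset.sum_congr rfl fun μ _ => Finset.sum_congr rfl fun s _ => ?_
      split_ifs <;> ring
    have b2 : ∑ l ∈ univ.erase (0 : F), ∑ μ ∈ univ.erase (0 : F), ∑ s : F,
        kap s * ∑ v₁ : G, ∑ v₂ : G,
          (if ι v₂ = l • ι v₁ + μ • 1 + s • σ then α (v₂ / v₁) * α v₂ else 0)
        ≤ (Fintype.card F : ℝ) * (2 * (Fintype.card F : ℝ) * L) := by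
      have b3 : ∀ l ∈ univ.erase (0 : F), ∑ μ ∈ univ.erase (0 : F), ∑ s : F,
          kap s * ∑ v₁ : G, ∑ v₂ : G,
            (if ι v₂ = l • ι v₁ + μ • 1 + s • σ then α (v₂ / v₁) * α v₂ else 0)
          ≤ 2 * (Fintype.card F : ℝ) * L := by
        intro l hl
        calc _ ≤ ∑ μ ∈ univ.erase (0 : F), (if μ = 1 - l then 2 * (Fintype.card F : ℝ) * L
              else 0) := by
              refine Finset.sum_le_sum fun μ hμ => ?_
              rw [← Finset.sum_congr rfl (fun s _ => rfl)]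
              calc _ ≤ ∑ s : F, kap s * (if μ = 1 - l then L else 0) :=
                    Finset.sum_le_sum fun s _ => mul_le_mul_of_nonneg_left
                      (J_bound h l μ s (Finset.mem_erase.mp hl).1 (Finset.mem_erase.mp hμ).1 α)
                      (kap_nonneg s)
                _ ≤ _ := by
                    rw [← Finset.sum_mul]
                    split_ifs
                    · exact mul_le_mul_of_nonneg_right sum_kap hL0
                    · simp
          _ ≤ _ := by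
              rw [Finset.sum_ite_eq']
              split_ifs
              · exact le_rfl
              · exact mul_nonneg (by linarith) hL0
      refine (Finset.sum_le_card_nsmul _ _ _ b3).trans ?_
      rw [nsmul_eq_mul]
      apply mul_le_mul_of_nonneg_right _ (mul_nonneg (by linarith) hL0)
      exact_mod_cast Finset.card_le_univ _
    rw [b1]
    calc _ ≤ θ ^ 3 * T * ((Fintype.card F : ℝ) * (2 * (Fintype.card F : ℝ) * L)) :=
          mul_le_mul_of_nonneg_left b2 (mul_nonneg (pow_nonneg hθ0 _) hT0)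
      _ = (θ * (Fintype.card F : ℝ)) ^ 2 * (2 * (θ * T) * L) := by ring
      _ = _ := by rw [hθq, hN]; ring
  have p4 : ∑ v ∈ univ.erase (1 : G), rho (SS z ι) v * Φ v ≤ θ * N * (2 * N * L) := by
    refine (Finset.sum_le_sum p2).trans ?_
    rw [← Finset.mul_sum]
    apply mul_le_mul_of_nonneg_left _ (mul_nonneg hθ0 hN0)
    exact (Finset.sum_le_sum_of_subset_of_nonneg (Finset.subset_univ _)
      fun v _ _ => hΨ0 v).trans p3
  have p5 : N * Φ 1 ≤ N * (N * α 1 ^ 2 + 2 * (θ * N) * L) := mul_le_mul_of_nonneg_left p1 hN0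
  calc _ ≤ N * (N * α 1 ^ 2 + 2 * (θ * N) * L) + θ * N * (2 * N * L) := add_le_add p5 p4
    _ = _ := by ring

end Pool.Agent.MP_2a1f0e_nt.FF
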