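import Mathlib
import Pool.Agent.MP_2a1f0e_nt.FFAlg

/-!
Large values estimate, dyadic summation and the moment bound on a Gorenstein local algebra.
-/

open Finset ComplexConjugate

namespace Pool.Agent.MP_2a1f0e_nt.FF

lemma pow_rpow (j : ℕ) (V t : ℝ) (hV : 0 < V) :
    ((2 : ℝ) ^ j * V) ^ t = ((2 : ℝ) ^ t) ^ j * V ^ t := by
  rw [Real.mul_rpow (by positivity) hV.le, ← Real.rpow_natCast, ← Real.rpow_natCast,
    ← Real.rpow_mul (by norm_num), ← Real.rpow_mul (by norm_num), mul_comm (j : ℝ) t]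

lemma geom_lt (r : ℝ) (h0 : 0 ≤ r) (h1 : r < 1) (J : ℕ) : ∑ j ∈ range J, r ^ j ≤ (1 - r)⁻¹ := by
  rw [← tsum_geometric_of_lt_one h0 h1]
  exact (summable_geometric_of_lt_one h0 h1).sum_le_tsum _ (fun _ _ => by positivity)

lemma geom_gt (r : ℝ) (h1 : 1 < r) (J : ℕ) : ∑ j ∈ range J, r ^ j ≤ r ^ J * (r - 1)⁻¹ := by
  rw [geom_sum_eq h1.ne', div_eq_mul_inv]
  have : 0 < (r - 1)⁻¹ := inv_pos.mpr (by linarith)
  nlinarith

/-- Dyadic summation. -/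
lemma layer {X : Type} (W : Finset X) (f : X → ℝ) (hf0 : ∀ i, 0 ≤ f i) (N V₀ a b c s M : ℝ)
    (hV₀ : 0 < V₀) (hVN : V₀ ≤ N) (hfN : ∀ i, f i ≤ N) (hs2 : 2 < s) (hs4 : s < 4)
    (ha : 0 ≤ a) (hb : 0 ≤ b) (hc : 0 ≤ c)
    (hLV : ∀ V, 0 < V →
      ((W.filter fun i => V ≤ f i).card : ℝ) ≤ a / V ^ 2 + b / V ^ 4 + c / V ^ 8)
    (hM : ∑ i ∈ W, f i ^ 2 ≤ M) :
    ∑ i ∈ W, f i ^ s ≤ V₀ ^ (s - 2) * M + (2 : ℝ) ^ s *
      (a * (2 * N) ^ (s - 2) * ((2 : ℝ) ^ (s - 2) - 1)⁻¹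
        + b * V₀ ^ (s - 4) * (1 - (2 : ℝ) ^ (s - 4))⁻¹
        + c * V₀ ^ (s - 8) * (1 - (2 : ℝ) ^ (s - 8))⁻¹) := by
  obtain ⟨n, hn1, hn2⟩ := exists_nat_pow_near (x := N / V₀) (y := (2 : ℝ))
    ((one_le_div hV₀).mpr hVN) (by norm_num)
  rw [le_div_iff₀ hV₀] at hn1
  rw [div_lt_iff₀ hV₀] at hn2
  have pt : ∀ i, f i ^ s ≤ V₀ ^ (s - 2) * f i ^ 2 + ∑ j ∈ range (n + 1),
      (if (2 : ℝ) ^ j * V₀ ≤ f i then (2 : ℝ) ^ s * ((2 : ℝ) ^ j * V₀) ^ s else 0) := by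
    intro i
    have hsum0 : ∀ j ∈ range (n + 1), 0 ≤
        (if (2 : ℝ) ^ j * V₀ ≤ f i then (2 : ℝ) ^ s * ((2 : ℝ) ^ j * V₀) ^ s else 0) := by
      intro j _; split_ifs <;> positivity
    by_cases hi : f i ≤ V₀
    · have h1 : f i ^ s = f i ^ (s - 2) * f i ^ 2 := by
        rw [← Real.rpow_natCast, ← Real.rpow_add' (hf0 i) (by push_cast; linarith)]
        congr 1; push_cast; ring
      have h2 : f i ^ (s - 2) ≤ V₀ ^ (s - 2) := Real.rpow_le_rpow (hf0 i) hi (by linarith)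
      have h3 := Finset.sum_nonneg hsum0
      rw [h1]
      nlinarith [sq_nonneg (f i)]
    · push Not at hi
      obtain ⟨j, hj1, hj2⟩ := exists_nat_pow_near (x := f i / V₀) (y := (2 : ℝ))
        ((one_le_div hV₀).mpr hi.le) (by norm_num)
      rw [le_div_iff₀ hV₀] at hj1
      rw [div_lt_iff₀ hV₀] at hj2
      have hj : j ∈ range (n + 1) := by
        rw [Finset.mem_range]
        have h1 : (2 : ℝ) ^ j * V₀ < 2 ^ (n + 1) * V₀ := (hj1.trans (hfN i)).trans_lt hn2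
        have h2 : (2 : ℝ) ^ j < 2 ^ (n + 1) := lt_of_mul_lt_mul_right h1 hV₀.le
        exact (pow_lt_pow_iff_right₀ (by norm_num)).mp h2
      have h3 := Finset.single_le_sum hsum0 hj
      rw [if_pos hj1] at h3
      have h4 : f i ^ s ≤ (2 : ℝ) ^ s * ((2 : ℝ) ^ j * V₀) ^ s := by
        rw [← Real.mul_rpow (by norm_num) (by positivity)]
        apply Real.rpow_le_rpow (hf0 i) _ (by linarith)
        rw [pow_succ] at hj2; linarith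
      have h5 : 0 ≤ V₀ ^ (s - 2) * f i ^ 2 := by positivity
      linarith
  refine (Finset.sum_le_sum fun i _ => pt i).trans ?_
  rw [Finset.sum_add_distrib, ← Finset.mul_sum, Finset.sum_comm]
  refine add_le_add (by gcongr) ?_
  have term : ∀ j ∈ range (n + 1), ∑ i ∈ W,
      (if (2 : ℝ) ^ j * V₀ ≤ f i then (2 : ℝ) ^ s * ((2 : ℝ) ^ j * V₀) ^ s else 0)
      ≤ (2 : ℝ) ^ s * (a * V₀ ^ (s - 2) * ((2 : ℝ) ^ (s - 2)) ^ j
        + b * V₀ ^ (s - 4) * ((2 : ℝ) ^ (s - 4)) ^ j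
        + c * V₀ ^ (s - 8) * ((2 : ℝ) ^ (s - 8)) ^ j) := by
    intro j _
    have hV : 0 < (2 : ℝ) ^ j * V₀ := by positivity
    rw [← Finset.sum_filter, Finset.sum_const, nsmul_eq_mul]
    have h1 := hLV _ hV
    have h2 : ∀ k : ℕ, ((2 : ℝ) ^ j * V₀) ^ s / ((2 : ℝ) ^ j * V₀) ^ k
        = V₀ ^ (s - k) * ((2 : ℝ) ^ (s - k)) ^ j := by
      intro k
      rw [← Real.rpow_natCast _ k, ← Real.rpow_sub hV, pow_rpow _ _ _ hV₀, mul_comm]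
    have e2 := h2 2
    have e4 := h2 4
    have e8 := h2 8
    push_cast at e2 e4 e8
    calc _ ≤ (a / ((2 : ℝ) ^ j * V₀) ^ 2 + b / ((2 : ℝ) ^ j * V₀) ^ 4
          + c / ((2 : ℝ) ^ j * V₀) ^ 8) * ((2 : ℝ) ^ s * ((2 : ℝ) ^ j * V₀) ^ s) := by gcongr
      _ = (2 : ℝ) ^ s * (a * (((2 : ℝ) ^ j * V₀) ^ s / ((2 : ℝ) ^ j * V₀) ^ 2)
          + b * (((2 : ℝ) ^ j * V₀) ^ s / ((2 : ℝ) ^ j * V₀) ^ 4)
          + c * (((2 : ℝ) ^ j * V₀) ^ s / ((2 : ℝ) ^ j * V₀) ^ 8)) := by ring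
      _ = _ := by rw [e2, e4, e8]; ring
  refine (Finset.sum_le_sum term).trans ?_
  rw [← Finset.mul_sum, Finset.sum_add_distrib, Finset.sum_add_distrib, ← Finset.mul_sum,
    ← Finset.mul_sum, ← Finset.mul_sum]
  have r1 : (1 : ℝ) < (2 : ℝ) ^ (s - 2) := Real.one_lt_rpow (by norm_num) (by linarith)
  have r2 : (2 : ℝ) ^ (s - 4) < 1 := Real.rpow_lt_one_of_one_lt_of_neg (by norm_num) (by linarith)
  have r3 : (2 : ℝ) ^ (s - 8) < 1 := Real.rpow_lt_one_of_one_lt_of_neg (by norm_num) (by linarith)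
  have g1 := geom_gt _ r1 (n + 1)
  have g2 := geom_lt _ (by positivity) r2 (n + 1)
  have g3 := geom_lt _ (by positivity) r3 (n + 1)
  have g4 : V₀ ^ (s - 2) * ((2 : ℝ) ^ (s - 2)) ^ (n + 1) ≤ (2 * N) ^ (s - 2) := by
    rw [mul_comm, ← pow_rpow _ _ _ hV₀]
    apply Real.rpow_le_rpow (by positivity) _ (by linarith)
    rw [pow_succ]; linarith
  have g5 : 0 < ((2 : ℝ) ^ (s - 2) - 1)⁻¹ := inv_pos.mpr (by linarith)
  have g6 : a * V₀ ^ (s - 2) * ∑ j ∈ range (n + 1), ((2 : ℝ) ^ (s - 2)) ^ j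
      ≤ a * (2 * N) ^ (s - 2) * ((2 : ℝ) ^ (s - 2) - 1)⁻¹ := by
    calc _ ≤ a * V₀ ^ (s - 2) * (((2 : ℝ) ^ (s - 2)) ^ (n + 1) * ((2 : ℝ) ^ (s - 2) - 1)⁻¹) := by
          gcongr
      _ = a * (V₀ ^ (s - 2) * ((2 : ℝ) ^ (s - 2)) ^ (n + 1)) * ((2 : ℝ) ^ (s - 2) - 1)⁻¹ := by
          ring
      _ ≤ _ := by gcongr
  gcongr

variable {F A G X : Type} [Field F] [Fintype F] [DecidableEq F] [CommRing A] [Algebra F A]
  [DecidableEq A] [CommGroup G] [Fintype G] [DecidableEq G] [Fintype X] [DecidableEq X]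
  {ε : A →ₐ[F] F} {z : A →ₗ[F] F} {σ : A} {ι : G →* A} {e : X → G → ℂ}

lemma e_norm (he : CharSys e) (χ : X) (g : G) : ‖e χ g‖ ≤ 1 := by
  have h1 : ‖e χ 1‖ ≤ 1 := by
    have h2 := he.mul χ 1 1
    rw [mul_one] at h2
    have h3 := congrArg norm h2
    rw [norm_mul] at h3
    nlinarith [norm_nonneg (e χ 1)]
  have h4 := he.mul χ g g⁻¹
  rw [mul_inv_cancel, he.inv] at h4
  have h5 := congrArg norm h4
  rw [norm_mul, Complex.norm_conj] at h5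
  nlinarith [norm_nonneg (e χ g)]

/-- The mean value theorem. -/
lemma mvt (he : CharSys e) (S : Finset G) (b : G → ℂ) (hb : ∀ g, ‖b g‖ ≤ 1) :
    ∑ χ, ‖∑ f ∈ S, b f * e χ f‖ ^ 2 ≤ (Fintype.card G : ℝ) * S.card := by
  have h1 := parseval he (fun g => (ind S g : ℂ) * b g)
  have h2 : ∀ χ, ‖∑ f ∈ S, b f * e χ f‖ = ‖∑ g, (ind S g : ℂ) * b g * e χ g‖ := by
    intro χ; rw [sum_ind]; simp only [mul_assoc]
  simp_rw [h2]
  rw [h1]
  gcongr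
  have h3 : (S.card : ℝ) = ∑ g, ind S g := by unfold ind; simp
  rw [h3]
  refine Finset.sum_le_sum fun g _ => ?_
  unfold ind
  split_ifs
  · simpa using hb g
  · simp

/-- The large values estimate. -/
theorem large_values (h : Gor ε z σ ι) (he : CharSys e)
    (hTN : (Fintype.card G : ℝ) ≤ ((SS z ι).card : ℝ) ^ 2) (b : G → ℂ) (hb : ∀ g, ‖b g‖ ≤ 1)
    (W : Finset X) (V : ℝ) (hV0 : 0 < V) (hV : ∀ χ ∈ W, V ≤ ‖∑ f ∈ SS z ι, b f * e χ f‖) :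
    (W.card : ℝ) ≤ 2 * ((SS z ι).card : ℝ) ^ 2 / V ^ 2
      + 16 * √(Fintype.card G : ℝ) * ((SS z ι).card : ℝ) ^ 3 / V ^ 4 := by
  have hN := card_SS h
  have hc := corr_bound h (fun v => ‖What e W v‖) (fun _ => norm_nonneg _)
  have h1 : ‖What e W 1‖ = 0 := by simp [What]
  have h2 : ∑ v, ‖What e W v‖ ^ 2 ≤ (Fintype.card G : ℝ) * W.card := by
    have h3 : ∑ v, ‖∑ χ ∈ W, e χ v‖ ^ 2 = (Fintype.card G : ℝ) * W.card := by
      have := parseval_dual he W (fun _ => 1) (fun _ => 1)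
      simp only [one_mul, mul_conj', map_one, Finset.sum_const, nsmul_eq_mul, mul_one] at this
      exact_mod_cast this
    rw [← h3]
    refine Finset.sum_le_sum fun v _ => ?_
    unfold What
    split_ifs
    · simp
    · exact le_rfl
  have hθ0 : (0 : ℝ) ≤ (Fintype.card F : ℝ)⁻¹ := by positivity
  have h3 := fun h8 => cubic he (SS z ι) _ hθ0 hN b hb W V hV0 h8 hV _ hc
  have hm : (W.card : ℝ) * V ^ 2 ≤ (Fintype.card G : ℝ) * (SS z ι).card := by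
    refine le_trans ?_ (mvt he (SS z ι) b hb)
    have := Finset.card_nsmul_le_sum W (fun χ => ‖∑ f ∈ SS z ι, b f * e χ f‖ ^ 2) (V ^ 2)
      (fun χ hχ => by have := hV χ hχ; gcongr)
    rw [nsmul_eq_mul] at this
    exact this.trans (Finset.sum_le_sum_of_subset_of_nonneg (Finset.subset_univ _)
      fun _ _ _ => sq_nonneg _)
  simp only [h1] at h3
  set R : ℝ := (W.card : ℝ) with hR
  set N : ℝ := ((SS z ι).card : ℝ) with hN'
  set T : ℝ := (Fintype.card G : ℝ) with hT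
  have hR0 : 0 ≤ R := Nat.cast_nonneg _
  have hN0 : 0 ≤ N := Nat.cast_nonneg _
  have hT0 : 0 ≤ T := Nat.cast_nonneg _
  generalize ∑ v, ‖What e W v‖ ^ 2 = L at h2 h3
  generalize (Fintype.card F : ℝ)⁻¹ = θ at hN h3 hθ0
  clear_value R N T
  have t1 : 0 ≤ 2 * N ^ 2 / V ^ 2 := by positivity
  have t2 : 0 ≤ 16 * √T * N ^ 3 / V ^ 4 := by positivity
  have hsT : √T ≤ N := Real.sqrt_le_iff.mpr ⟨hN0, hTN⟩
  have hsq : √T * √T = T := Real.mul_self_sqrt hT0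
  have hs0 : 0 ≤ √T := Real.sqrt_nonneg _
  by_cases h8 : 8 * N ≤ V ^ 2
  · rcases h3 h8 with h3 | h3
    · have : R ≤ 2 * N ^ 2 / V ^ 2 := by rw [le_div_iff₀ (by positivity)]; exact h3
      linarith
    rcases hR0.eq_or_lt with hRz | hRpos
    · rw [← hRz]; linarith
    have h4 : R * (R * V ^ 4) ^ 2 ≤ R * (16 * √T * N ^ 3) ^ 2 := by
      calc R * (R * V ^ 4) ^ 2 = R ^ 3 * V ^ 8 := by ring
        _ ≤ 64 * T * N ^ 3 * (N ^ 2 * 0 ^ 2 + 4 * N ^ 2 * θ * L) := h3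
        _ ≤ 64 * T * N ^ 3 * (N ^ 2 * 0 ^ 2 + 4 * N ^ 2 * θ * (T * R)) := by gcongr
        _ = 256 * T * N ^ 5 * (θ * T) * R := by ring
        _ = 256 * (√T * √T) * N ^ 5 * N * R := by rw [hN, hsq]
        _ = _ := by ring
    have h5 := le_of_mul_le_mul_left h4 hRpos
    have h6 : R * V ^ 4 ≤ 16 * √T * N ^ 3 := le_of_sq_le_sq h5 (by positivity)
    have : R ≤ 16 * √T * N ^ 3 / V ^ 4 := by rw [le_div_iff₀ (by positivity)]; exact h6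
    linarith
  · push Not at h8
    have h6 : R * V ^ 4 ≤ 16 * √T * N ^ 3 := by
      calc R * V ^ 4 = R * V ^ 2 * V ^ 2 := by ring
        _ ≤ T * N * (8 * N) := by gcongr
        _ = √T * √T * N * (8 * N) := by rw [hsq]
        _ ≤ √T * N * N * (8 * N) := by gcongr
        _ = 8 * (√T * N ^ 3) := by ring
        _ ≤ 16 * (√T * N ^ 3) := by gcongr; norm_num
        _ = _ := by ring
    have : R ≤ 16 * √T * N ^ 3 / V ^ 4 := by rw [le_div_iff₀ (by positivity)]; exact h6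
    linarith

/-- The constant in the moment bound. -/
noncomputable def Cst (s : ℝ) : ℝ :=
  1 + (2 : ℝ) ^ s * (2 * (2 : ℝ) ^ (s - 2) * ((2 : ℝ) ^ (s - 2) - 1)⁻¹
    + 16 * (1 - (2 : ℝ) ^ (s - 4))⁻¹)

lemma final_arith (q : ℝ) (hq : 1 ≤ q) (n : ℕ) (hn : 2 ≤ n) (s : ℝ)
    (hs1 : 2 + 4 / ((n : ℝ) + 1) ≤ s) (hs4 : s < 4) :
    (q ^ ((n : ℝ) - (s - 2)⁻¹)) ^ (s - 2) * (q ^ (n + 1) * q ^ n) + (2 : ℝ) ^ s *
      (2 * (q ^ n) ^ 2 * (2 * q ^ n) ^ (s - 2) * ((2 : ℝ) ^ (s - 2) - 1)⁻¹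
        + 16 * √(q ^ (n + 1)) * (q ^ n) ^ 3 * (q ^ ((n : ℝ) - (s - 2)⁻¹)) ^ (s - 4)
          * (1 - (2 : ℝ) ^ (s - 4))⁻¹
        + 0 * (q ^ ((n : ℝ) - (s - 2)⁻¹)) ^ (s - 8)
          * (1 - (2 : ℝ) ^ (s - 8))⁻¹) ≤ Cst s * (q ^ n) ^ s := by
  have hq0 : 0 < q := by linarith
  have hn' : (2 : ℝ) ≤ n := by exact_mod_cast hn
  have ht0 : 0 < s - 2 := by
    have : 0 < 4 / ((n : ℝ) + 1) := by positivity
    linarith
  set u := (s - 2)⁻¹ with hu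
  have hut : u * (s - 2) = 1 := inv_mul_cancel₀ ht0.ne'
  have hu0 : 0 < u := inv_pos.mpr ht0
  have k1 : 4 * u ≤ (n : ℝ) + 1 := by
    have : 4 ≤ (s - 2) * ((n : ℝ) + 1) := by
      rw [← div_le_iff₀ (by positivity)]; linarith
    nlinarith
  have np : ∀ k : ℕ, q ^ k = q ^ (k : ℝ) := fun k => (Real.rpow_natCast q k).symm
  have hNs : (q ^ n) ^ s = q ^ ((n : ℝ) * s) := by rw [np, ← Real.rpow_mul hq0.le]
  have c0 : (q ^ ((n : ℝ) - u)) ^ (s - 2) * (q ^ (n + 1) * q ^ n) = (q ^ n) ^ s := by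
    rw [hNs, np (n + 1), np n, ← Real.rpow_mul hq0.le, ← Real.rpow_add hq0, ← Real.rpow_add hq0]
    congr 1; push_cast; linear_combination -hut
  have c1 : (q ^ n) ^ 2 * (2 * q ^ n) ^ (s - 2) = (2 : ℝ) ^ (s - 2) * (q ^ n) ^ s := by
    rw [Real.mul_rpow (by norm_num) (by positivity), Real.rpow_sub (x := q ^ n) (by positivity)]
    rw [show ((q ^ n) ^ (2 : ℝ)) = (q ^ n) ^ 2 from by exact_mod_cast Real.rpow_natCast _ 2]
    field_simp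
  have c2 : √(q ^ (n + 1)) * (q ^ n) ^ 3 * (q ^ ((n : ℝ) - u)) ^ (s - 4) ≤ (q ^ n) ^ s := by
    rw [hNs, Real.sqrt_eq_rpow, ← pow_mul, np (n + 1), np (n * 3), ← Real.rpow_mul hq0.le,
      ← Real.rpow_mul hq0.le, ← Real.rpow_add hq0, ← Real.rpow_add hq0]
    apply Real.rpow_le_rpow_of_exponent_le hq
    push_cast; nlinarith
  have r2 : (2 : ℝ) ^ (s - 4) < 1 := Real.rpow_lt_one_of_one_lt_of_neg (by norm_num) (by linarith)
  have i2 : 0 < (1 - (2 : ℝ) ^ (s - 4))⁻¹ := inv_pos.mpr (by linarith)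
  have h2s : 0 < (2 : ℝ) ^ s := by positivity
  rw [c0, mul_assoc 2 ((q ^ n) ^ 2), c1, mul_assoc 16, mul_assoc 16, zero_mul, zero_mul, add_zero]
  unfold Cst
  generalize √(q ^ (n + 1)) * (q ^ n) ^ 3 * (q ^ ((n : ℝ) - u)) ^ (s - 4) = y2 at c2 ⊢
  calc _ ≤ (q ^ n) ^ s + (2 : ℝ) ^ s *
      (2 * ((2 : ℝ) ^ (s - 2) * (q ^ n) ^ s) * ((2 : ℝ) ^ (s - 2) - 1)⁻¹
        + 16 * (q ^ n) ^ s * (1 - (2 : ℝ) ^ (s - 4))⁻¹) := by gcongr
    _ = _ := by ring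

theorem moment_aux (n : ℕ) (hn : 2 ≤ n) (s₀ : ℝ) (hs1 : 2 + 4 / ((n : ℝ) + 1) ≤ s₀)
    (hs4 : s₀ < 4) (s : ℝ) (hs : s₀ ≤ s)
    (h : Gor ε z σ ι) (he : CharSys e) (hG : Fintype.card G = Fintype.card F ^ (n + 1))
    (b : G → ℂ) (hb : ∀ g, ‖b g‖ ≤ 1) :
    ∑ χ, ‖∑ f ∈ SS z ι, b f * e χ f‖ ^ s ≤ Cst s₀ * ((Fintype.card F : ℝ) ^ n) ^ s := by
  have hq1 : (1 : ℝ) ≤ Fintype.card F := by exact_mod_cast Fintype.card_pos
  have hT : (Fintype.card G : ℝ) = (Fintype.card F : ℝ) ^ (n + 1) := by exact_mod_cast hG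
  have hN : ((SS z ι).card : ℝ) = (Fintype.card F : ℝ) ^ n := by
    rw [← card_SS h, hT, pow_succ]; field_simp
  set q : ℝ := (Fintype.card F : ℝ) with hq
  have hq0 : 0 < q := by linarith
  have hn' : (2 : ℝ) ≤ n := by exact_mod_cast hn
  have ht0 : 0 < s₀ - 2 := by
    have : 0 < 4 / ((n : ℝ) + 1) := by positivity
    linarith
  set f : X → ℝ := fun χ => ‖∑ f ∈ SS z ι, b f * e χ f‖ with hf
  have hf0 : ∀ χ, 0 ≤ f χ := fun _ => norm_nonneg _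
  have hfN : ∀ χ, f χ ≤ q ^ n := by
    intro χ
    rw [← hN]
    refine (norm_sum_le _ _).trans ?_
    simpa using Finset.sum_le_card_nsmul (SS z ι) (fun g => ‖b g * e χ g‖) 1
      (fun g _ => by rw [norm_mul]; exact mul_le_one₀ (hb g) (norm_nonneg _) (e_norm he χ g))
  have hM : ∑ χ, f χ ^ 2 ≤ q ^ (n + 1) * q ^ n := by
    have := mvt he (SS z ι) b hb
    rwa [hN, hT] at this
  have hTN : (Fintype.card G : ℝ) ≤ ((SS z ι).card : ℝ) ^ 2 := by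
    rw [hN, hT, ← pow_mul]
    exact pow_le_pow_right₀ hq1 (by omega)
  have hV₀ : 0 < q ^ ((n : ℝ) - (s₀ - 2)⁻¹) := by positivity
  have hVN : q ^ ((n : ℝ) - (s₀ - 2)⁻¹) ≤ q ^ n := by
    rw [← Real.rpow_natCast]
    apply Real.rpow_le_rpow_of_exponent_le hq1
    have := inv_pos.mpr ht0
    linarith
  have hl := layer univ f hf0 (q ^ n) _ (2 * (q ^ n) ^ 2) (16 * √(q ^ (n + 1)) * (q ^ n) ^ 3)
    0 s₀ _ hV₀ hVN hfN (by linarith) hs4 (by positivity)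
    (by positivity) le_rfl (by
      intro V hV
      have := large_values h he hTN b hb (univ.filter fun χ => V ≤ f χ) V hV
        (fun χ hχ => (Finset.mem_filter.mp hχ).2)
      rw [hN, hT] at this
      rwa [zero_div, add_zero]) hM
  have h0 := hl.trans (final_arith q hq1 n hn s₀ hs1 hs4)
  have h4 : ∀ χ, f χ ^ s ≤ f χ ^ s₀ * (q ^ n) ^ (s - s₀) := by
    intro χ
    have : f χ ^ s = f χ ^ s₀ * f χ ^ (s - s₀) := by
      rw [← Real.rpow_add' (hf0 χ) (by linarith)]; congr 1; ring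
    rw [this]
    exact mul_le_mul_of_nonneg_left (Real.rpow_le_rpow (hf0 χ) (hfN χ) (by linarith))
      (Real.rpow_nonneg (hf0 χ) _)
  calc ∑ χ, f χ ^ s ≤ ∑ χ, f χ ^ s₀ * (q ^ n) ^ (s - s₀) := Finset.sum_le_sum fun χ _ => h4 χ
    _ = (∑ χ, f χ ^ s₀) * (q ^ n) ^ (s - s₀) := by rw [Finset.sum_mul]
    _ ≤ Cst s₀ * (q ^ n) ^ s₀ * (q ^ n) ^ (s - s₀) := by gcongr
    _ = _ := by rw [mul_assoc, ← Real.rpow_add (by positivity)]; congr 2; ring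

end Pool.Agent.MP_2a1f0e_nt.FF
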