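import Mathlib
import Pool.Agent.MP_2a1f0e_nt.FFLayer

/-!
The moment bound for even Dirichlet characters modulo `X ^ (n + 2)` over a finite field.
-/

open Finset ComplexConjugate Polynomial

namespace Pool.Agent.MP_2a1f0e_nt.FF

lemma charSys (G : Type) [CommGroup G] [Fintype G] [DecidableEq G]
    [DecidableEq (AddChar (Additive G) ℂ)] :
    CharSys (fun (χ : AddChar (Additive G) ℂ) (g : G) => χ (Additive.ofMul g)) where
  one χ := by simp
  mul χ g h := by rw [ofMul_mul, AddChar.map_add_eq_mul]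
  inv χ g := by rw [ofMul_inv, AddChar.map_neg_eq_conj]
  orth1 g := by
    classical
    rw [AddChar.sum_apply_eq_ite]
    simp
  orth2 χ χ' := by
    classical
    have h1 := AddChar.sum_eq_ite (χ - χ')
    have h2 : ∑ g : G, χ (Additive.ofMul g) * conj (χ' (Additive.ofMul g))
        = ∑ a : Additive G, (χ - χ') a := by
      rw [← Equiv.sum_comp (Additive.ofMul : G ≃ Additive G)]
      refine Finset.sum_congr rfl fun g _ => ?_
      rw [AddChar.sub_apply, AddChar.map_neg_eq_conj]
    rw [h2, h1]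
    simp [sub_eq_zero]

lemma Gor.card {F A G : Type} [Field F] [Fintype F] [CommRing A] [Algebra F A] [Fintype A]
    [CommGroup G] [Fintype G] {ε : A →ₐ[F] F} {z : A →ₗ[F] F} {σ : A} {ι : G →* A}
    (h : Gor ε z σ ι) : Fintype.card G * Fintype.card F = Fintype.card A := by
  rw [← Fintype.card_prod]
  refine Fintype.card_of_bijective (f := fun p : G × F => ι p.1 + p.2 • (1 : A)) ⟨?_, ?_⟩
  · rintro ⟨g, c⟩ ⟨g', c'⟩ hp
    have h1 := congrArg ε hp
    simp [h.eps] at h1
    subst h1
    simp only [add_left_inj] at hp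
    rw [h.inj hp]
  · intro a
    obtain ⟨g, hg⟩ := h.surj (a - (ε a - 1) • 1) (by simp)
    exact ⟨(g, ε a - 1), by simp [hg]⟩

variable (F : Type) [Field F] (n : ℕ)

/-- The truncated polynomial ring. -/
abbrev Tr : Type := AdjoinRoot (X ^ (n + 2) : F[X])

/-- Constant coefficient. -/
noncomputable def eps : Tr F n →ₐ[F] F :=
  AdjoinRoot.liftAlgHom _ (AlgHom.id F F) 0 (by simp)

/-- Top coefficient. -/
noncomputable def zz : Tr F n →ₗ[F] F :=
  (lcoeff F (n + 1)).comp (AdjoinRoot.modByMonicHom (monic_X_pow (n + 2)))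

/-- Principal units. -/
noncomputable abbrev PU : Subgroup (Tr F n)ˣ := (Units.map (eps F n : Tr F n →* F)).ker

/-- The inclusion of the principal units. -/
noncomputable def iota : PU F n →* Tr F n := (Units.coeHom _).comp (PU F n).subtype

variable {F n}

lemma eps_mk (p : F[X]) : eps F n (AdjoinRoot.mk _ p) = p.coeff 0 := by
  unfold eps
  rw [AdjoinRoot.liftAlgHom_mk, eval₂_at_zero]; rfl

lemma zz_mk (p : F[X]) : zz F n (AdjoinRoot.mk _ p) = p.coeff (n + 1) := by
  unfold zz
  rw [LinearMap.comp_apply, AdjoinRoot.modByMonicHom_mk, lcoeff_apply]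
  conv_rhs => rw [← modByMonic_add_div p (X ^ (n + 2))]
  rw [coeff_add, coeff_X_pow_mul', if_neg (by omega), add_zero]

lemma mk_smul (c : F) (p : F[X]) :
    AdjoinRoot.mk (X ^ (n + 2) : F[X]) (C c * p) = c • AdjoinRoot.mk _ p := by
  rw [map_mul, AdjoinRoot.mk_C, Algebra.smul_def]; rfl

lemma gor : Gor (eps F n) (zz F n) (AdjoinRoot.mk _ (X ^ (n + 1))) (iota F n) := by
  have mulσ : ∀ a : Tr F n, a * AdjoinRoot.mk _ (X ^ (n + 1))
      = eps F n a • AdjoinRoot.mk _ (X ^ (n + 1)) := by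
    intro a
    induction a using AdjoinRoot.induction_on with
    | ih p =>
      rw [eps_mk, ← mk_smul, ← map_mul, AdjoinRoot.mk_eq_mk]
      refine ⟨divX p, ?_⟩
      conv_lhs => rw [← X_mul_divX_add p]
      simp only [coeff_add, mul_coeff_zero, coeff_X_zero, zero_mul, coeff_C_zero, zero_add]
      ring
  refine ⟨?_, ?_, ?_, mulσ, ?_, ?_, ?_⟩
  · intro g g' h
    exact Subtype.ext (Units.ext h)
  · intro g
    have := g.2
    rw [MonoidHom.mem_ker, Units.ext_iff] at this
    exact this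
  · intro a ha
    have hu : IsUnit a := by
      induction a using AdjoinRoot.induction_on with
      | ih p =>
        rw [eps_mk] at ha
        have h1 : IsNilpotent (AdjoinRoot.mk (X ^ (n + 2) : F[X]) (X * divX p)) := by
          refine ⟨n + 2, ?_⟩
          rw [← map_pow, AdjoinRoot.mk_eq_zero, mul_pow]
          exact dvd_mul_right _ _
        have h2 := h1.isUnit_add_one
        rw [← X_mul_divX_add p, ha, map_add]
        simpa using h2
    refine ⟨⟨hu.unit, ?_⟩, rfl⟩
    rw [MonoidHom.mem_ker, Units.ext_iff]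
    exact ha
  · rw [eps_mk]; simp
  · rw [zz_mk]; simp
  · intro y hy
    induction y using AdjoinRoot.induction_on with
    | ih p =>
      have h1 : (X ^ (n + 1) : F[X]) ∣ p := by
        rw [X_pow_dvd_iff]
        intro d hd
        have h2 := hy (AdjoinRoot.mk _ (X ^ (n + 1 - d))) (by
          rw [eps_mk, coeff_X_pow, if_neg (by omega)])
        rw [← map_mul, zz_mk, coeff_X_pow_mul', if_pos (by omega)] at h2
        rwa [show n + 1 - (n + 1 - d) = d by omega] at h2
      obtain ⟨r, rfl⟩ := h1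
      exact ⟨_, by rw [map_mul, mul_comm, mulσ]⟩

lemma reverse_inj {f f' : F[X]} (hf : f.natDegree = n) (hf' : f'.natDegree = n)
    (h : AdjoinRoot.mk (X ^ (n + 2) : F[X]) f.reverse = AdjoinRoot.mk _ f'.reverse) : f = f' := by
  rw [AdjoinRoot.mk_eq_mk, X_pow_dvd_iff] at h
  ext i
  by_cases hi : i ≤ n
  · have h1 := h (n - i) (by omega)
    rw [coeff_sub, coeff_reverse, coeff_reverse, hf, hf', revAt_le (by omega),
      show n - (n - i) = i by omega, sub_eq_zero] at h1
    exact h1
  · rw [coeff_eq_zero_of_natDegree_lt (by omega), coeff_eq_zero_of_natDegree_lt (by omega)]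

theorem main (n : ℕ) (hn : 2 ≤ n) : ∃ K : ℝ, ∀ s : ℝ, 2 + 4 / ((n : ℝ) + 1) ≤ s →
    ∀ (F : Type) [Field F] [Fintype F] (P : Finset F[X]) (b : F[X] → ℂ)
      (W : Finset (MulChar (AdjoinRoot (X ^ (n + 2) : F[X])) ℂ)),
      (∀ f ∈ P, f.Monic ∧ f.natDegree = n) → (∀ f, ‖b f‖ ≤ 1) →
      (∀ χ ∈ W, ∀ c : F, c ≠ 0 → χ (AdjoinRoot.mk _ (C c)) = 1) →
      ∑ χ ∈ W, ‖∑ f ∈ P, b f * χ (AdjoinRoot.mk _ f.reverse)‖ ^ s
        ≤ K * ((Fintype.card F : ℝ) ^ n) ^ s := by
  classical
  set s₀ : ℝ := 2 + 4 / ((n : ℝ) + 1) with hs₀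
  have hn' : (2 : ℝ) ≤ n := by exact_mod_cast hn
  have hs4 : s₀ < 4 := by
    have : 4 / ((n : ℝ) + 1) < 2 := by rw [div_lt_iff₀ (by positivity)]; linarith
    linarith
  refine ⟨Cst s₀, fun s hs1 F _ _ P b W hP hb hW => ?_⟩
  haveI : Module.Finite F (Tr F n) := (AdjoinRoot.powerBasis' (monic_X_pow (n + 2))).finite
  haveI : Finite (Tr F n) := Module.finite_of_finite F
  letI : Fintype (Tr F n) := Fintype.ofFinite _
  letI : Fintype (PU F n) := Fintype.ofFinite _
  have hg := gor (F := F) (n := n)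
  have hcard : Fintype.card (PU F n) = Fintype.card F ^ (n + 1) := by
    have h1 := hg.card
    rw [Module.card_eq_pow_finrank (K := F) (V := Tr F n),
      (AdjoinRoot.powerBasis' (monic_X_pow (n + 2))).finrank, AdjoinRoot.powerBasis'_dim,
      natDegree_X_pow, pow_succ (Fintype.card F) (n + 1)] at h1
    exact Nat.eq_of_mul_eq_mul_right Fintype.card_pos h1
  set b' : PU F n → ℂ := fun g =>
    ∑ f ∈ P.filter (fun f => AdjoinRoot.mk _ f.reverse = iota F n g), b f with hb'
  have hb'1 : ∀ g, ‖b' g‖ ≤ 1 := by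
    intro g
    have h1 : (P.filter (fun f => AdjoinRoot.mk _ f.reverse = iota F n g)).card ≤ 1 := by
      rw [Finset.card_le_one]
      intro f hf f' hf'
      rw [Finset.mem_filter] at hf hf'
      exact reverse_inj (hP f hf.1).2 (hP f' hf'.1).2 (hf.2.trans hf'.2.symm)
    refine (norm_sum_le _ _).trans ?_
    refine (Finset.sum_le_card_nsmul _ _ 1 (fun f _ => hb f)).trans ?_
    simpa using h1
  let res : MulChar (Tr F n) ℂ → AddChar (Additive (PU F n)) ℂ := fun χ =>
    { toFun := fun g => χ (iota F n g.toMul)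
      map_zero_eq_one' := by simp
      map_add_eq_mul' := by intro a c; simp }
  have hres : Set.InjOn res W := by
    intro χ hχ χ' hχ' hh
    apply MulChar.ext
    intro a
    have h0 : eps F n a ≠ 0 := (a.isUnit.map (eps F n)).ne_zero
    obtain ⟨g, hg'⟩ := hg.surj ((eps F n a)⁻¹ • (a : Tr F n)) (by simp [h0])
    have h1 : (a : Tr F n) = AdjoinRoot.mk _ (C (eps F n a)) * iota F n g := by
      rw [hg', AdjoinRoot.mk_C, ← AdjoinRoot.algebraMap_eq, ← Algebra.smul_def, smul_smul,
        mul_inv_cancel₀ h0, one_smul]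
    have h2 : χ (iota F n g) = χ' (iota F n g) :=
      congrArg (fun ψ : AddChar (Additive (PU F n)) ℂ => ψ (Additive.ofMul g)) hh
    rw [h1, map_mul, map_mul, hW χ hχ _ h0, hW χ' hχ' _ h0, h2]
  have hD : ∀ χ : MulChar (Tr F n) ℂ, ∑ f ∈ P, b f * χ (AdjoinRoot.mk _ f.reverse)
      = ∑ g ∈ SS (zz F n) (iota F n), b' g * res χ (Additive.ofMul g) := by
    intro χ
    simp only [hb', Finset.sum_mul, Finset.sum_filter]
    rw [Finset.sum_comm]
    refine Finset.sum_congr rfl fun f hf => ?_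
    obtain ⟨g, hg'⟩ := hg.surj (AdjoinRoot.mk _ f.reverse) (by
      rw [eps_mk, coeff_zero_reverse]; exact (hP f hf).1)
    rw [Finset.sum_eq_single g]
    · rw [if_pos hg'.symm, ← hg']; rfl
    · intro g' _ hne
      rw [if_neg, zero_mul]
      intro hc
      exact hne (hg.inj (hc.symm.trans hg'.symm))
    · intro hc
      exfalso; apply hc
      simp only [SS, Finset.mem_filter, Finset.mem_univ, true_and]
      rw [hg', zz_mk]
      apply coeff_eq_zero_of_natDegree_lt
      have := reverse_natDegree_le f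
      have := (hP f hf).2
      omega
  have hm := moment_aux n hn s₀ le_rfl hs4 s hs1 hg
    (charSys (PU F n)) hcard b' hb'1
  refine le_trans ?_ hm
  simp_rw [hD]
  rw [← Finset.sum_image (f := fun ψ : AddChar (Additive (PU F n)) ℂ =>
    ‖∑ g ∈ SS (zz F n) (iota F n), b' g * ψ (Additive.ofMul g)‖ ^ s) hres]
  exact Finset.sum_le_sum_of_subset_of_nonneg (Finset.subset_univ _) fun _ _ _ => by positivity

end Pool.Agent.MP_2a1f0e_nt.FF
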