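import Mathlib
import Pool.Agent.MP_2a1f0e_nt.FFMain

/-!
The apolar algebra of a quadratic form and the extension estimate for paraboloids.
-/

open Finset

namespace Pool.Agent.MP_2a1f0e_nt.FF

variable {F V : Type} [Field F] [AddCommGroup V] [Module F V]

/-- The algebra `F + V + F σ` with `u * v = polar Q u v • σ`. -/
@[ext]
structure Ap (Q : QuadraticForm F V) : Type where
  a : F
  u : V
  c : F

namespace Ap
variable {Q : QuadraticForm F V}

instance : Zero (Ap Q) := ⟨⟨0, 0, 0⟩⟩
instance : One (Ap Q) := ⟨⟨1, 0, 0⟩⟩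
instance : Add (Ap Q) := ⟨fun x y => ⟨x.a + y.a, x.u + y.u, x.c + y.c⟩⟩
instance : Neg (Ap Q) := ⟨fun x => ⟨-x.a, -x.u, -x.c⟩⟩
instance : Mul (Ap Q) := ⟨fun x y =>
  ⟨x.a * y.a, x.a • y.u + y.a • x.u, x.a * y.c + y.a * x.c + Q.polarBilin x.u y.u⟩⟩
instance : SMul F (Ap Q) := ⟨fun t x => ⟨t * x.a, t • x.u, t * x.c⟩⟩

@[simp] lemma zero_a : (0 : Ap Q).a = 0 := rfl
@[simp] lemma zero_u : (0 : Ap Q).u = 0 := rfl
@[simp] lemma zero_c : (0 : Ap Q).c = 0 := rfl
@[simp] lemma one_a : (1 : Ap Q).a = 1 := rfl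
@[simp] lemma one_u : (1 : Ap Q).u = 0 := rfl
@[simp] lemma one_c : (1 : Ap Q).c = 0 := rfl
@[simp] lemma add_a (x y : Ap Q) : (x + y).a = x.a + y.a := rfl
@[simp] lemma add_u (x y : Ap Q) : (x + y).u = x.u + y.u := rfl
@[simp] lemma add_c (x y : Ap Q) : (x + y).c = x.c + y.c := rfl
@[simp] lemma neg_a (x : Ap Q) : (-x).a = -x.a := rfl
@[simp] lemma neg_u (x : Ap Q) : (-x).u = -x.u := rfl
@[simp] lemma neg_c (x : Ap Q) : (-x).c = -x.c := rfl
@[simp] lemma mul_a (x y : Ap Q) : (x * y).a = x.a * y.a := rfl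
@[simp] lemma mul_u (x y : Ap Q) : (x * y).u = x.a • y.u + y.a • x.u := rfl
@[simp] lemma mul_c (x y : Ap Q) :
    (x * y).c = x.a * y.c + y.a * x.c + Q.polarBilin x.u y.u := rfl
@[simp] lemma smul_a (t : F) (x : Ap Q) : (t • x).a = t * x.a := rfl
@[simp] lemma smul_u (t : F) (x : Ap Q) : (t • x).u = t • x.u := rfl
@[simp] lemma smul_c (t : F) (x : Ap Q) : (t • x).c = t * x.c := rfl

lemma pcomm (u v : V) : Q.polarBilin u v = Q.polarBilin v u := by
  simp [QuadraticMap.polar_comm]

instance : AddCommGroup (Ap Q) where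
  add_assoc x y w := by ext <;> simp [add_assoc]
  zero_add x := by ext <;> simp
  add_zero x := by ext <;> simp
  add_comm x y := by ext <;> simp [add_comm]
  neg_add_cancel x := by ext <;> simp
  nsmul := nsmulRec
  zsmul := zsmulRec

instance : CommRing (Ap Q) where
  left_distrib x y w := by
    ext
    · simp; ring
    · simp only [mul_u, add_u, add_a]; module
    · simp only [mul_c, add_c, add_a, add_u, map_add]; ring
  right_distrib x y w := by
    ext
    · simp; ring
    · simp only [mul_u, add_u, add_a]; module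
    · simp only [mul_c, add_c, add_a, add_u, map_add, LinearMap.add_apply]; ring
  zero_mul x := by ext <;> simp
  mul_zero x := by ext <;> simp
  mul_assoc x y w := by
    ext
    · simp; ring
    · simp only [mul_u, mul_a]; module
    · simp only [mul_c, mul_a, mul_u, map_add, map_smul, LinearMap.add_apply,
        LinearMap.smul_apply, smul_eq_mul]; ring
  one_mul x := by ext <;> simp
  mul_one x := by ext <;> simp
  mul_comm x y := by
    ext
    · simp; ring
    · simp only [mul_u]; module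
    · simp only [mul_c, pcomm x.u]; ring

instance : Module F (Ap Q) where
  one_smul x := by ext <;> simp
  mul_smul s t x := by ext <;> simp [mul_assoc, mul_smul]
  smul_zero t := by ext <;> simp
  smul_add t x y := by ext <;> simp [mul_add]
  add_smul s t x := by ext <;> simp [add_mul, add_smul]
  zero_smul x := by ext <;> simp

instance : Algebra F (Ap Q) := Algebra.ofModule
  (fun t x y => by
    ext
    · simp; ring
    · simp only [mul_u, smul_u, smul_a]; module
    · simp only [mul_c, smul_c, smul_a, smul_u, map_smul, LinearMap.smul_apply, smul_eq_mul]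
      ring)
  (fun t x y => by
    ext
    · simp; ring
    · simp only [mul_u, smul_u, smul_a]; module
    · simp only [mul_c, smul_c, smul_a, smul_u, map_smul, smul_eq_mul]; ring)

/-- Residue map. -/
def eps (Q : QuadraticForm F V) : Ap Q →ₐ[F] F :=
  AlgHom.ofLinearMap
    { toFun := fun x => x.a, map_add' := fun _ _ => rfl, map_smul' := fun _ _ => rfl }
    rfl (fun _ _ => rfl)

/-- Socle coordinate. -/
def zz (Q : QuadraticForm F V) : Ap Q →ₗ[F] F :=
  { toFun := fun x => x.c, map_add' := fun _ _ => rfl, map_smul' := fun _ _ => rfl }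

/-- The exponential map. -/
def iota (Q : QuadraticForm F V) : Multiplicative (V × F) →* Ap Q where
  toFun g := ⟨1, g.toAdd.1, g.toAdd.2 + Q g.toAdd.1⟩
  map_one' := by ext <;> simp
  map_mul' g h := by
    ext
    · simp
    · simp [add_comm]
    · simp [QuadraticMap.polar]; ring

lemma gor (hQ : ∀ u, (∀ v, QuadraticMap.polar Q u v = 0) → u = 0) :
    Gor (eps Q) (zz Q) (⟨0, 0, 1⟩ : Ap Q) (iota Q) where
  inj := by
    intro g h e
    have h1 : g.toAdd.1 = h.toAdd.1 := congrArg Ap.u e
    have h2 : g.toAdd.2 + Q g.toAdd.1 = h.toAdd.2 + Q h.toAdd.1 := congrArg Ap.c e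
    rw [h1] at h2
    exact Multiplicative.toAdd.injective (Prod.ext h1 (add_right_cancel h2))
  eps g := rfl
  surj x hx := by
    refine ⟨Multiplicative.ofAdd (x.u, x.c - Q x.u), ?_⟩
    ext
    · exact hx.symm
    · rfl
    · simp [iota]
  mulσ x := by
    ext
    · simp
    · simp
    · simp [eps]
  epsσ := rfl
  zσ := rfl
  nondeg y hy := by
    have h1 : y.a = 0 := by
      have := hy ⟨0, 0, 1⟩ rfl
      simpa [zz] using this
    have h2 : y.u = 0 := by
      apply hQ
      intro v
      have := hy ⟨0, v, 0⟩ rfl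
      simpa [zz, QuadraticMap.polar_comm] using this
    exact ⟨y.c, by ext <;> simp [h1, h2]⟩

end Ap

theorem par_main (n : ℕ) (hn : 2 ≤ n) : ∃ K : ℝ, ∀ s : ℝ, 2 + 4 / ((n : ℝ) + 1) ≤ s →
    ∀ (F : Type) [Field F] [Fintype F] (Q : QuadraticForm F (Fin n → F)) (ψ : AddChar F ℂ)
      (b : (Fin n → F) → ℂ), (∀ u, (∀ v, QuadraticMap.polar Q u v = 0) → u = 0) → ψ ≠ 1 →
      (∀ u, ‖b u‖ ≤ 1) →
      ∑ ξ : Fin n → F, ∑ τ : F, ‖∑ u : Fin n → F, b u * ψ (∑ i, ξ i * u i + τ * Q u)‖ ^ s
        ≤ K * ((Fintype.card F : ℝ) ^ n) ^ s := by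
  classical
  set s₀ : ℝ := 2 + 4 / ((n : ℝ) + 1) with hs₀
  have hn' : (2 : ℝ) ≤ n := by exact_mod_cast hn
  have hs4 : s₀ < 4 := by
    have : 4 / ((n : ℝ) + 1) < 2 := by rw [div_lt_iff₀ (by positivity)]; linarith
    linarith
  refine ⟨Cst s₀, fun s hs1 F _ _ Q ψ b hQ hψ hb => ?_⟩
  have hg := Ap.gor hQ
  have hcard : Fintype.card (Multiplicative ((Fin n → F) × F)) = Fintype.card F ^ (n + 1) := by
    simp [pow_succ]
  let res : (Fin n → F) × F → AddChar (Additive (Multiplicative ((Fin n → F) × F))) ℂ := fun p =>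
    { toFun := fun g => ψ (∑ i, p.1 i * g.toMul.toAdd.1 i - p.2 * g.toMul.toAdd.2)
      map_zero_eq_one' := by simp
      map_add_eq_mul' := by
        intro a c
        rw [← AddChar.map_add_eq_mul]
        congr 1
        simp [mul_add, Finset.sum_add_distrib]; ring }
  have hprim := AddChar.IsPrimitive.of_ne_one hψ
  have key : ∀ a c : F, (∀ t, ψ (a * t) = ψ (c * t)) → a = c := by
    intro a c h
    by_contra hne
    apply hprim (sub_ne_zero.mpr hne)
    ext t
    have h0 : ψ (c * t) ≠ 0 := (AddChar.val_isUnit ψ _).ne_zero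
    have h1 : ψ ((a - c) * t) * ψ (c * t) = 1 * ψ (c * t) := by
      rw [← AddChar.map_add_eq_mul, one_mul, ← h t]; congr 1; ring
    simpa using mul_right_cancel₀ h0 h1
  have hres : Function.Injective res := by
    intro p p' hh
    have hh' : ∀ (u : Fin n → F) (t : F), ψ (∑ i, p.1 i * u i - p.2 * t)
        = ψ (∑ i, p'.1 i * u i - p'.2 * t) := fun u t =>
      congrArg (fun φ : AddChar (Additive (Multiplicative ((Fin n → F) × F))) ℂ =>
        φ (Additive.ofMul (Multiplicative.ofAdd (u, t)))) hh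
    refine Prod.ext (funext fun i => key _ _ fun t => ?_) (key _ _ fun t => ?_)
    · simpa [Pi.single_apply] using hh' (Pi.single i t) 0
    · simpa using hh' 0 (-t)
  have hD : ∀ p : (Fin n → F) × F, ∑ u : Fin n → F, b u * ψ (∑ i, p.1 i * u i + p.2 * Q u)
      = ∑ g ∈ SS (Ap.zz Q) (Ap.iota Q), b g.toAdd.1 * res p (Additive.ofMul g) := by
    intro p
    refine Finset.sum_nbij' (fun u => Multiplicative.ofAdd (u, -Q u)) (fun g => g.toAdd.1)
      ?_ ?_ ?_ ?_ ?_
    · intro u _; simp [SS, Ap.zz, Ap.iota]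
    · intro g _; simp
    · intro u _; simp
    · intro g hg'
      have h1 : g.toAdd.2 + Q g.toAdd.1 = 0 := by simpa [SS, Ap.zz, Ap.iota] using hg'
      apply Multiplicative.toAdd.injective
      exact Prod.ext rfl (by simp; linear_combination -h1)
    · intro u _
      simp [res]
  have hm := moment_aux n hn s₀ le_rfl hs4 s hs1 hg (charSys _) hcard
    (fun g => b g.toAdd.1) (fun g => hb _)
  refine le_trans ?_ hm
  rw [← Finset.sum_product', Finset.univ_product_univ]
  simp_rw [hD]
  rw [← Finset.sum_image (f := fun φ : AddChar (Additive (Multiplicative ((Fin n → F) × F))) ℂ =>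
    ‖∑ g ∈ SS (Ap.zz Q) (Ap.iota Q), b g.toAdd.1 * φ (Additive.ofMul g)‖ ^ s) hres.injOn]
  exact Finset.sum_le_sum_of_subset_of_nonneg (Finset.subset_univ _) fun _ _ _ => by positivity

end Pool.Agent.MP_2a1f0e_nt.FF
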