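import Mathlib

set_option autoImplicit false

open Finset

namespace Pool.Agent.MP_2a1f0e_nt

noncomputable def ex (x : ℝ) : ℂ := Complex.exp (Complex.I * ((2 * Real.pi * x : ℝ) : ℂ))

lemma ex_add (x y : ℝ) : ex (x + y) = ex x * ex y := by
  unfold ex
  rw [← Complex.exp_add]
  congr 1
  push_cast
  ring

lemma norm_ex (x : ℝ) : ‖ex x‖ = 1 := by
  unfold ex
  exact Complex.norm_exp_I_mul_ofReal _

lemma ex_zero : ex 0 = 1 := by simp [ex]

lemma conj_ex (x : ℝ) : (starRingEnd ℂ) (ex x) = ex (-x) := by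
  unfold ex
  rw [← Complex.exp_conj, map_mul, Complex.conj_ofReal, Complex.conj_I]
  congr 1
  push_cast
  ring

lemma ex_int (m : ℤ) : ex (m : ℝ) = 1 := by
  unfold ex
  have := Complex.exp_int_mul_two_pi_mul_I m
  rw [← this]
  congr 1
  push_cast
  ring

lemma ex_nat_mul (r : ℕ) (x : ℝ) : ex (r * x) = ex x ^ r := by
  induction r with
  | zero => simp [ex_zero]
  | succ r ih =>
    rw [pow_succ, ← ih, ← ex_add]
    congr 1
    push_cast
    ring

lemma norm_ex_sub_one {x : ℝ} (hx : |x| ≤ 1 / 2) : 4 * |x| ≤ ‖ex x - 1‖ := by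
  unfold ex
  rw [Complex.norm_exp_I_mul_ofReal_sub_one]
  have h1 : 2 * Real.pi * x / 2 = Real.pi * x := by ring
  rw [h1]
  have hpi := Real.pi_pos
  have h2 : |Real.pi * x| ≤ Real.pi / 2 := by
    rw [abs_mul, abs_of_pos hpi]
    nlinarith
  have h3 := Real.mul_abs_le_abs_sin h2
  rw [abs_mul, abs_of_pos hpi] at h3
  have h4 : 2 / Real.pi * (Real.pi * |x|) = 2 * |x| := by field_simp
  rw [h4] at h3
  rw [Real.norm_eq_abs, abs_mul]
  norm_num
  linarith

noncomputable def gs (L : ℕ) (x : ℝ) : ℂ := ∑ r ∈ range L, ex (r * x)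

noncomputable def kp (x : ℝ) : ℝ := 1 / (1 + x ^ 2)

lemma kp_pos (x : ℝ) : 0 < kp x := by unfold kp; positivity

lemma kp_le_one (x : ℝ) : kp x ≤ 1 := by
  unfold kp
  rw [div_le_one (by positivity)]
  nlinarith [sq_nonneg x]

lemma kp_neg (x : ℝ) : kp (-x) = kp x := by unfold kp; rw [neg_sq]

lemma kp_anti {x y : ℝ} (h : x ^ 2 ≤ y ^ 2) : kp y ≤ kp x := by
  unfold kp
  apply one_div_le_one_div_of_le (by positivity)
  linarith

lemma norm_gs_le (L : ℕ) (x : ℝ) : ‖gs L x‖ ≤ L := by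
  unfold gs
  refine (norm_sum_le _ _).trans ?_
  simp [norm_ex]

lemma gs_mul (L : ℕ) (x : ℝ) : gs L x * (ex x - 1) = ex (L * x) - 1 := by
  unfold gs
  simp_rw [ex_nat_mul]
  exact geom_sum_mul _ _

lemma gs_add_int (L : ℕ) (x : ℝ) (m : ℤ) : gs L (x + m) = gs L x := by
  unfold gs
  refine sum_congr rfl fun r _ => ?_
  rw [mul_add, ex_add]
  have : ((r : ℝ) * (m : ℝ)) = ((r * m : ℤ) : ℝ) := by push_cast; ring
  rw [this, ex_int, mul_one]

lemma gs_sq_le (L : ℕ) {x : ℝ} (hx : |x| ≤ 1 / 2) :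
    ‖gs L x‖ ^ 2 ≤ 2 * (L : ℝ) ^ 2 * kp (2 * L * x) := by
  have h1 := norm_gs_le L x
  have h2 : ‖gs L x‖ * (4 * |x|) ≤ 2 := by
    calc ‖gs L x‖ * (4 * |x|) ≤ ‖gs L x‖ * ‖ex x - 1‖ :=
          mul_le_mul_of_nonneg_left (norm_ex_sub_one hx) (norm_nonneg _)
      _ = ‖ex (L * x) - 1‖ := by rw [← norm_mul, gs_mul]
      _ ≤ ‖ex (L * x)‖ + ‖(1 : ℂ)‖ := norm_sub_le _ _
      _ = 2 := by rw [norm_ex]; norm_num
  have h0 := norm_nonneg (gs L x)
  have h3 : (‖gs L x‖ * |x|) ^ 2 ≤ (1 / 2) ^ 2 := by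
    apply pow_le_pow_left₀ (by positivity)
    linarith
  rw [mul_pow, sq_abs] at h3
  have h4 : ‖gs L x‖ ^ 2 ≤ (L : ℝ) ^ 2 := pow_le_pow_left₀ h0 h1 2
  unfold kp
  rw [mul_one_div, le_div_iff₀ (by positivity)]
  have hL : (0 : ℝ) ≤ (L : ℝ) ^ 2 := by positivity
  nlinarith [mul_le_mul_of_nonneg_left h3 hL]

lemma gs_sq_le' (L : ℕ) {x : ℝ} (hx : |x| ≤ 1) :
    ‖gs L x‖ ^ 2 ≤ 2 * (L : ℝ) ^ 2 *
      (kp (2 * L * (x - 1)) + kp (2 * L * x) + kp (2 * L * (x + 1))) := by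
  have p1 := kp_pos (2 * L * (x - 1))
  have p2 := kp_pos (2 * L * x)
  have p3 := kp_pos (2 * L * (x + 1))
  have hL : (0 : ℝ) ≤ 2 * (L : ℝ) ^ 2 := by positivity
  rw [abs_le] at hx
  rcases le_total x (-1 / 2) with h | h
  · have e : gs L x = gs L (x + 1) := by
      have := gs_add_int L x 1
      simpa using this.symm
    rw [e]
    refine (gs_sq_le L (x := x + 1) (by rw [abs_le]; constructor <;> linarith [hx.1])).trans ?_
    apply mul_le_mul_of_nonneg_left _ hL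
    linarith
  · rcases le_total x (1 / 2) with h' | h'
    · refine (gs_sq_le L (x := x) (by rw [abs_le]; constructor <;> linarith)).trans ?_
      apply mul_le_mul_of_nonneg_left _ hL
      linarith
    · have e : gs L x = gs L (x - 1) := by
        have := gs_add_int L x (-1)
        simpa [sub_eq_add_neg] using this.symm
      rw [e]
      refine (gs_sq_le L (x := x - 1) (by rw [abs_le]; constructor <;> linarith [hx.2])).trans ?_
      apply mul_le_mul_of_nonneg_left _ hL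
      linarith

lemma normsq_sum {ι : Type*} (s : Finset ι) (c : ι → ℂ) (a : ι → ℝ) :
    ((‖∑ i ∈ s, c i * ex (a i)‖ ^ 2 : ℝ) : ℂ) =
      ∑ i ∈ s, ∑ j ∈ s, c i * (starRingEnd ℂ) (c j) * ex (a i - a j) := by
  rw [← Complex.normSq_eq_norm_sq, ← Complex.mul_conj, map_sum, sum_mul_sum]
  refine sum_congr rfl fun i _ => sum_congr rfl fun j _ => ?_
  rw [map_mul, conj_ex, sub_eq_add_neg, ex_add]
  ring

lemma fejer {ι : Type*} (s : Finset ι) (c : ι → ℂ) (φ : ι → ℝ) (T : ℕ) :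
    (T : ℝ) * ∑ t ∈ Icc 1 T, ‖∑ i ∈ s, c i * ex (t * φ i)‖ ^ 2 ≤
      ∑ i ∈ s, ∑ j ∈ s, ‖c i‖ * ‖c j‖ * ‖gs (2 * T) (φ i - φ j)‖ ^ 2 := by
  set g : ℝ → ℝ := fun x => ‖∑ i ∈ s, c i * ex (x * φ i)‖ ^ 2 with hg
  have hg0 : ∀ x, 0 ≤ g x := fun x => by simp only [hg]; positivity
  have h1 : (T : ℝ) * ∑ t ∈ Icc 1 T, g t ≤
      ∑ r' ∈ range (2 * T), ∑ r ∈ range (2 * T), g ((r : ℝ) - r') := by
    calc (T : ℝ) * ∑ t ∈ Icc 1 T, g t = ∑ _r' ∈ range T, ∑ t ∈ Icc 1 T, g t := by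
          simp
      _ ≤ ∑ r' ∈ range T, ∑ r ∈ range (2 * T), g ((r : ℝ) - r') := by
          refine sum_le_sum fun r' hr' => ?_
          have hr := mem_range.1 hr'
          have e : ∑ t ∈ Icc 1 T, g t =
              ∑ r ∈ (Icc 1 T).image (fun t => t + r'), g ((r : ℝ) - r') := by
            rw [sum_image (fun a _ b _ h => by simpa using h)]
            refine sum_congr rfl fun t _ => ?_
            congr 1
            push_cast
            ring
          rw [e]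
          apply sum_le_sum_of_subset_of_nonneg
          · intro r hr2
            obtain ⟨t, ht, rfl⟩ := mem_image.1 hr2
            have := mem_Icc.1 ht
            rw [mem_range]
            omega
          · intro r _ _
            exact hg0 _
      _ ≤ _ := by
          apply sum_le_sum_of_subset_of_nonneg
          · intro r hr
            rw [mem_range] at hr ⊢
            omega
          · intro r _ _
            exact sum_nonneg fun _ _ => hg0 _
  have h2 : ((∑ r' ∈ range (2 * T), ∑ r ∈ range (2 * T), g ((r : ℝ) - r') : ℝ) : ℂ) =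
      ∑ i ∈ s, ∑ j ∈ s, c i * (starRingEnd ℂ) (c j) *
        ((‖gs (2 * T) (φ i - φ j)‖ ^ 2 : ℝ) : ℂ) := by
    have e1 : ∀ ψ : ℝ, ((‖gs (2 * T) ψ‖ ^ 2 : ℝ) : ℂ) =
        ∑ r' ∈ range (2 * T), ∑ r ∈ range (2 * T), ex (((r : ℝ) - r') * ψ) := by
      intro ψ
      have := normsq_sum (range (2 * T)) (fun _ => (1 : ℂ)) (fun r => (r : ℝ) * ψ)
      simp only [one_mul, map_one] at this
      unfold gs
      rw [this, sum_comm]
      refine sum_congr rfl fun r' _ => sum_congr rfl fun r _ => ?_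
      congr 1
      ring
    simp only [Complex.ofReal_sum, hg, normsq_sum, e1, mul_sum]
    rw [sum_comm]
    simp_rw [sum_comm (s := range (2 * T)) (t := s)]
    refine sum_congr rfl fun i _ => sum_congr rfl fun j _ => ?_
    rw [sum_comm]
    refine sum_congr rfl fun r' _ => sum_congr rfl fun r _ => ?_
    congr 2
    ring
  refine h1.trans ?_
  have h3 : (∑ r' ∈ range (2 * T), ∑ r ∈ range (2 * T), g ((r : ℝ) - r') : ℝ) ≤
      ‖((∑ r' ∈ range (2 * T), ∑ r ∈ range (2 * T), g ((r : ℝ) - r') : ℝ) : ℂ)‖ := by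
    rw [Complex.norm_real, Real.norm_eq_abs]
    exact le_abs_self _
  refine h3.trans ?_
  rw [h2]
  refine (norm_sum_le _ _).trans (sum_le_sum fun i _ => ?_)
  refine (norm_sum_le _ _).trans (sum_le_sum fun j _ => ?_)
  rw [norm_mul, norm_mul, Complex.norm_conj, Complex.norm_real, Real.norm_eq_abs,
    abs_of_nonneg (by positivity)]

lemma sum_kp_nat {L : ℝ} (hL : 0 < L) (n : ℕ) :
    ∑ z ∈ range n, kp (((z : ℝ) + 1) / L) ≤ 2 * L := by
  have key : ∑ z ∈ range n, kp (((z : ℝ) + 1) / L) ≤ 2 * L - 2 * L ^ 2 / (L + n) := by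
    induction n with
    | zero =>
      simp only [range_zero, sum_empty, Nat.cast_zero, add_zero]
      have : 2 * L ^ 2 / L = 2 * L := by field_simp
      linarith
    | succ n ih =>
      rw [sum_range_succ]
      have hn : (0 : ℝ) ≤ n := Nat.cast_nonneg n
      have h1 : kp (((n : ℝ) + 1) / L) ≤ 2 * L ^ 2 / (L + n) - 2 * L ^ 2 / (L + (n + 1)) := by
        have e1 : kp (((n : ℝ) + 1) / L) = L ^ 2 / (L ^ 2 + (n + 1) ^ 2) := by
          unfold kp
          field_simp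
        have e2 : 2 * L ^ 2 / (L + n) - 2 * L ^ 2 / (L + (n + 1)) =
            2 * L ^ 2 / ((L + n) * (L + (n + 1))) := by
          field_simp
          ring
        rw [e1, e2, div_le_div_iff₀ (by positivity) (by positivity)]
        have : (L + n) * (L + (n + 1)) ≤ 2 * (L ^ 2 + (n + 1) ^ 2) := by
          nlinarith [sq_nonneg (L - (n + 1))]
        nlinarith [mul_le_mul_of_nonneg_left this (sq_nonneg L)]
      push_cast
      linarith
  have : 0 ≤ 2 * L ^ 2 / (L + n) := by positivity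
  linarith

lemma sum_kp_nat' {L : ℝ} (hL : 0 < L) (n : ℕ) :
    ∑ z ∈ range n, kp ((z : ℝ) / L) ≤ 1 + 2 * L := by
  rcases n with _ | n
  · simp only [range_zero, sum_empty]; positivity
  · rw [sum_range_succ']
    have h1 := sum_kp_nat hL n
    have h2 := kp_le_one (((0 : ℕ) : ℝ) / L)
    push_cast at h1 h2 ⊢
    linarith

lemma sum_kp_one_sided {ι : Type*} (s : Finset ι) (y : ι → ℝ)
    (hsep : ∀ i ∈ s, ∀ j ∈ s, i ≠ j → 1 ≤ |y i - y j|) (hy : ∀ i ∈ s, 0 ≤ y i)
    {L : ℝ} (hL : 0 < L) : ∑ i ∈ s, kp (y i / L) ≤ 1 + 2 * L := by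
  classical
  have hinj : ∀ i ∈ s, ∀ j ∈ s, ⌊y i⌋₊ = ⌊y j⌋₊ → i = j := by
    intro i hi j hj h
    by_contra hne
    have h1 := hsep i hi j hj hne
    have a1 := Nat.floor_le (hy i hi)
    have a2 := Nat.floor_le (hy j hj)
    have b1 := Nat.lt_floor_add_one (y i)
    have b2 := Nat.lt_floor_add_one (y j)
    rw [h] at a1 b1
    have : |y i - y j| < 1 := by rw [abs_lt]; constructor <;> linarith
    linarith
  calc ∑ i ∈ s, kp (y i / L) ≤ ∑ i ∈ s, kp ((⌊y i⌋₊ : ℝ) / L) := by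
        refine sum_le_sum fun i hi => kp_anti ?_
        apply pow_le_pow_left₀ (by positivity)
        exact div_le_div_of_nonneg_right (Nat.floor_le (hy i hi)) hL.le
    _ = ∑ z ∈ s.image (fun i => ⌊y i⌋₊), kp ((z : ℝ) / L) := by
        rw [sum_image hinj]
    _ ≤ ∑ z ∈ range ((s.image (fun i => ⌊y i⌋₊)).sup id + 1), kp ((z : ℝ) / L) := by
        apply sum_le_sum_of_subset_of_nonneg
        · intro z hz
          rw [mem_range]
          exact Nat.lt_succ_of_le (le_sup (f := id) hz)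
        · intro z _ _
          exact (kp_pos _).le
    _ ≤ _ := sum_kp_nat' hL _

lemma sum_kp_sep {ι : Type*} (s : Finset ι) (y : ι → ℝ)
    (hsep : ∀ i ∈ s, ∀ j ∈ s, i ≠ j → 1 ≤ |y i - y j|) (c : ℝ)
    {L : ℝ} (hL : 0 < L) : ∑ i ∈ s, kp ((y i - c) / L) ≤ 2 + 4 * L := by
  classical
  rw [← sum_filter_add_sum_filter_not s (fun i => c ≤ y i)]
  have h1 := sum_kp_one_sided (s.filter (fun i => c ≤ y i)) (fun i => y i - c)
    (fun i hi j hj hne => by
      have := hsep i (mem_filter.1 hi).1 j (mem_filter.1 hj).1 hne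
      rwa [sub_sub_sub_cancel_right])
    (fun i hi => by linarith [(mem_filter.1 hi).2]) hL
  have h2 := sum_kp_one_sided (s.filter (fun i => ¬ c ≤ y i)) (fun i => c - y i)
    (fun i hi j hj hne => by
      have := hsep i (mem_filter.1 hi).1 j (mem_filter.1 hj).1 hne
      rwa [sub_sub_sub_cancel_left, abs_sub_comm])
    (fun i hi => by linarith [not_le.1 (mem_filter.1 hi).2]) hL
  have e : ∀ i, kp ((c - y i) / L) = kp ((y i - c) / L) := by
    intro i
    rw [← kp_neg]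
    congr 1
    ring
  simp only [e] at h2
  linarith

/-- Schur test for a symmetric nonnegative kernel. -/
lemma schur {ι : Type*} (s : Finset ι) (w : ι → ℝ) (K : ι → ι → ℝ)
    (hK : ∀ i ∈ s, ∀ j ∈ s, 0 ≤ K i j) (hsym : ∀ i ∈ s, ∀ j ∈ s, K i j = K j i) (B : ℝ)
    (hB : ∀ i ∈ s, ∑ j ∈ s, K i j ≤ B) :
    ∑ i ∈ s, ∑ j ∈ s, w i * w j * K i j ≤ B * ∑ i ∈ s, w i ^ 2 := by
  have h1 : ∑ i ∈ s, ∑ j ∈ s, w i * w j * K i j ≤
      ∑ i ∈ s, ∑ j ∈ s, (w i ^ 2 / 2 * K i j + w j ^ 2 / 2 * K j i) := by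
    refine sum_le_sum fun i hi => sum_le_sum fun j hj => ?_
    rw [← hsym i hi j hj]
    have := hK i hi j hj
    nlinarith [mul_nonneg this (sq_nonneg (w i - w j))]
  have h2 : ∑ i ∈ s, ∑ j ∈ s, (w i ^ 2 / 2 * K i j + w j ^ 2 / 2 * K j i) =
      ∑ i ∈ s, w i ^ 2 * ∑ j ∈ s, K i j := by
    simp only [sum_add_distrib]
    rw [sum_comm (f := fun i j => w j ^ 2 / 2 * K j i), ← sum_add_distrib]
    refine sum_congr rfl fun i _ => ?_
    rw [← mul_sum]
    ring
  rw [h2] at h1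
  refine h1.trans ?_
  rw [mul_sum]
  refine sum_le_sum fun i hi => ?_
  rw [mul_comm B]
  exact mul_le_mul_of_nonneg_left (hB i hi) (sq_nonneg _)

end Pool.Agent.MP_2a1f0e_nt
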