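import Pool.Agent.MP_2a1f0e_nt.Power

set_option autoImplicit false

open Finset

namespace Pool.Agent.MP_2a1f0e_nt

lemma pow_eq_sum {N : ℕ} (hN : 1 ≤ N) (b : ℕ → ℂ) (k t : ℕ) :
    ‖∑ a ∈ Icc N (2 * N), b a * nit t a‖ ^ (2 * k) =
      ‖∑ n ∈ Icc (N ^ k) ((2 * N) ^ k), (tr N b ^ k) n * nit t n‖ ^ 2 := by
  rw [tr_pow_sum hN b (nit t) (nit_mul t) (nit_one t) k, norm_pow, ← pow_mul, mul_comm k 2]

lemma sum_tr_pow {N : ℕ} (hN : 1 ≤ N) (b : ℕ → ℂ) (k : ℕ) :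
    ∑ n ∈ Icc (N ^ k) ((2 * N) ^ k), (tr N (fun n => ‖b n‖) ^ k) n =
      (∑ a ∈ Icc N (2 * N), ‖b a‖) ^ k := by
  have := tr_pow_sum hN (fun n => ‖b n‖) (fun _ => (1 : ℝ)) (by simp) rfl k
  simpa using this

lemma supp_ratio {N k n m : ℕ} (hn : n ∈ Icc (N ^ k) ((2 * N) ^ k))
    (hm : m ∈ Icc (N ^ k) ((2 * N) ^ k)) : n ≤ 2 ^ k * m := by
  rw [mem_Icc] at hn hm
  calc n ≤ (2 * N) ^ k := hn.2
    _ = 2 ^ k * N ^ k := mul_pow _ _ _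
    _ ≤ _ := Nat.mul_le_mul_left _ hm.1

lemma moment_low {N k T X : ℕ} (hN : 1 ≤ N) (hk : 1 ≤ k) (hT : N ^ k ≤ T) (b : ℕ → ℂ)
    (hb : ∀ n, ‖b n‖ ≤ 1) {τ : ℝ} (hτ1 : 1 ≤ τ) (hX : (2 * N) ^ k ≤ X)
    (hτ : ∀ n ≤ X, (n.divisors.card : ℝ) ≤ τ) :
    ∑ t ∈ Icc 1 T, ‖∑ a ∈ Icc N (2 * N), b a * nit t a‖ ^ (2 * k) ≤
      8 * k * (2 + 4 * 2 ^ (k + 1)) * (τ ^ k * (T * (∑ a ∈ Icc N (2 * N), ‖b a‖) ^ k)) := by
  have hNk : 1 ≤ N ^ k := Nat.one_le_pow _ _ hN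
  simp_rw [pow_eq_sum hN b k]
  set S := Icc (N ^ k) ((2 * N) ^ k) with hS
  set u : ℕ → ℝ := fun n => (tr N (fun n => ‖b n‖) ^ k) n with hu
  have h1 := mv_kernel S (fun n => (tr N b ^ k) n) u (fun n _ => tr_pow_norm N b k n) k T hk
    (hNk.trans hT) (((2 * N) ^ k : ℕ) : ℝ) (2 ^ (k + 1)) (by positivity)
    (by
      have : (N : ℝ) ^ k ≤ T := by exact_mod_cast hT
      push_cast
      rw [mul_pow, pow_succ]
      have : (0 : ℝ) < 2 ^ k := by positivity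
      nlinarith)
    (fun n hn => hNk.trans (mem_Icc.1 hn).1)
    (fun n hn => by exact_mod_cast (mem_Icc.1 hn).2)
    (fun n hn m hm => supp_ratio hn hm)
  have h2 := kernel_schur S u (H := 2 ^ (k + 1)) (by positivity)
  have h3 : ∑ n ∈ S, u n ^ 2 ≤ τ ^ k * (∑ a ∈ Icc N (2 * N), ‖b a‖) ^ k := by
    rw [← sum_tr_pow hN b k, mul_sum]
    refine sum_le_sum fun n hn => ?_
    have a1 := tr_pow_le N b hb hτ1 hτ k n ((mem_Icc.1 hn).2.trans hX)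
    have a2 := tr_pow_nonneg N b k n
    simp only [hu]
    nlinarith
  refine h1.trans ?_
  calc 8 * (k : ℝ) * T * ∑ n ∈ S, ∑ m ∈ S, u n * u m * kp (((n : ℝ) - m) / 2 ^ (k + 1))
      ≤ 8 * (k : ℝ) * T * ((2 + 4 * 2 ^ (k + 1)) * (τ ^ k * (∑ a ∈ Icc N (2 * N), ‖b a‖) ^ k)) := by
        apply mul_le_mul_of_nonneg_left _ (by positivity)
        exact h2.trans (mul_le_mul_of_nonneg_left h3 (by positivity))
    _ = _ := by ring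

lemma moment_high {N k j m T : ℕ} (hN : 1 ≤ N) (hjm : j + m = k + 1) (hj : 2 * j ≤ k + 1)
    (hT1 : 1 ≤ T) (hT : T ≤ (2 * N) ^ (k + 1)) (b : ℕ → ℂ)
    (hb : ∀ n, ‖b n‖ ≤ 1) {τ : ℝ} (hτ1 : 1 ≤ τ)
    (hτ : ∀ n ≤ (2 * N) ^ (k + 1), (n.divisors.card : ℝ) ≤ τ) :
    ∑ t ∈ Icc 1 T, ‖∑ a ∈ Icc N (2 * N), b a * nit t a‖ ^ (2 * (k + 1)) ≤
      144 * (k + 1) * (6 * τ ^ m * (((2 * N : ℝ) ^ (k + 1) / (N : ℝ) ^ j) *
        (∑ a ∈ Icc N (2 * N), ‖b a‖) ^ (k + 1 + j)) +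
        1296 * 2 ^ j * τ ^ (2 * m + 1 + j) * (T * ((2 * N : ℝ) ^ (k + 1) / (N : ℝ) ^ j) *
          (∑ a ∈ Icc N (2 * N), ‖b a‖) ^ j)) := by
  have hNk : 1 ≤ N ^ (k + 1) := Nat.one_le_pow _ _ hN
  have hNj : 1 ≤ N ^ j := Nat.one_le_pow _ _ hN
  have hN' : (1 : ℝ) ≤ N := by exact_mod_cast hN
  simp_rw [pow_eq_sum hN b (k + 1)]
  set X := (2 * N) ^ (k + 1) with hX
  set M := ∑ a ∈ Icc N (2 * N), ‖b a‖ with hM
  have hM0 : 0 ≤ M := sum_nonneg fun _ _ => norm_nonneg _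
  set S := Icc (N ^ (k + 1)) X with hS
  set A := Icc (N ^ j) ((2 * N) ^ j) with hA
  set u : ℕ → ℝ := fun n => (tr N (fun n => ‖b n‖) ^ (k + 1)) n with hu
  set α : ℕ → ℝ := fun n => (tr N (fun n => ‖b n‖) ^ j) n with hα
  set H : ℕ := 2 * X / T + 1 with hH
  have hH1 : 1 ≤ H := Nat.le_add_left 1 _
  have hX1 : 1 ≤ X := hT1.trans hT
  have hTH1 : 2 * X ≤ T * H := (Nat.lt_mul_div_succ (2 * X) hT1).le
  have hTH2 : T * H ≤ 3 * X := by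
    have := Nat.mul_div_le (2 * X) T
    rw [hH, mul_add]
    omega
  have hH3 : H ≤ 3 * X := by nlinarith
  have hP2 : ((2 * N) ^ j) ^ 2 ≤ X := by
    rw [← pow_mul, hX]
    exact Nat.pow_le_pow_right (by omega) (by omega)
  have hP2' : (2 * N) ^ j ≤ X := by
    rw [hX]
    exact Nat.pow_le_pow_right (by omega) (by omega)
  have hH' : (1 : ℝ) ≤ H := by exact_mod_cast hH1
  have hS1 : ∀ n ∈ S, 1 ≤ n := fun n hn => hNk.trans (mem_Icc.1 hn).1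
  have hSY : ∀ n ∈ S, n + H ≤ X + H := fun n hn => Nat.add_le_add_right (mem_Icc.1 hn).2 _
  have h1 := mv_kernel S (fun n => (tr N b ^ (k + 1)) n) u
    (fun n _ => tr_pow_norm N b (k + 1) n) (k + 1) T (by omega) hT1 (X : ℝ) H (by linarith)
    (by exact_mod_cast hTH1) hS1
    (fun n hn => by exact_mod_cast (mem_Icc.1 hn).2)
    (fun n hn m hm => supp_ratio hn hm)
  have hu0 : ∀ n ∈ S, 0 ≤ u n := fun n _ => tr_pow_nonneg N b _ n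
  have hα0 : ∀ n ∈ A, 0 ≤ α n := fun n _ => tr_pow_nonneg N b _ n
  have h2 := kernel_window S u hu0 hH1 hS1 hSY
  have h3 := dispersion S A u α hu0 hα0 (Λ := τ ^ m) (by positivity)
    (fun n hn => by
      have := tr_pow_add_le N b hb hτ1 hτ j m n (mem_Icc.1 hn).2
      rw [hjm] at this
      exact this) hS1 hSY
  have h4 := variance A α hα0 (am := τ ^ j)
    (fun a ha => tr_pow_le N b hb hτ1 hτ j a ((mem_Icc.1 ha).2.trans hP2'))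
    hNj (Nat.one_le_pow _ _ (by omega)) (fun a ha => (mem_Icc.1 ha).1)
    (fun a ha => (mem_Icc.1 ha).2) (τ := τ) (fun a ha => hτ a ((mem_Icc.1 ha).2.trans hP2'))
    hH1 (Y := X + H) (by omega)
  have e1 : ∑ n ∈ S, u n = M ^ (k + 1) := sum_tr_pow hN b (k + 1)
  have e2 : ∑ n ∈ A, α n = M ^ j := sum_tr_pow hN b j
  have hσ : ∑ a ∈ A, α a / a ≤ M ^ j / (N : ℝ) ^ j := by
    rw [← e2, sum_div]
    refine sum_le_sum fun a ha => ?_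
    apply div_le_div_of_nonneg_left (hα0 a ha) (by positivity)
    exact_mod_cast (mem_Icc.1 ha).1
  rw [e1] at h3
  rw [e2] at h4
  have hY : 2 * ((X + H : ℕ) : ℝ) + (((2 * N) ^ j : ℕ) : ℝ) ^ 2 ≤ 9 * X := by
    have : 2 * (X + H) + ((2 * N) ^ j) ^ 2 ≤ 9 * X := by omega
    exact_mod_cast this
  have e3 : 6 * H * τ * τ ^ j * (((2 * N) ^ j : ℕ) : ℝ) / ((N ^ j : ℕ) : ℝ) ^ 2 * M ^ j =
      H * (6 * τ ^ (1 + j) * 2 ^ j / (N : ℝ) ^ j * M ^ j) := by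
    push_cast
    rw [mul_pow]
    field_simp
    ring
  rw [e3] at h4
  have h5 := h4.trans (mul_le_mul_of_nonneg_right (mul_le_mul_of_nonneg_left hY (by norm_num))
    (by positivity))
  set Z := ∑ n ∈ S, ∑ m ∈ S, u n * u m * kp (((n : ℝ) - m) / H) with hZ
  have h6 : (H : ℝ) * Z ≤ H * (18 * (2 * τ ^ m * (M ^ j / (N : ℝ) ^ j) * H * M ^ (k + 1) +
      (τ ^ m) ^ 2 * (24 * (9 * X) * (6 * τ ^ (1 + j) * 2 ^ j / (N : ℝ) ^ j * M ^ j)))) := by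
    refine h2.trans ?_
    have a1 : 2 * τ ^ m * (∑ a ∈ A, α a / a) * (H : ℝ) ^ 2 * M ^ (k + 1) ≤
        2 * τ ^ m * (M ^ j / (N : ℝ) ^ j) * (H : ℝ) ^ 2 * M ^ (k + 1) := by gcongr
    have a2 := mul_le_mul_of_nonneg_left h5 (by positivity : (0 : ℝ) ≤ (τ ^ m) ^ 2)
    have a3 := h3.trans (add_le_add a1 a2)
    refine (mul_le_mul_of_nonneg_left a3 (by norm_num)).trans (le_of_eq ?_)
    ring
  have h7 := le_of_mul_le_mul_left h6 (by linarith)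
  have hTH : (T : ℝ) * H ≤ 3 * X := by exact_mod_cast hTH2
  have hXe : (X : ℝ) = (2 * N : ℝ) ^ (k + 1) := by rw [hX]; push_cast; ring
  refine h1.trans ?_
  rw [← hXe]
  calc 8 * ((k + 1 : ℕ) : ℝ) * T * Z
      ≤ 8 * ((k + 1 : ℕ) : ℝ) * T * (18 * (2 * τ ^ m * (M ^ j / (N : ℝ) ^ j) * H * M ^ (k + 1) +
        (τ ^ m) ^ 2 * (24 * (9 * X) * (6 * τ ^ (1 + j) * 2 ^ j / (N : ℝ) ^ j * M ^ j)))) :=
        mul_le_mul_of_nonneg_left h7 (by positivity)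
    _ = 144 * (k + 1) * (2 * τ ^ m * (M ^ (k + 1 + j) / (N : ℝ) ^ j) * (T * H) +
        1296 * 2 ^ j * τ ^ (2 * m + 1 + j) * (T * (X / (N : ℝ) ^ j) * M ^ j)) := by
        push_cast
        ring
    _ ≤ 144 * (k + 1) * (2 * τ ^ m * (M ^ (k + 1 + j) / (N : ℝ) ^ j) * (3 * X) +
        1296 * 2 ^ j * τ ^ (2 * m + 1 + j) * (T * (X / (N : ℝ) ^ j) * M ^ j)) := by gcongr
    _ = _ := by ring

end Pool.Agent.MP_2a1f0e_nt
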