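import Pool.Agent.MP_2a1f0e_nt.Moments
import Pool.Agent.MP_2a1f0e_nt.Div

set_option autoImplicit false

open Finset

namespace Pool.Agent.MP_2a1f0e_nt

lemma split_pow {x V s : ℝ} (hx : 0 ≤ x) (hV : 0 < V) (hs0 : 0 ≤ s) (hs1 : s ≤ 1) (k : ℕ)
    (hk : 1 ≤ k) :
    x ^ (2 * ((k : ℝ) + s)) ≤ V ^ (2 * s) * x ^ (2 * k) + V ^ (2 * s - 2) * x ^ (2 * (k + 1)) := by
  have hk' : (1 : ℝ) ≤ k := by exact_mod_cast hk
  rcases hx.eq_or_lt with rfl | hx'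
  · rw [Real.zero_rpow (by positivity)]
    positivity
  rcases le_total x V with h | h
  · have e : x ^ (2 * ((k : ℝ) + s)) = x ^ (2 * s) * x ^ (2 * k) := by
      rw [← Real.rpow_natCast, ← Real.rpow_add hx']
      congr 1
      push_cast
      ring
    have h1 : x ^ (2 * s) ≤ V ^ (2 * s) := Real.rpow_le_rpow hx h (by positivity)
    rw [e]
    have : x ^ (2 * s) * x ^ (2 * k) ≤ V ^ (2 * s) * x ^ (2 * k) :=
      mul_le_mul_of_nonneg_right h1 (by positivity)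
    have : 0 ≤ V ^ (2 * s - 2) * x ^ (2 * (k + 1)) := by positivity
    linarith
  · have e : x ^ (2 * ((k : ℝ) + s)) = x ^ (2 * s - 2) * x ^ (2 * (k + 1)) := by
      rw [← Real.rpow_natCast, ← Real.rpow_add hx']
      congr 1
      push_cast
      ring
    have h1 : x ^ (2 * s - 2) ≤ V ^ (2 * s - 2) := Real.rpow_le_rpow_of_nonpos hV h (by linarith)
    rw [e]
    have : x ^ (2 * s - 2) * x ^ (2 * (k + 1)) ≤ V ^ (2 * s - 2) * x ^ (2 * (k + 1)) :=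
      mul_le_mul_of_nonneg_right h1 (by positivity)
    have : 0 ≤ V ^ (2 * s) * x ^ (2 * k) := by positivity
    linarith

lemma blocks (F : ℕ → ℝ) (hF : ∀ t, 0 ≤ F t) {T0 : ℕ} (hT0 : 1 ≤ T0) (T : ℕ) {B : ℝ}
    (hB : ∀ r, ∑ t ∈ Icc 1 T0, F (r + t) ≤ B) :
    ∑ t ∈ Icc 1 T, F t ≤ ((T : ℝ) / T0 + 1) * B := by
  have key : ∀ r : ℕ, ∑ t ∈ Icc 1 (r * T0), F t ≤ r * B := by
    intro r
    induction r with
    | zero => simp
    | succ r ih =>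
      have e : ∑ t ∈ Icc 1 ((r + 1) * T0), F t =
          ∑ t ∈ Icc 1 (r * T0), F t + ∑ t ∈ Icc 1 T0, F (r * T0 + t) := by
        have e1 : ∀ n : ℕ, Icc 1 n = Ico 1 (n + 1) := fun n => rfl
        rw [e1, e1, e1, sum_Ico_add, add_comm 1 (r * T0)]
        have e2 : T0 + 1 + r * T0 = (r + 1) * T0 + 1 := by ring
        rw [e2, sum_Ico_consecutive _ (by omega) (by nlinarith)]
      rw [e]
      have := hB (r * T0)
      push_cast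
      linarith
  have hB0 : 0 ≤ B := le_trans (sum_nonneg fun t _ => hF _) (hB 0)
  have h1 : ∑ t ∈ Icc 1 T, F t ≤ ∑ t ∈ Icc 1 ((T / T0 + 1) * T0), F t := by
    apply sum_le_sum_of_subset_of_nonneg
    · apply Icc_subset_Icc_right
      have := Nat.lt_mul_div_succ T hT0
      rw [mul_comm]
      exact this.le
    · intro t _ _
      exact hF t
  refine h1.trans ((key _).trans (mul_le_mul_of_nonneg_right ?_ hB0))
  push_cast
  have := Nat.cast_div_le (α := ℝ) (m := T) (n := T0)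
  linarith

lemma block_bound (k j : ℕ) (hk : 1 ≤ k) (hj : 2 * j ≤ k + 1) {s : ℝ} (hs0 : 0 ≤ s) (hs1 : s ≤ 1)
    {ε : ℝ} (hε : 0 < ε) {c : ℝ} (hc : 1 ≤ c) :
    ∃ K : ℝ, 0 ≤ K ∧ ∀ N : ℕ, 1 ≤ N → ∀ b : ℕ → ℂ, (∀ n, ‖b n‖ ≤ 1) →
      ∑ n ∈ Icc N (2 * N), ‖b n‖ ≤ c * (N : ℝ) ^ (1 - s * (1 - s) / (k + (1 + j) * s)) →
      ∑ t ∈ Icc 1 ⌈(N : ℝ) ^ ((k : ℝ) + s)⌉₊,
          ‖∑ a ∈ Icc N (2 * N), b a * nit t a‖ ^ (2 * ((k : ℝ) + s)) ≤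
        K * (N : ℝ) ^ ε * (N : ℝ) ^ (2 * ((k : ℝ) + s)) := by
  have hk' : (1 : ℝ) ≤ k := by exact_mod_cast hk
  obtain ⟨C, hC1, hC⟩ := divisor_bound (ε := ε / ((k + 1) * (2 * k + 3))) (by positivity)
  obtain ⟨m, hm⟩ : ∃ m, j + m = k + 1 := ⟨k + 1 - j, by omega⟩
  refine ⟨C ^ (2 * k + 3) * 2 ^ ε * c ^ (2 * k + 2) *
    (16 * k * (2 + 4 * 2 ^ (k + 1)) + 144 * (k + 1) * (6 * 2 ^ (k + 1) +
      1296 * 2 ^ j * 2 ^ (k + 2))), by positivity, ?_⟩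
  intro N hN b hb hM
  have hN' : (1 : ℝ) ≤ N := by exact_mod_cast hN
  have hN0 : (0 : ℝ) < N := by linarith
  set D : ℝ := k + (1 + j) * s with hD
  have hD0 : 0 < D := by positivity
  set θ : ℝ := 1 - s * (1 - s) / D with hθ
  set v : ℝ := 1 / 2 + k * (1 - s) / (2 * D) with hv
  set M := ∑ a ∈ Icc N (2 * N), ‖b a‖ with hMdef
  have hM0 : 0 ≤ M := sum_nonneg fun _ _ => norm_nonneg _
  set T0 := ⌈(N : ℝ) ^ ((k : ℝ) + s)⌉₊ with hT0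
  have hp1 : (1 : ℝ) ≤ (N : ℝ) ^ ((k : ℝ) + s) := Real.one_le_rpow hN' (by positivity)
  have hT0a : (N : ℝ) ^ ((k : ℝ) + s) ≤ T0 := Nat.le_ceil _
  have hT0b : (T0 : ℝ) ≤ 2 * (N : ℝ) ^ ((k : ℝ) + s) := by
    have := Nat.ceil_lt_add_one (a := (N : ℝ) ^ ((k : ℝ) + s)) (by positivity)
    linarith
  have hT0c : N ^ k ≤ T0 := by
    have : (N : ℝ) ^ (k : ℝ) ≤ (N : ℝ) ^ ((k : ℝ) + s) :=
      Real.rpow_le_rpow_of_exponent_le hN' (by linarith)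
    rw [Real.rpow_natCast] at this
    exact_mod_cast this.trans hT0a
  have hT0d : T0 ≤ (2 * N) ^ (k + 1) := by
    rw [hT0, Nat.ceil_le]
    have : (N : ℝ) ^ ((k : ℝ) + s) ≤ (N : ℝ) ^ (((k + 1 : ℕ) : ℝ)) :=
      Real.rpow_le_rpow_of_exponent_le hN' (by push_cast; linarith)
    rw [Real.rpow_natCast] at this
    refine this.trans ?_
    push_cast
    exact pow_le_pow_left₀ (by positivity) (by linarith) _
  have hT01 : 1 ≤ T0 := (Nat.one_le_pow _ _ hN).trans hT0c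
  set τ : ℝ := C * (((2 * N) ^ (k + 1) : ℕ) : ℝ) ^ (ε / ((k + 1) * (2 * k + 3))) with hτdef
  have hX1 : (1 : ℝ) ≤ (((2 * N) ^ (k + 1) : ℕ) : ℝ) := by exact_mod_cast hT01.trans hT0d
  have hτ1 : 1 ≤ τ := by
    have := Real.one_le_rpow hX1 (z := ε / ((k + 1) * (2 * k + 3))) (by positivity)
    nlinarith
  have hτ : ∀ n ≤ (2 * N) ^ (k + 1), (n.divisors.card : ℝ) ≤ τ := by
    intro n hn
    refine (hC n).trans (mul_le_mul_of_nonneg_left ?_ (by linarith))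
    exact Real.rpow_le_rpow (by positivity) (by exact_mod_cast hn) (by positivity)
  have hτp : τ ^ (2 * k + 3) = C ^ (2 * k + 3) * 2 ^ ε * (N : ℝ) ^ ε := by
    rw [hτdef, mul_pow, mul_assoc, ← Real.mul_rpow (by norm_num) (by positivity)]
    congr 1
    push_cast
    rw [← Real.rpow_natCast, ← Real.rpow_natCast, ← Real.rpow_mul (by positivity),
      ← Real.rpow_mul (by positivity)]
    congr 1
    push_cast
    field_simp
  have hτi : ∀ i ≤ 2 * k + 3, τ ^ i ≤ τ ^ (2 * k + 3) := fun i hi => pow_le_pow_right₀ hτ1 hi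
  have hMi : ∀ i ≤ 2 * k + 2, M ^ i ≤ c ^ (2 * k + 2) * (N : ℝ) ^ (θ * i) := by
    intro i hi
    calc M ^ i ≤ (c * (N : ℝ) ^ θ) ^ i := pow_le_pow_left₀ hM0 hM i
      _ = c ^ i * (N : ℝ) ^ (θ * i) := by rw [mul_pow, Real.rpow_mul_natCast hN0.le]
      _ ≤ _ := mul_le_mul_of_nonneg_right (pow_le_pow_right₀ hc hi) (by positivity)
  have hlow := moment_low hN hk hT0c b hb hτ1
    (Nat.pow_le_pow_right (by omega) (Nat.le_succ k)) hτ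
  have hhigh := moment_high hN hm hj hT01 hT0d b hb hτ1 hτ
  rw [← hMdef] at hlow hhigh
  set V : ℝ := (N : ℝ) ^ v with hV
  have hV0 : 0 < V := by positivity
  have hXj : (2 * N : ℝ) ^ (k + 1) / (N : ℝ) ^ j = 2 ^ (k + 1) * (N : ℝ) ^ ((k : ℝ) + 1 - j) := by
    rw [mul_pow, mul_div_assoc, Real.rpow_sub hN0, Real.rpow_natCast]
    congr 2
    rw [← Real.rpow_natCast]
    push_cast
    rfl
  set Q : ℝ := (N : ℝ) ^ (2 * ((k : ℝ) + s)) with hQ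
  have E1 : V ^ (2 * s) * ((N : ℝ) ^ ((k : ℝ) + s) * (N : ℝ) ^ (θ * k)) = Q := by
    rw [hV, ← Real.rpow_mul hN0.le, ← Real.rpow_add hN0, ← Real.rpow_add hN0, hQ]
    congr 1
    rw [hv, hθ]
    field_simp
    ring
  have E2 : V ^ (2 * s - 2) * ((N : ℝ) ^ ((k : ℝ) + 1 - j) *
      (N : ℝ) ^ (θ * ((k + 1 + j : ℕ) : ℝ))) = Q := by
    rw [hV, ← Real.rpow_mul hN0.le, ← Real.rpow_add hN0, ← Real.rpow_add hN0, hQ]
    congr 1
    rw [hv, hθ]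
    push_cast
    field_simp
    rw [hD]
    ring
  have E3 : V ^ (2 * s - 2) * ((N : ℝ) ^ ((k : ℝ) + s) * (N : ℝ) ^ ((k : ℝ) + 1 - j) *
      (N : ℝ) ^ (θ * j)) ≤ Q := by
    rw [hV, ← Real.rpow_mul hN0.le, ← Real.rpow_add hN0, ← Real.rpow_add hN0,
      ← Real.rpow_add hN0, hQ]
    apply Real.rpow_le_rpow_of_exponent_le hN'
    have a1 : 1 / 2 ≤ v := by
      have : 0 ≤ k * (1 - s) / (2 * D) := div_nonneg (mul_nonneg (by linarith) (by linarith))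
        (by linarith)
      linarith
    have a2 : θ ≤ 1 := by
      have : 0 ≤ s * (1 - s) / D := div_nonneg (mul_nonneg hs0 (by linarith)) hD0.le
      linarith
    have a3 : θ * j ≤ j := by
      have : (0 : ℝ) ≤ j := by positivity
      nlinarith
    nlinarith
  set W : ℝ := τ ^ (2 * k + 3) * c ^ (2 * k + 2) with hW
  have b1 : V ^ (2 * s) * (τ ^ k * (T0 * M ^ k)) ≤ W * (2 * Q) := by
    calc V ^ (2 * s) * (τ ^ k * (T0 * M ^ k))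
        ≤ V ^ (2 * s) * (τ ^ (2 * k + 3) * ((2 * (N : ℝ) ^ ((k : ℝ) + s)) *
          (c ^ (2 * k + 2) * (N : ℝ) ^ (θ * k)))) := by
          have := hτi k (by omega)
          have := hMi k (by omega)
          gcongr
      _ = W * (2 * Q) := by rw [← E1, hW]; ring
  have b2 : V ^ (2 * s - 2) * (τ ^ m * (((2 * N : ℝ) ^ (k + 1) / (N : ℝ) ^ j) * M ^ (k + 1 + j))) ≤
      W * (2 ^ (k + 1) * Q) := by
    rw [hXj]
    calc V ^ (2 * s - 2) * (τ ^ m * ((2 ^ (k + 1) * (N : ℝ) ^ ((k : ℝ) + 1 - j)) * M ^ (k + 1 + j)))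
        ≤ V ^ (2 * s - 2) * (τ ^ (2 * k + 3) * ((2 ^ (k + 1) * (N : ℝ) ^ ((k : ℝ) + 1 - j)) *
          (c ^ (2 * k + 2) * (N : ℝ) ^ (θ * ((k + 1 + j : ℕ) : ℝ))))) := by
          have := hτi m (by omega)
          have := hMi (k + 1 + j) (by omega)
          gcongr
      _ = W * (2 ^ (k + 1) * Q) := by rw [← E2, hW]; ring
  have b3 : V ^ (2 * s - 2) * (τ ^ (2 * m + 1 + j) *
      (T0 * ((2 * N : ℝ) ^ (k + 1) / (N : ℝ) ^ j) * M ^ j)) ≤ W * (2 ^ (k + 2) * Q) := by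
    rw [hXj]
    calc V ^ (2 * s - 2) * (τ ^ (2 * m + 1 + j) *
          (T0 * (2 ^ (k + 1) * (N : ℝ) ^ ((k : ℝ) + 1 - j)) * M ^ j))
        ≤ V ^ (2 * s - 2) * (τ ^ (2 * k + 3) * ((2 * (N : ℝ) ^ ((k : ℝ) + s)) *
          (2 ^ (k + 1) * (N : ℝ) ^ ((k : ℝ) + 1 - j)) *
          (c ^ (2 * k + 2) * (N : ℝ) ^ (θ * j)))) := by
          have := hτi (2 * m + 1 + j) (by omega)
          have := hMi j (by omega)
          gcongr
      _ = W * (2 ^ (k + 2) * (V ^ (2 * s - 2) * ((N : ℝ) ^ ((k : ℝ) + s) *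
          (N : ℝ) ^ ((k : ℝ) + 1 - j) * (N : ℝ) ^ (θ * j)))) := by rw [hW]; ring
      _ ≤ _ := by gcongr
  calc ∑ t ∈ Icc 1 T0, ‖∑ a ∈ Icc N (2 * N), b a * nit t a‖ ^ (2 * ((k : ℝ) + s))
      ≤ ∑ t ∈ Icc 1 T0, (V ^ (2 * s) * ‖∑ a ∈ Icc N (2 * N), b a * nit t a‖ ^ (2 * k) +
          V ^ (2 * s - 2) * ‖∑ a ∈ Icc N (2 * N), b a * nit t a‖ ^ (2 * (k + 1))) :=
        sum_le_sum fun t _ => split_pow (norm_nonneg _) hV0 hs0 hs1 k hk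
    _ ≤ V ^ (2 * s) * (8 * k * (2 + 4 * 2 ^ (k + 1)) * (τ ^ k * (T0 * M ^ k))) +
        V ^ (2 * s - 2) * (144 * (k + 1) * (6 * τ ^ m * (((2 * N : ℝ) ^ (k + 1) / (N : ℝ) ^ j) *
          M ^ (k + 1 + j)) + 1296 * 2 ^ j * τ ^ (2 * m + 1 + j) *
          (T0 * ((2 * N : ℝ) ^ (k + 1) / (N : ℝ) ^ j) * M ^ j))) := by
        rw [sum_add_distrib, ← mul_sum, ← mul_sum]
        gcongr
    _ = 8 * k * (2 + 4 * 2 ^ (k + 1)) * (V ^ (2 * s) * (τ ^ k * (T0 * M ^ k))) +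
        144 * (k + 1) * (6 * (V ^ (2 * s - 2) * (τ ^ m *
          (((2 * N : ℝ) ^ (k + 1) / (N : ℝ) ^ j) * M ^ (k + 1 + j)))) +
          1296 * 2 ^ j * (V ^ (2 * s - 2) * (τ ^ (2 * m + 1 + j) *
          (T0 * ((2 * N : ℝ) ^ (k + 1) / (N : ℝ) ^ j) * M ^ j)))) := by ring
    _ ≤ 8 * k * (2 + 4 * 2 ^ (k + 1)) * (W * (2 * Q)) +
        144 * (k + 1) * (6 * (W * (2 ^ (k + 1) * Q)) + 1296 * 2 ^ j * (W * (2 ^ (k + 2) * Q))) := by
        gcongr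
    _ = _ := by rw [hW, hτp]; ring

theorem sparse (k j : ℕ) (hk : 1 ≤ k) (hj : 2 * j ≤ k + 1) {s : ℝ} (hs0 : 0 ≤ s) (hs1 : s ≤ 1)
    {ε : ℝ} (hε : 0 < ε) (c : ℝ) :
    ∃ K : ℝ, ∀ N T : ℕ, 1 ≤ N → ∀ b : ℕ → ℂ, (∀ n, ‖b n‖ ≤ 1) →
      ∑ n ∈ Icc N (2 * N), ‖b n‖ ≤ c * (N : ℝ) ^ (1 - s * (1 - s) / (k + (1 + j) * s)) →
      ∑ t ∈ Icc 1 T, ‖∑ a ∈ Icc N (2 * N), b a * nit t a‖ ^ (2 * ((k : ℝ) + s)) ≤
        K * (N : ℝ) ^ ε * ((N : ℝ) ^ (2 * ((k : ℝ) + s)) + (N : ℝ) ^ ((k : ℝ) + s) * T) := by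
  obtain ⟨K, hK0, hK⟩ := block_bound k j hk hj hs0 hs1 hε (c := max c 1) (le_max_right _ _)
  refine ⟨K, fun N T hN b hb hM => ?_⟩
  have hN' : (1 : ℝ) ≤ N := by exact_mod_cast hN
  have hN0 : (0 : ℝ) < N := by linarith
  set P : ℝ := (N : ℝ) ^ ((k : ℝ) + s) with hP
  have hP0 : 0 < P := by positivity
  have hT0a : P ≤ ⌈P⌉₊ := Nat.le_ceil _
  have hT01 : 1 ≤ ⌈P⌉₊ := Nat.ceil_pos.2 hP0
  have h1 := blocks (fun t => ‖∑ a ∈ Icc N (2 * N), b a * nit t a‖ ^ (2 * ((k : ℝ) + s)))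
    (fun t => by positivity) hT01 T
    (B := K * (N : ℝ) ^ ε * (N : ℝ) ^ (2 * ((k : ℝ) + s))) (fun r => by
      have := hK N hN (fun n => b n * nit r n) (fun n => by rw [norm_mul, norm_nit, mul_one]; exact hb n)
        (by
          simp only [norm_mul, norm_nit, mul_one]
          exact hM.trans (mul_le_mul_of_nonneg_right (le_max_left _ _) (by positivity)))
      simpa only [nit_add, mul_assoc] using this)
  refine h1.trans ?_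
  have e : (N : ℝ) ^ (2 * ((k : ℝ) + s)) = P * P := by
    rw [hP, ← Real.rpow_add hN0]
    congr 1
    ring
  rw [e]
  have h2 : (T : ℝ) / ⌈P⌉₊ ≤ T / P := div_le_div_of_nonneg_left (by positivity) hP0 hT0a
  calc ((T : ℝ) / ⌈P⌉₊ + 1) * (K * (N : ℝ) ^ ε * (P * P))
      ≤ ((T : ℝ) / P + 1) * (K * (N : ℝ) ^ ε * (P * P)) := by gcongr
    _ = _ := by field_simp; ring

end Pool.Agent.MP_2a1f0e_nt
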