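import Pool.Agent.MP_2a1f0e_nt.Windows

set_option autoImplicit false

open Finset

namespace Pool.Agent.MP_2a1f0e_nt

lemma large_sieve (R : Finset ℝ) (c : ℝ → ℂ) {Q : ℝ} (hQ : 0 < Q)
    (h01 : ∀ ρ ∈ R, 0 ≤ ρ ∧ ρ ≤ 1)
    (hsep : ∀ ρ ∈ R, ∀ ρ' ∈ R, ρ ≠ ρ' → 1 ≤ |Q * ρ - Q * ρ'|) {Y : ℕ} (hY : 1 ≤ Y) :
    ∑ x ∈ Icc 1 Y, ‖∑ ρ ∈ R, c ρ * ex (x * ρ)‖ ^ 2 ≤ 24 * (2 * Y + Q) * ∑ ρ ∈ R, ‖c ρ‖ ^ 2 := by
  have hY' : (1 : ℝ) ≤ Y := by exact_mod_cast hY
  have h1 := fejer R c (fun ρ => ρ) Y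
  set Kf : ℝ → ℝ → ℝ := fun ρ ρ' =>
    kp (4 * Y * (ρ - ρ' - 1)) + kp (4 * Y * (ρ - ρ')) + kp (4 * Y * (ρ - ρ' + 1)) with hKf
  have h2 : ∑ i ∈ R, ∑ j ∈ R, ‖c i‖ * ‖c j‖ * ‖gs (2 * Y) (i - j)‖ ^ 2 ≤
      ∑ i ∈ R, ∑ j ∈ R, 8 * (Y : ℝ) ^ 2 * (‖c i‖ * ‖c j‖ * Kf i j) := by
    refine sum_le_sum fun i hi => sum_le_sum fun j hj => ?_
    have ha : |i - j| ≤ 1 := by
      rw [abs_le]
      have := h01 i hi
      have := h01 j hj
      constructor <;> linarith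
    have hg := gs_sq_le' (2 * Y) ha
    have e : 2 * ((2 * Y : ℕ) : ℝ) = 4 * Y := by push_cast; ring
    rw [e] at hg
    calc ‖c i‖ * ‖c j‖ * ‖gs (2 * Y) (i - j)‖ ^ 2
        ≤ ‖c i‖ * ‖c j‖ * (2 * ((2 * Y : ℕ) : ℝ) ^ 2 * Kf i j) :=
          mul_le_mul_of_nonneg_left hg (by positivity)
      _ = _ := by push_cast; ring
  have hrow : ∀ c0 : ℝ, ∑ j ∈ R, kp (4 * Y * (c0 - j)) ≤ 2 + Q / Y := by
    intro c0
    have := sum_kp_sep R (fun j => Q * j) hsep (Q * c0) (L := Q / (4 * Y)) (by positivity)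
    have e : 2 + 4 * (Q / (4 * Y)) = 2 + Q / Y := by field_simp
    rw [e] at this
    refine le_trans (le_of_eq ?_) this
    refine sum_congr rfl fun j _ => ?_
    rw [← kp_neg]
    congr 1
    field_simp
    ring
  have h3 := schur R (fun ρ => ‖c ρ‖) Kf
    (fun i _ j _ => by
      simp only [hKf]
      have := kp_pos (4 * Y * (i - j - 1))
      have := kp_pos (4 * Y * (i - j))
      have := kp_pos (4 * Y * (i - j + 1))
      positivity)
    (fun i _ j _ => by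
      simp only [hKf]
      have a1 : kp (4 * Y * (i - j - 1)) = kp (4 * Y * (j - i + 1)) := by
        rw [← kp_neg]; congr 1; ring
      have a2 : kp (4 * Y * (i - j)) = kp (4 * Y * (j - i)) := by
        rw [← kp_neg]; congr 1; ring
      have a3 : kp (4 * Y * (i - j + 1)) = kp (4 * Y * (j - i - 1)) := by
        rw [← kp_neg]; congr 1; ring
      rw [a1, a2, a3]
      ring)
    (3 * (2 + Q / Y))
    (fun i _ => by
      simp only [hKf, sum_add_distrib]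
      have a1 := hrow (i - 1)
      have a2 := hrow i
      have a3 := hrow (i + 1)
      have e1 : ∑ j ∈ R, kp (4 * Y * (i - j - 1)) = ∑ j ∈ R, kp (4 * Y * (i - 1 - j)) :=
        sum_congr rfl fun j _ => by congr 1; ring
      have e3 : ∑ j ∈ R, kp (4 * Y * (i - j + 1)) = ∑ j ∈ R, kp (4 * Y * (i + 1 - j)) :=
        sum_congr rfl fun j _ => by congr 1; ring
      rw [e1, e3]
      linarith)
  simp only [← mul_sum] at h2
  have h4 := h1.trans (h2.trans (mul_le_mul_of_nonneg_left h3 (by positivity)))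
  have e : 8 * (Y : ℝ) ^ 2 * (3 * (2 + Q / Y) * ∑ i ∈ R, ‖c i‖ ^ 2) =
      Y * (24 * (2 * Y + Q) * ∑ ρ ∈ R, ‖c ρ‖ ^ 2) := by
    field_simp
    ring
  rw [e] at h4
  exact le_of_mul_le_mul_left h4 (by linarith)

lemma gs_div (a : ℕ) (ha : 1 ≤ a) (m : ℤ) :
    gs a ((m : ℝ) / a) = if (a : ℤ) ∣ m then (a : ℂ) else 0 := by
  have ha' : (a : ℝ) ≠ 0 := by positivity
  split_ifs with h
  · obtain ⟨r, rfl⟩ := h
    have : (((a : ℤ) * r : ℤ) : ℝ) / a = 0 + (r : ℝ) := by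
      push_cast
      field_simp
      ring
    rw [this, gs_add_int]
    simp [gs, ex_zero]
  · have h1 := gs_mul a ((m : ℝ) / a)
    have e : (a : ℝ) * ((m : ℝ) / a) = m := by field_simp
    rw [e, ex_int, sub_self] at h1
    rcases mul_eq_zero.1 h1 with h2 | h2
    · exact h2
    · exfalso
      apply h
      have h3 : ex ((m : ℝ) / a) = 1 := sub_eq_zero.1 h2
      unfold ex at h3
      obtain ⟨r, hr⟩ := Complex.exp_eq_one_iff.1 h3
      have h4 : ((2 * Real.pi * ((m : ℝ) / a) : ℝ) : ℂ) = ((2 * Real.pi * r : ℝ) : ℂ) := by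
        apply mul_left_cancel₀ Complex.I_ne_zero
        rw [hr]
        push_cast
        ring
      have h5 : 2 * Real.pi * ((m : ℝ) / a) = 2 * Real.pi * r := by exact_mod_cast h4
      have h6 : (m : ℝ) / a = r := mul_left_cancel₀ (by positivity) h5
      rw [div_eq_iff ha'] at h6
      refine ⟨r, ?_⟩
      have : (m : ℝ) = ((a * r : ℤ) : ℝ) := by rw [h6]; push_cast; ring
      exact_mod_cast this

/-- indicator of divisibility -/
def dv (a : ℕ) (m : ℤ) : ℝ := if (a : ℤ) ∣ m then 1 else 0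

lemma dv_nonneg (a : ℕ) (m : ℤ) : 0 ≤ dv a m := by unfold dv; split_ifs <;> norm_num

lemma dv_sub (a : ℕ) (ha : 1 ≤ a) (m : ℤ) :
    ((dv a m - 1 / a : ℝ) : ℂ) = ∑ l ∈ Ico 1 a, ((1 / a : ℝ) : ℂ) * ex (m * ((l : ℝ) / a)) := by
  have ha' : (a : ℂ) ≠ 0 := by
    have : a ≠ 0 := by omega
    exact_mod_cast this
  have h := gs_div a ha m
  unfold gs at h
  rw [range_eq_Ico, sum_eq_sum_Ico_succ_bot (by omega)] at h
  simp only [Nat.cast_zero, zero_mul, ex_zero, zero_add] at h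
  have e : ∑ l ∈ Ico 1 a, ex (m * ((l : ℝ) / a)) = ∑ l ∈ Ico 1 a, ex (l * ((m : ℝ) / a)) :=
    sum_congr rfl fun l _ => by congr 1; ring
  rw [← mul_sum, e, eq_sub_of_add_eq' h]
  unfold dv
  split_ifs
  · push_cast
    field_simp
  · push_cast
    field_simp
    ring

lemma sum_kp_inj (F : Finset ℕ) (ψ : ℕ → ℕ) (hψ : Set.InjOn ψ F) {L : ℝ} (hL : 0 < L) :
    ∑ l ∈ F, kp (((ψ l : ℝ) + 1) / L) ≤ 2 * L := by
  have e : ∑ l ∈ F, kp (((ψ l : ℝ) + 1) / L) = ∑ z ∈ F.image ψ, kp (((z : ℝ) + 1) / L) := by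
    rw [sum_image hψ]
  rw [e]
  refine le_trans ?_ (sum_kp_nat hL ((F.image ψ).sup id + 1))
  apply sum_le_sum_of_subset_of_nonneg
  · intro z hz
    rw [mem_range, Nat.lt_succ_iff]
    exact le_sup (f := id) hz
  · intro _ _ _
    exact (kp_pos _).le

lemma sum_gs_mult {a d H : ℕ} (ha : 1 ≤ a) (hd : d ∣ a) (hH : 1 ≤ H) :
    (d : ℝ) / a * ∑ l ∈ (Ico 1 a).filter (fun l => d ∣ l), ‖gs H (-((l : ℝ) / a))‖ ^ 2 ≤ 6 * H := by
  obtain ⟨e, rfl⟩ := hd
  have hd1 : 1 ≤ d := Nat.pos_of_mul_pos_right ha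
  have he1 : 1 ≤ e := Nat.pos_of_mul_pos_left ha
  have hd' : (1 : ℝ) ≤ d := by exact_mod_cast hd1
  have he' : (1 : ℝ) ≤ e := by exact_mod_cast he1
  have hH' : (1 : ℝ) ≤ H := by exact_mod_cast hH
  set F := (Ico 1 (d * e)).filter (fun l => d ∣ l) with hF
  have hmem : ∀ l ∈ F, ∃ r, l = d * r ∧ 1 ≤ r ∧ r < e := by
    intro l hl
    obtain ⟨h1, r, rfl⟩ := mem_filter.1 hl
    have h2 := mem_Ico.1 h1
    exact ⟨r, rfl, Nat.pos_of_mul_pos_left h2.1, Nat.lt_of_mul_lt_mul_left h2.2⟩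
  have hL : (0 : ℝ) < e / (2 * H) := by positivity
  have s1 := sum_kp_inj F (fun l => l / d - 1) (by
    intro l hl l' hl' h
    obtain ⟨r, rfl, r1, -⟩ := hmem l hl
    obtain ⟨r', rfl, r1', -⟩ := hmem l' hl'
    simp only [Nat.mul_div_cancel_left _ hd1] at h
    have : r = r' := by omega
    rw [this]) hL
  have s2 := sum_kp_inj F (fun l => e - l / d - 1) (by
    intro l hl l' hl' h
    obtain ⟨r, rfl, r1, r2⟩ := hmem l hl
    obtain ⟨r', rfl, r1', r2'⟩ := hmem l' hl'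
    simp only [Nat.mul_div_cancel_left _ hd1] at h
    have : r = r' := by omega
    rw [this]) hL
  have h3 : ∑ l ∈ F, ‖gs H (-((l : ℝ) / ((d * e : ℕ) : ℝ)))‖ ^ 2 ≤
      ∑ l ∈ F, 2 * (H : ℝ) ^ 2 * (2 * kp ((((l / d - 1 : ℕ) : ℝ) + 1) / (e / (2 * H))) +
        kp ((((e - l / d - 1 : ℕ) : ℝ) + 1) / (e / (2 * H)))) := by
    refine sum_le_sum fun l hl => ?_
    obtain ⟨r, rfl, r1, r2⟩ := hmem l hl
    have r1' : (1 : ℝ) ≤ r := by exact_mod_cast r1
    have r2' : (r : ℝ) < e := by exact_mod_cast r2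
    simp only [Nat.mul_div_cancel_left _ hd1]
    have e0 : (((d * r : ℕ) : ℝ) / ((d * e : ℕ) : ℝ)) = r / e := by
      push_cast
      field_simp
    rw [e0]
    have hre : (r : ℝ) / e ≤ 1 := by rw [div_le_one (by positivity)]; linarith
    have hre0 : (0 : ℝ) ≤ r / e := by positivity
    have hg := gs_sq_le' H (x := -((r : ℝ) / e)) (by rw [abs_neg, abs_of_nonneg hre0]; exact hre)
    refine hg.trans (mul_le_mul_of_nonneg_left ?_ (by positivity))
    have e1 : (((r - 1 : ℕ) : ℝ) + 1) / (e / (2 * H)) = 2 * H * (r / e) := by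
      rw [Nat.cast_sub r1]
      push_cast
      field_simp
      ring
    have e2 : (((e - r - 1 : ℕ) : ℝ) + 1) / (e / (2 * H)) = 2 * H * (-(r / e) + 1) := by
      rw [Nat.cast_sub (by omega), Nat.cast_sub r2.le]
      push_cast
      field_simp
      ring
    rw [e1, e2]
    have a1 : kp (2 * H * (-((r : ℝ) / e) - 1)) ≤ kp (2 * H * (r / e)) := by
      apply kp_anti
      have : (0 : ℝ) ≤ (2 * H) ^ 2 * (2 * (r / e) + 1) := by positivity
      nlinarith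
    have a2 : kp (2 * H * (-((r : ℝ) / e))) = kp (2 * H * (r / e)) := by
      rw [← kp_neg]; congr 1; ring
    linarith
  simp only [← mul_sum, sum_add_distrib] at h3
  have h4 : ∑ l ∈ F, ‖gs H (-((l : ℝ) / ((d * e : ℕ) : ℝ)))‖ ^ 2 ≤
      2 * (H : ℝ) ^ 2 * (3 * (2 * (e / (2 * H)))) := by
    refine h3.trans (mul_le_mul_of_nonneg_left ?_ (by positivity))
    linarith
  refine (mul_le_mul_of_nonneg_left h4 (by positivity)).trans (le_of_eq ?_)
  push_cast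
  field_simp
  ring

lemma card_dvd_mul_le {a l P : ℕ} (ha : 1 ≤ a) :
    (((Ioc 0 P).filter (fun a' => a ∣ l * a')).card : ℝ) ≤
      P * ∑ d ∈ a.divisors, (if d ∣ l then (d : ℝ) / a else 0) := by
  set g := Nat.gcd a l with hg
  have hg0 : 0 < g := Nat.gcd_pos_of_pos_left _ ha
  obtain ⟨a1, ha1⟩ : g ∣ a := Nat.gcd_dvd_left _ _
  obtain ⟨l1, hl1⟩ : g ∣ l := Nat.gcd_dvd_right _ _
  have hco : Nat.Coprime a1 l1 := by
    have := Nat.coprime_div_gcd_div_gcd (m := a) (n := l) hg0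
    rw [← hg] at this
    have e1 : a / g = a1 := by rw [ha1]; exact Nat.mul_div_cancel_left _ hg0
    have e2 : l / g = l1 := by rw [hl1]; exact Nat.mul_div_cancel_left _ hg0
    rwa [e1, e2] at this
  have ha10 : 0 < a1 := by
    rcases Nat.eq_zero_or_pos a1 with h | h
    · rw [h, mul_zero] at ha1; omega
    · exact h
  have h1 : ((Ioc 0 P).filter (fun a' => a ∣ l * a')).card ≤ P / a1 := by
    rw [← Nat.Ioc_filter_dvd_card_eq_div]
    apply card_le_card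
    intro x hx
    obtain ⟨x1, x2⟩ := mem_filter.1 hx
    refine mem_filter.2 ⟨x1, ?_⟩
    apply hco.dvd_of_dvd_mul_left
    have : g * a1 ∣ g * (l1 * x) := by
      rw [← ha1, ← mul_assoc, ← hl1]
      exact x2
    exact Nat.dvd_of_mul_dvd_mul_left hg0 this
  have h2 : ((P / a1 : ℕ) : ℝ) ≤ P * ((g : ℝ) / a) := by
    refine Nat.cast_div_le.trans (le_of_eq ?_)
    have : (a : ℝ) = g * a1 := by exact_mod_cast ha1
    rw [this]
    have : (g : ℝ) ≠ 0 := by positivity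
    field_simp
  have h3 : (g : ℝ) / a ≤ ∑ d ∈ a.divisors, (if d ∣ l then (d : ℝ) / a else 0) := by
    have hm : g ∈ a.divisors := Nat.mem_divisors.2 ⟨Nat.gcd_dvd_left _ _, by omega⟩
    have := single_le_sum (f := fun d => if d ∣ l then (d : ℝ) / a else 0)
      (fun d _ => by split_ifs <;> positivity) hm
    simp only [if_pos (Nat.gcd_dvd_right a l), hg] at this
    exact this
  calc _ ≤ ((P / a1 : ℕ) : ℝ) := by exact_mod_cast h1
    _ ≤ _ := h2.trans (mul_le_mul_of_nonneg_left h3 (by positivity))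

lemma variance (A : Finset ℕ) (α : ℕ → ℝ) (hα0 : ∀ a ∈ A, 0 ≤ α a) {am : ℝ}
    (hαm : ∀ a ∈ A, α a ≤ am) {P1 P2 : ℕ} (hP : 1 ≤ P1) (hP' : 1 ≤ P2) (hP1 : ∀ a ∈ A, P1 ≤ a)
    (hP2 : ∀ a ∈ A, a ≤ P2) {τ : ℝ} (hτ : ∀ a ∈ A, (a.divisors.card : ℝ) ≤ τ) {H Y : ℕ}
    (hH : 1 ≤ H) (hY : 1 ≤ Y) :
    ∑ x ∈ Icc 1 Y, (∑ a ∈ A, α a * ∑ i ∈ range H, (dv a ((x : ℤ) - i) - 1 / a)) ^ 2 ≤
      24 * (2 * Y + (P2 : ℝ) ^ 2) * (6 * H * τ * am * P2 / (P1 : ℝ) ^ 2 * ∑ a ∈ A, α a) := by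
  classical
  have hP1' : (1 : ℝ) ≤ P1 := by exact_mod_cast hP
  have hP2' : (1 : ℝ) ≤ P2 := by exact_mod_cast hP'
  set P : Finset (Σ _ : ℕ, ℕ) := A.sigma (fun a => Ico 1 a) with hPdef
  set val : (Σ _ : ℕ, ℕ) → ℝ := fun p => (p.2 : ℝ) / p.1 with hval
  set R : Finset ℝ := P.image val with hR
  set W : ℝ → ℝ := fun ρ => ∑ p ∈ P.filter (fun p => val p = ρ), α p.1 / p.1 with hW
  have hPm : ∀ p ∈ P, p.1 ∈ A ∧ 1 ≤ p.2 ∧ p.2 < p.1 := by
    intro p hp
    have := mem_sigma.1 hp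
    exact ⟨this.1, (mem_Ico.1 this.2).1, (mem_Ico.1 this.2).2⟩
  have hmaps : ∀ p ∈ P, val p ∈ R := fun p hp => mem_image_of_mem _ hp
  have hid : ∀ x : ℕ, ((∑ a ∈ A, α a * ∑ i ∈ range H, (dv a ((x : ℤ) - i) - 1 / a) : ℝ) : ℂ) =
      ∑ ρ ∈ R, ((W ρ : ℂ) * gs H (-ρ)) * ex (x * ρ) := by
    intro x
    have e1 : ((∑ a ∈ A, α a * ∑ i ∈ range H, (dv a ((x : ℤ) - i) - 1 / a) : ℝ) : ℂ) =
        ∑ p ∈ P, ((α p.1 / p.1 : ℝ) : ℂ) * gs H (-(val p)) * ex (x * val p) := by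
      rw [hPdef, sum_sigma, Complex.ofReal_sum]
      refine sum_congr rfl fun a ha => ?_
      rw [Complex.ofReal_mul, Complex.ofReal_sum]
      simp_rw [dv_sub a (hP.trans (hP1 a ha))]
      rw [sum_comm, mul_sum]
      refine sum_congr rfl fun l _ => ?_
      simp only [hval, gs, mul_sum, sum_mul]
      refine sum_congr rfl fun i _ => ?_
      have : (((x : ℤ) - i : ℤ) : ℝ) * ((l : ℝ) / a) = i * (-((l : ℝ) / a)) + x * ((l : ℝ) / a) := by
        push_cast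
        ring
      rw [this, ex_add]
      push_cast
      ring
    rw [e1, ← sum_fiberwise_of_maps_to hmaps]
    refine sum_congr rfl fun ρ _ => ?_
    simp only [hW, Complex.ofReal_sum, sum_mul]
    refine sum_congr rfl fun p hp => ?_
    rw [(mem_filter.1 hp).2]
  have hls := large_sieve R (fun ρ => (W ρ : ℂ) * gs H (-ρ)) (Q := (P2 : ℝ) ^ 2) (by positivity)
    (by
      intro ρ hρ
      obtain ⟨p, hp, rfl⟩ := mem_image.1 hρ
      obtain ⟨-, h2, h3⟩ := hPm p hp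
      have h3' : (p.2 : ℝ) < p.1 := by exact_mod_cast h3
      have h4 : (0 : ℝ) ≤ p.2 := by positivity
      simp only [hval]
      refine ⟨by positivity, ?_⟩
      rw [div_le_one (by linarith)]
      linarith)
    (by
      intro ρ hρ ρ' hρ' hne
      obtain ⟨p, hp, rfl⟩ := mem_image.1 hρ
      obtain ⟨p', hp', rfl⟩ := mem_image.1 hρ'
      obtain ⟨h1, h2, h3⟩ := hPm p hp
      obtain ⟨h1', h2', h3'⟩ := hPm p' hp'
      have a0 : (0 : ℝ) < p.1 := by exact_mod_cast (by omega : 0 < p.1)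
      have a0' : (0 : ℝ) < p'.1 := by exact_mod_cast (by omega : 0 < p'.1)
      have b1 : (p.1 : ℝ) ≤ P2 := by exact_mod_cast hP2 _ h1
      have b1' : (p'.1 : ℝ) ≤ P2 := by exact_mod_cast hP2 _ h1'
      have hne2 : (p.2 : ℤ) * p'.1 - p'.2 * p.1 ≠ 0 := by
        intro h
        apply hne
        simp only [hval]
        rw [div_eq_div_iff a0.ne' a0'.ne']
        have : (((p.2 : ℤ) * p'.1 - p'.2 * p.1 : ℤ) : ℝ) = 0 := by exact_mod_cast h
        push_cast at this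
        linarith
      have h5 : (1 : ℝ) ≤ |(p.2 : ℝ) * p'.1 - p'.2 * p.1| := by
        have := Int.one_le_abs hne2
        exact_mod_cast this
      have e : (P2 : ℝ) ^ 2 * val p - (P2 : ℝ) ^ 2 * val p' =
          (P2 : ℝ) ^ 2 / (p.1 * p'.1) * ((p.2 : ℝ) * p'.1 - p'.2 * p.1) := by
        simp only [hval]
        field_simp
      rw [e, abs_mul, abs_of_pos (by positivity : (0 : ℝ) < (P2 : ℝ) ^ 2 / (p.1 * p'.1))]
      have h6 : (1 : ℝ) ≤ (P2 : ℝ) ^ 2 / (p.1 * p'.1) := by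
        rw [le_div_iff₀ (by positivity)]
        nlinarith
      nlinarith) hY
  have hW0 : ∀ ρ, 0 ≤ W ρ := by
    intro ρ
    refine sum_nonneg fun p hp => ?_
    have := hα0 _ (hPm p (mem_filter.1 hp).1).1
    positivity
  have hWle : ∀ p ∈ P, W (val p) ≤
      am / P1 * (P2 * ∑ d ∈ p.1.divisors, (if d ∣ p.2 then (d : ℝ) / p.1 else 0)) := by
    intro p hp
    obtain ⟨h1, h2, h3⟩ := hPm p hp
    have ham : 0 ≤ am := (hα0 _ h1).trans (hαm _ h1)
    have c1 : W (val p) ≤ (P.filter (fun p' => val p' = val p)).card * (am / P1) := by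
      rw [← nsmul_eq_mul]
      apply sum_le_card_nsmul
      intro p' hp'
      obtain ⟨h1', -, -⟩ := hPm p' (mem_filter.1 hp').1
      have b : (P1 : ℝ) ≤ p'.1 := by exact_mod_cast hP1 _ h1'
      exact div_le_div₀ ham (hαm _ h1') (by linarith) b
    have c2 : (P.filter (fun p' => val p' = val p)).card ≤
        ((Ioc 0 P2).filter (fun a' => p.1 ∣ p.2 * a')).card := by
      apply card_le_card_of_injOn (fun p' => p'.1)
      · intro p' hp'
        have hp'' := mem_filter.1 (mem_coe.1 hp')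
        obtain ⟨h1', h2', h3'⟩ := hPm p' hp''.1
        have a0 : (0 : ℝ) < p.1 := by exact_mod_cast (by omega : 0 < p.1)
        have a0' : (0 : ℝ) < p'.1 := by exact_mod_cast (by omega : 0 < p'.1)
        have hv := hp''.2
        simp only [hval] at hv
        rw [div_eq_div_iff a0'.ne' a0.ne'] at hv
        have hv' : p'.2 * p.1 = p.2 * p'.1 := by exact_mod_cast hv
        simp only [coe_filter, mem_Ioc, Set.mem_ofPred_eq]
        exact ⟨⟨by omega, hP2 _ h1'⟩, hv' ▸ Dvd.intro_left _ rfl⟩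
      · intro p1 hp1 p2 hp2 h
        have hp1' := mem_filter.1 (mem_coe.1 hp1)
        have hp2' := mem_filter.1 (mem_coe.1 hp2)
        obtain ⟨-, h2', h3'⟩ := hPm p2 hp2'.1
        have hv := hp1'.2.trans hp2'.2.symm
        obtain ⟨a1, l1⟩ := p1
        obtain ⟨a2, l2⟩ := p2
        simp only at h
        subst h
        simp only [hval] at hv h2' h3'
        have a0 : (0 : ℝ) < a1 := by exact_mod_cast (by omega : 0 < a1)
        rw [div_left_inj' a0.ne'] at hv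
        have : l1 = l2 := by exact_mod_cast hv
        rw [this]
    have c3 := card_dvd_mul_le (a := p.1) (l := p.2) (P := P2) (by omega)
    have c2' : ((P.filter (fun p' => val p' = val p)).card : ℝ) ≤
        ((Ioc 0 P2).filter (fun a' => p.1 ∣ p.2 * a')).card := by exact_mod_cast c2
    rw [mul_comm] at c1
    exact c1.trans (mul_le_mul_of_nonneg_left (c2'.trans c3) (by positivity))
  have hsum : ∑ ρ ∈ R, ‖(W ρ : ℂ) * gs H (-ρ)‖ ^ 2 ≤
      6 * H * τ * am * P2 / (P1 : ℝ) ^ 2 * ∑ a ∈ A, α a := by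
    have e1 : ∑ ρ ∈ R, ‖(W ρ : ℂ) * gs H (-ρ)‖ ^ 2 =
        ∑ p ∈ P, α p.1 / p.1 * (W (val p) * ‖gs H (-(val p))‖ ^ 2) := by
      rw [← sum_fiberwise_of_maps_to hmaps]
      refine sum_congr rfl fun ρ _ => ?_
      have : ‖(W ρ : ℂ) * gs H (-ρ)‖ ^ 2 = W ρ * (W ρ * ‖gs H (-ρ)‖ ^ 2) := by
        rw [norm_mul, Complex.norm_real, Real.norm_of_nonneg (hW0 ρ)]
        ring
      have e0 : W ρ * (W ρ * ‖gs H (-ρ)‖ ^ 2) =
          ∑ p ∈ P.filter (fun p => val p = ρ), α p.1 / p.1 * (W ρ * ‖gs H (-ρ)‖ ^ 2) := by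
        rw [← sum_mul]
      rw [this, e0]
      refine sum_congr rfl fun p hp => ?_
      rw [(mem_filter.1 hp).2]
    rw [e1, hPdef, sum_sigma, mul_sum]
    refine sum_le_sum fun a ha => ?_
    have ha1 : 1 ≤ a := hP.trans (hP1 a ha)
    have haP : (P1 : ℝ) ≤ a := by exact_mod_cast hP1 a ha
    have ham : 0 ≤ am := (hα0 _ ha).trans (hαm _ ha)
    have hα := hα0 a ha
    have d1 : ∑ l ∈ Ico 1 a, W (val ⟨a, l⟩) * ‖gs H (-(val ⟨a, l⟩))‖ ^ 2 ≤
        am / P1 * P2 * (τ * (6 * H)) := by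
      calc ∑ l ∈ Ico 1 a, W (val ⟨a, l⟩) * ‖gs H (-(val ⟨a, l⟩))‖ ^ 2
          ≤ ∑ l ∈ Ico 1 a, am / P1 * (P2 * ∑ d ∈ a.divisors,
              (if d ∣ l then (d : ℝ) / a else 0)) * ‖gs H (-((l : ℝ) / a))‖ ^ 2 := by
            refine sum_le_sum fun l hl => ?_
            exact mul_le_mul_of_nonneg_right (hWle ⟨a, l⟩ (mem_sigma.2 ⟨ha, hl⟩)) (by positivity)
        _ = am / P1 * P2 * ∑ d ∈ a.divisors, (d : ℝ) / a *
              ∑ l ∈ (Ico 1 a).filter (fun l => d ∣ l), ‖gs H (-((l : ℝ) / a))‖ ^ 2 := by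
            simp only [sum_filter, mul_sum, sum_mul]
            rw [sum_comm]
            refine sum_congr rfl fun d _ => sum_congr rfl fun l _ => ?_
            split_ifs <;> ring
        _ ≤ am / P1 * P2 * (τ * (6 * H)) := by
            apply mul_le_mul_of_nonneg_left _ (by positivity)
            refine (sum_le_card_nsmul _ _ (6 * (H : ℝ)) fun d hd =>
              sum_gs_mult ha1 (Nat.dvd_of_mem_divisors hd) hH).trans ?_
            rw [nsmul_eq_mul]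
            exact mul_le_mul_of_nonneg_right (hτ a ha) (by positivity)
    have hτ0 : 0 ≤ τ := le_trans (by positivity) (hτ a ha)
    simp only
    rw [← mul_sum]
    calc α a / a * ∑ l ∈ Ico 1 a, W (val ⟨a, l⟩) * ‖gs H (-(val ⟨a, l⟩))‖ ^ 2
        ≤ α a / P1 * (am / P1 * P2 * (τ * (6 * H))) := by
          apply mul_le_mul _ d1 (sum_nonneg fun l _ => mul_nonneg (hW0 _) (by positivity))
            (by positivity)
          exact div_le_div_of_nonneg_left hα (by linarith) haP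
      _ = _ := by field_simp
  refine le_trans (le_of_eq ?_) (hls.trans (mul_le_mul_of_nonneg_left hsum (by positivity)))
  refine sum_congr rfl fun x _ => ?_
  rw [← hid x, Complex.norm_real, Real.norm_eq_abs, sq_abs]

end Pool.Agent.MP_2a1f0e_nt
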