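import Pool.Agent.MP_2a1f0e_nt.Kernel

set_option autoImplicit false

open Finset

namespace Pool.Agent.MP_2a1f0e_nt

/-- `n ^ (i t)`. -/
noncomputable def nit (t n : ℕ) : ℂ :=
  Complex.exp (Complex.I * (t : ℂ) * ((Real.log (n : ℝ) : ℝ) : ℂ))

lemma abs_sub_div_le_log {a b X : ℝ} (ha : 0 < a) (hb : 0 < b) (haX : a ≤ X) (hbX : b ≤ X) :
    |a - b| / X ≤ |Real.log a - Real.log b| := by
  have hX : 0 < X := ha.trans_le haX
  wlog h : b ≤ a generalizing a b
  · have := this hb ha hbX haX (le_of_not_ge h)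
    rwa [abs_sub_comm, abs_sub_comm (Real.log b)] at this
  have h1 := Real.one_sub_inv_le_log_of_pos (x := a / b) (by positivity)
  rw [Real.log_div ha.ne' hb.ne'] at h1
  have h2 : (a - b) / X ≤ 1 - (a / b)⁻¹ := by
    have : 1 - (a / b)⁻¹ = (a - b) / a := by field_simp
    rw [this]
    exact div_le_div_of_nonneg_left (by linarith) ha haX
  rw [abs_of_nonneg (by linarith)]
  exact (h2.trans h1).trans (le_abs_self _)

lemma mv_kernel (S : Finset ℕ) (c : ℕ → ℂ) (u : ℕ → ℝ) (hcu : ∀ n ∈ S, ‖c n‖ ≤ u n)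
    (K T : ℕ) (hK : 1 ≤ K) (hT : 1 ≤ T) (X H : ℝ) (hH : 0 < H) (hXH : 2 * X ≤ T * H)
    (hS1 : ∀ n ∈ S, 1 ≤ n) (hSX : ∀ n ∈ S, (n : ℝ) ≤ X)
    (hSK : ∀ n ∈ S, ∀ m ∈ S, n ≤ 2 ^ K * m) :
    ∑ t ∈ Icc 1 T, ‖∑ n ∈ S, c n * nit t n‖ ^ 2 ≤
      8 * K * T * ∑ n ∈ S, ∑ m ∈ S, u n * u m * kp (((n : ℝ) - m) / H) := by
  have hpi := Real.pi_pos
  have hK' : (1 : ℝ) ≤ K := by exact_mod_cast hK
  have hT' : (1 : ℝ) ≤ T := by exact_mod_cast hT
  set φ : ℕ → ℝ := fun n => Real.log n / (2 * Real.pi * K) with hφ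
  have h1 := fejer S c φ (K * T)
  have h2 : ∑ t ∈ Icc 1 T, ‖∑ n ∈ S, c n * nit t n‖ ^ 2 ≤
      ∑ t ∈ Icc 1 (K * T), ‖∑ n ∈ S, c n * ex (t * φ n)‖ ^ 2 := by
    have e : ∑ t ∈ Icc 1 T, ‖∑ n ∈ S, c n * nit t n‖ ^ 2 =
        ∑ t ∈ (Icc 1 T).image (fun t => K * t), ‖∑ n ∈ S, c n * ex (t * φ n)‖ ^ 2 := by
      rw [sum_image (fun a _ b _ h => Nat.eq_of_mul_eq_mul_left hK h)]
      refine sum_congr rfl fun t _ => ?_
      congr 2
      refine sum_congr rfl fun n _ => ?_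
      congr 1
      unfold nit ex
      congr 1
      have : 2 * Real.pi * (((K * t : ℕ) : ℝ) * φ n) = t * Real.log n := by
        simp only [hφ]
        push_cast
        field_simp
      rw [this]
      push_cast
      ring
    rw [e]
    apply sum_le_sum_of_subset_of_nonneg
    · intro r hr
      obtain ⟨t, ht, rfl⟩ := mem_image.1 hr
      have := mem_Icc.1 ht
      rw [mem_Icc]
      constructor
      · nlinarith [this.1]
      · exact Nat.mul_le_mul_left _ this.2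
    · intro _ _ _
      positivity
  have h3 : ∑ i ∈ S, ∑ j ∈ S, ‖c i‖ * ‖c j‖ * ‖gs (2 * (K * T)) (φ i - φ j)‖ ^ 2 ≤
      ∑ n ∈ S, ∑ m ∈ S, 8 * (K * T) ^ 2 * (u n * u m * kp (((n : ℝ) - m) / H)) := by
    refine sum_le_sum fun n hn => sum_le_sum fun m hm => ?_
    have hn1 : (1 : ℝ) ≤ n := by exact_mod_cast hS1 n hn
    have hm1 : (1 : ℝ) ≤ m := by exact_mod_cast hS1 m hm
    have hlog : ∀ a ∈ S, ∀ b ∈ S, Real.log a - Real.log b ≤ K * Real.pi := by
      intro a ha b hb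
      have a1 : (1 : ℝ) ≤ a := by exact_mod_cast hS1 a ha
      have b1 : (1 : ℝ) ≤ b := by exact_mod_cast hS1 b hb
      have hab : (a : ℝ) ≤ 2 ^ K * b := by exact_mod_cast hSK a ha b hb
      have := Real.log_le_log (by linarith) hab
      rw [Real.log_mul (by positivity) (by positivity), Real.log_pow] at this
      have hl : Real.log 2 ≤ Real.pi := by
        have := Real.log_two_lt_d9
        have := Real.pi_gt_three
        linarith
      nlinarith
    have hd : φ n - φ m = (Real.log n - Real.log m) / (2 * Real.pi * K) := by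
      simp only [hφ]
      ring
    have habs : |φ n - φ m| ≤ 1 / 2 := by
      rw [hd, abs_div, abs_of_pos (by positivity : (0 : ℝ) < 2 * Real.pi * K),
        div_le_iff₀ (by positivity), abs_le]
      have a := hlog n hn m hm
      have b := hlog m hm n hn
      constructor <;> nlinarith
    have hg := gs_sq_le (2 * (K * T)) habs
    have hk : kp (2 * ((2 * (K * T) : ℕ) : ℝ) * (φ n - φ m)) ≤ kp (((n : ℝ) - m) / H) := by
      apply kp_anti
      rw [← sq_abs, ← sq_abs (2 * _ * _)]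
      apply pow_le_pow_left₀ (abs_nonneg _)
      have hX : 0 < X := by linarith [hSX n hn]
      have hl := abs_sub_div_le_log (by linarith) (by linarith) (hSX n hn) (hSX m hm)
      have e : 2 * ((2 * (K * T) : ℕ) : ℝ) * (φ n - φ m) =
          2 * T / Real.pi * (Real.log n - Real.log m) := by
        rw [hd]
        push_cast
        field_simp
      rw [e, abs_mul, abs_div, abs_of_pos hH, abs_of_pos (by positivity : (0 : ℝ) < 2 * T / Real.pi)]
      refine le_trans ?_ (mul_le_mul_of_nonneg_left hl (by positivity))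
      have e2 : 2 * T / Real.pi * (|(n : ℝ) - m| / X) = |(n : ℝ) - m| / (Real.pi * X / (2 * T)) := by
        field_simp
      rw [e2]
      apply div_le_div_of_nonneg_left (abs_nonneg _) (by positivity)
      rw [div_le_iff₀ (by positivity)]
      have := Real.pi_le_four
      nlinarith
    have hu : ‖c n‖ * ‖c m‖ ≤ u n * u m :=
      mul_le_mul (hcu n hn) (hcu m hm) (norm_nonneg _) ((norm_nonneg _).trans (hcu n hn))
    have hu0 : 0 ≤ u n * u m := le_trans (by positivity) hu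
    calc ‖c n‖ * ‖c m‖ * ‖gs (2 * (K * T)) (φ n - φ m)‖ ^ 2
        ≤ u n * u m * (2 * ((2 * (K * T) : ℕ) : ℝ) ^ 2 * kp (((n : ℝ) - m) / H)) := by
          apply mul_le_mul hu _ (by positivity) hu0
          exact hg.trans (mul_le_mul_of_nonneg_left hk (by positivity))
      _ = _ := by push_cast; ring
  simp only [← mul_sum] at h3
  have h4 := (mul_le_mul_of_nonneg_left h2 (by positivity : (0 : ℝ) ≤ ((K * T : ℕ) : ℝ))).trans
    (h1.trans h3)
  push_cast at h4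
  have hKT : (0 : ℝ) < K * T := by positivity
  have e : 8 * ((K : ℝ) * T) ^ 2 * ∑ n ∈ S, ∑ m ∈ S, u n * u m * kp (((n : ℝ) - m) / H) =
      (K * T) * (8 * K * T * ∑ n ∈ S, ∑ m ∈ S, u n * u m * kp (((n : ℝ) - m) / H)) := by ring
  rw [e] at h4
  exact le_of_mul_le_mul_left h4 hKT

lemma nat_sep (s : Finset ℕ) : ∀ i ∈ s, ∀ j ∈ s, i ≠ j → 1 ≤ |(i : ℝ) - j| := by
  intro i _ j _ h
  have : (1 : ℤ) ≤ |(i : ℤ) - j| := Int.one_le_abs (by omega)
  exact_mod_cast this

lemma kernel_schur (S : Finset ℕ) (u : ℕ → ℝ) {H : ℝ} (hH : 0 < H) :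
    ∑ n ∈ S, ∑ m ∈ S, u n * u m * kp (((n : ℝ) - m) / H) ≤ (2 + 4 * H) * ∑ n ∈ S, u n ^ 2 := by
  apply schur S u (fun n m => kp (((n : ℝ) - m) / H)) (fun _ _ _ _ => (kp_pos _).le)
  · intro i _ j _
    rw [← kp_neg]
    congr 1
    ring
  · intro i _
    have := sum_kp_sep S (fun j => (j : ℝ)) (nat_sep S) i hH
    refine le_trans (le_of_eq ?_) this
    refine sum_congr rfl fun j _ => ?_
    rw [← kp_neg]
    congr 1
    ring

/-- window indicator -/
def ind (H n x : ℕ) : ℝ := if n ≤ x ∧ x < n + H then 1 else 0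

lemma ind_nonneg (H n x : ℕ) : 0 ≤ ind H n x := by unfold ind; split_ifs <;> norm_num

lemma sum_ind {H n Y : ℕ} (hn : 1 ≤ n) (hY : n + H ≤ Y) : ∑ x ∈ Icc 1 Y, ind H n x = H := by
  unfold ind
  rw [sum_ite, sum_const_zero, add_zero, sum_const, nsmul_eq_mul, mul_one]
  have : filter (fun x => n ≤ x ∧ x < n + H) (Icc 1 Y) = Ico n (n + H) := by
    ext x
    simp only [mem_filter, mem_Icc, mem_Ico]
    omega
  rw [this]
  simp

lemma kernel_window (S : Finset ℕ) (u : ℕ → ℝ) (hu : ∀ n ∈ S, 0 ≤ u n) {H Y : ℕ} (hH : 1 ≤ H)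
    (hS1 : ∀ n ∈ S, 1 ≤ n) (hSY : ∀ n ∈ S, n + H ≤ Y) :
    H * ∑ n ∈ S, ∑ m ∈ S, u n * u m * kp (((n : ℝ) - m) / H) ≤
      18 * ∑ x ∈ Icc 1 Y, (∑ n ∈ S, u n * ind H n x) ^ 2 := by
  have hH' : (1 : ℝ) ≤ H := by exact_mod_cast hH
  have h1 : (H : ℝ) ^ 2 * ∑ n ∈ S, ∑ m ∈ S, u n * u m * kp (((n : ℝ) - m) / H) ≤
      ∑ n ∈ S, ∑ m ∈ S, ∑ x ∈ Icc 1 Y, ∑ y ∈ Icc 1 Y,
        3 * ((u n * ind H n x) * (u m * ind H m y) * kp (((x : ℝ) - y) / H)) := by
    rw [mul_sum]
    refine sum_le_sum fun n hn => ?_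
    rw [mul_sum]
    refine sum_le_sum fun m hm => ?_
    have e : (H : ℝ) ^ 2 * (u n * u m * kp (((n : ℝ) - m) / H)) =
        ∑ x ∈ Icc 1 Y, ∑ y ∈ Icc 1 Y,
          (u n * ind H n x) * (u m * ind H m y) * kp (((n : ℝ) - m) / H) := by
      simp only [← sum_mul, ← mul_sum]
      rw [sum_ind (hS1 n hn) (hSY n hn), sum_ind (hS1 m hm) (hSY m hm)]
      ring
    rw [e]
    refine sum_le_sum fun x _ => sum_le_sum fun y _ => ?_
    unfold ind
    split_ifs with h1 h2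
    · have hk : kp (((n : ℝ) - m) / H) ≤ 3 * kp (((x : ℝ) - y) / H) := by
        have a1 : (n : ℝ) ≤ x := by exact_mod_cast h1.1
        have a2 : (x : ℝ) < n + H := by exact_mod_cast h1.2
        have b1 : (m : ℝ) ≤ y := by exact_mod_cast h2.1
        have b2 : (y : ℝ) < m + H := by exact_mod_cast h2.2
        set p := ((n : ℝ) - m) / H with hp
        set e := (((x : ℝ) - y) - (n - m)) / H with he
        have e1 : ((x : ℝ) - y) / H = p + e := by rw [hp, he]; ring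
        have e2 : e ^ 2 ≤ 1 := by
          rw [he, div_pow, div_le_one (by positivity)]
          apply sq_le_sq'
          · linarith
          · linarith
        rw [e1]
        unfold kp
        rw [mul_one_div, div_le_div_iff₀ (by positivity) (by positivity)]
        nlinarith [sq_nonneg (p - e)]
      have := mul_nonneg (hu n hn) (hu m hm)
      nlinarith
    all_goals simp
  have h2 : ∑ n ∈ S, ∑ m ∈ S, ∑ x ∈ Icc 1 Y, ∑ y ∈ Icc 1 Y,
        3 * ((u n * ind H n x) * (u m * ind H m y) * kp (((x : ℝ) - y) / H)) =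
      3 * ∑ x ∈ Icc 1 Y, ∑ y ∈ Icc 1 Y, (∑ n ∈ S, u n * ind H n x) *
        (∑ m ∈ S, u m * ind H m y) * kp (((x : ℝ) - y) / H) := by
    simp only [sum_mul, mul_sum]
    simp_rw [sum_comm (s := S) (t := Icc 1 Y)]
    refine sum_congr rfl fun x _ => sum_congr rfl fun y _ => sum_comm
  have h3 := kernel_schur (Icc 1 Y) (fun x => ∑ n ∈ S, u n * ind H n x) (H := H) (by linarith)
  rw [h2] at h1
  have h0 : 0 ≤ ∑ x ∈ Icc 1 Y, (∑ n ∈ S, u n * ind H n x) ^ 2 := by positivity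
  have h4 : (H : ℝ) * (H * ∑ n ∈ S, ∑ m ∈ S, u n * u m * kp (((n : ℝ) - m) / H)) ≤
      H * (18 * ∑ x ∈ Icc 1 Y, (∑ n ∈ S, u n * ind H n x) ^ 2) := by
    nlinarith
  exact le_of_mul_le_mul_left h4 (by linarith)

end Pool.Agent.MP_2a1f0e_nt
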